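import Mathlib

/-!
# Cuts of the lattice: closed sets of bonds in a box are boundaries
-/

set_option autoImplicit false

open Finset

namespace Pool.Agent.R239.EA

variable {d : ℕ}

/-- the unit vector -/
def u (i : Fin d) : Fin d → ℤ := Pi.single i (1 : ℤ)

lemma u_same (i : Fin d) : u i i = 1 := by unfold u; exact Pi.single_eq_same _ _

lemma u_ne {i j : Fin d} (h : j ≠ i) : u i j = 0 := by unfold u; exact Pi.single_eq_of_ne h _

/-- the other end of the bond -/
def nx (e : (Fin d → ℤ) × Fin d) : Fin d → ℤ := e.1 + u e.2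

/-- the maximum norm -/
def nrm (x : Fin d → ℤ) : ℕ := Finset.univ.sup fun i => (x i).natAbs

lemma nrm_le {x : Fin d → ℤ} {n : ℕ} : nrm x ≤ n ↔ ∀ i, |x i| ≤ (n : ℤ) := by
  unfold nrm
  rw [Finset.sup_le_iff]
  constructor
  · intro h i
    have := h i (Finset.mem_univ i)
    rw [Int.abs_eq_natAbs]
    exact_mod_cast this
  · intro h i _
    have := h i
    rw [Int.abs_eq_natAbs] at this
    exact_mod_cast this

lemma nrm_add (x y : Fin d → ℤ) : nrm (x + y) ≤ nrm x + nrm y := by
  rw [nrm_le]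
  intro i
  have h1 := (nrm_le (x := x)).1 le_rfl i
  have h2 := (nrm_le (x := y)).1 le_rfl i
  rw [abs_le] at h1 h2
  rw [Pi.add_apply, abs_le]
  push_cast
  constructor <;> linarith [h1.1, h1.2, h2.1, h2.2]

lemma nrm_neg (x : Fin d → ℤ) : nrm (-x) = nrm x := by
  unfold nrm
  simp

lemma nrm_sub_comm (x y : Fin d → ℤ) : nrm (x - y) = nrm (y - x) := by
  rw [← nrm_neg (y - x), neg_sub]

lemma nrm_tri (x y z : Fin d → ℤ) : nrm (x - z) ≤ nrm (x - y) + nrm (y - z) := by
  have h := nrm_add (x - y) (y - z)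
  rwa [sub_add_sub_cancel] at h

lemma nrm_zero : nrm (0 : Fin d → ℤ) = 0 := by
  have := (nrm_le (x := (0 : Fin d → ℤ)) (n := 0)).2 (by simp)
  omega

lemma nrm_single (i : Fin d) : nrm (u i) ≤ 1 := by
  rw [nrm_le]
  intro j
  by_cases h : j = i
  · subst h; rw [u_same]; simp
  · rw [u_ne h]; simp

lemma nrm_nx (e : (Fin d → ℤ) × Fin d) : nrm (nx e - e.1) ≤ 1 := by
  unfold nx
  rw [add_sub_cancel_left]
  exact nrm_single _

/-- the box of radius `n` around `w` -/
noncomputable def bx (w : Fin d → ℤ) (n : ℕ) : Finset (Fin d → ℤ) :=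
  Fintype.piFinset fun i => Finset.Icc (w i - n) (w i + n)

lemma mem_bx' {w x : Fin d → ℤ} {n : ℕ} : x ∈ bx w n ↔ ∀ i, |x i - w i| ≤ (n : ℤ) := by
  unfold bx
  rw [Fintype.mem_piFinset]
  refine forall_congr' fun i => ?_
  rw [Finset.mem_Icc, abs_le]
  constructor <;> rintro ⟨h1, h2⟩ <;> constructor <;> linarith

lemma mem_bx {w x : Fin d → ℤ} {n : ℕ} : x ∈ bx w n ↔ nrm (x - w) ≤ n := by
  rw [mem_bx', nrm_le]; rfl

lemma card_bx (w : Fin d → ℤ) (n : ℕ) : (bx w n).card = (2 * n + 1) ^ d := by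
  unfold bx
  rw [Fintype.card_piFinset]
  have : ∀ i : Fin d, (Finset.Icc (w i - n) (w i + n)).card = 2 * n + 1 := by
    intro i
    rw [Int.card_Icc]
    omega
  simp [this]

/-- the bonds joining `S` to its complement -/
def dC (S : Set (Fin d → ℤ)) : Set ((Fin d → ℤ) × Fin d) := {e | ¬ (e.1 ∈ S ↔ nx e ∈ S)}

/-- closed sets of bonds: an even number on every unit square -/
def Clo (D : Set ((Fin d → ℤ) × Fin d)) : Prop :=
  ∀ (v : Fin d → ℤ) (i j : Fin d), i ≠ j →
    (((v, i) ∈ D ↔ (v + u i, j) ∈ D) ↔ ((v, j) ∈ D ↔ (v + u j, i) ∈ D))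

lemma clo_dC (S : Set (Fin d → ℤ)) : Clo (dC S) := by
  intro v i j _
  unfold dC nx
  simp only [Set.mem_ofPred_eq]
  rw [add_right_comm v (u j) (u i)]
  tauto

open Classical in
/-- the number of bonds of `C` in direction `i0` behind `x` -/
noncomputable def gg (C : Finset ((Fin d → ℤ) × Fin d)) (i0 : Fin d) (x : Fin d → ℤ) : ZMod 2 :=
  ((C.filter fun e => e.2 = i0 ∧ e.1 i0 < x i0 ∧ ∀ i, i ≠ i0 → e.1 i = x i).card : ZMod 2)

open Classical in
/-- the indicator of `C` -/
noncomputable def ind (C : Finset ((Fin d → ℤ) × Fin d)) (e : (Fin d → ℤ) × Fin d) : ZMod 2 :=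
  if e ∈ C then 1 else 0

lemma ind_clo {C : Finset ((Fin d → ℤ) × Fin d)} (hC : Clo (C : Set ((Fin d → ℤ) × Fin d)))
    (v : Fin d → ℤ) {i j : Fin d} (hij : i ≠ j) :
    ind C (v, i) + ind C (v + u i, j) = ind C (v, j) + ind C (v + u j, i) := by
  have h := hC v i j hij
  simp only [Finset.mem_coe] at h
  unfold ind
  by_cases h1 : (v, i) ∈ C <;> by_cases h2 : (v + u i, j) ∈ C <;>
    by_cases h3 : (v, j) ∈ C <;> by_cases h4 : (v + u j, i) ∈ C <;>
    simp only [h1, h2, h3, h4, if_true, if_false] <;>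
    simp only [h1, h2, h3, h4] at h <;> first | decide | simp at h

lemma gg_step0 (C : Finset ((Fin d → ℤ) × Fin d)) (i0 : Fin d) (x : Fin d → ℤ) :
    gg C i0 (x + u i0) = gg C i0 x + ind C (x, i0) := by
  classical
  unfold gg ind
  have hsplit : (C.filter fun e => e.2 = i0 ∧ e.1 i0 < (x + u i0) i0 ∧
      ∀ i, i ≠ i0 → e.1 i = (x + u i0) i) =
      (C.filter fun e => e.2 = i0 ∧ e.1 i0 < x i0 ∧ ∀ i, i ≠ i0 → e.1 i = x i) ∪
      (C.filter fun e => e = (x, i0)) := by
    ext e
    simp only [Finset.mem_filter, Finset.mem_union, Pi.add_apply, u_same]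
    constructor
    · rintro ⟨h1, h2, h3, h4⟩
      have h5 : ∀ i, i ≠ i0 → e.1 i = x i := by
        intro i hi
        rw [h4 i hi, u_ne hi, add_zero]
      rcases lt_or_eq_of_le (Int.lt_add_one_iff.1 h3) with h | h
      · exact Or.inl ⟨h1, h2, h, h5⟩
      · refine Or.inr ⟨h1, Prod.ext ?_ h2⟩
        funext i
        by_cases hi : i = i0
        · rw [hi]; exact h
        · exact h5 i hi
    · rintro (⟨h1, h2, h3, h4⟩ | ⟨h1, h2⟩)
      · refine ⟨h1, h2, by linarith, fun i hi => ?_⟩
        rw [h4 i hi, u_ne hi, add_zero]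
      · subst h2
        refine ⟨h1, rfl, by simp, fun i hi => ?_⟩
        rw [u_ne hi, add_zero]
  have hdisj : Disjoint (C.filter fun e => e.2 = i0 ∧ e.1 i0 < x i0 ∧ ∀ i, i ≠ i0 → e.1 i = x i)
      (C.filter fun e => e = (x, i0)) := by
    rw [Finset.disjoint_left]
    intro e h1 h2
    rw [Finset.mem_filter] at h1 h2
    rw [h2.2] at h1
    exact lt_irrefl _ h1.2.2.1
  rw [hsplit, Finset.card_union_of_disjoint hdisj, Nat.cast_add]
  congr 1
  by_cases h : (x, i0) ∈ C
  · rw [if_pos h]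
    have : (C.filter fun e => e = (x, i0)) = {(x, i0)} := by
      ext e
      simp only [Finset.mem_filter, Finset.mem_singleton]
      constructor
      · exact fun h => h.2
      · intro he; exact ⟨he ▸ h, he⟩
    rw [this]; simp
  · rw [if_neg h]
    have : (C.filter fun e => e = (x, i0)) = ∅ := by
      ext e
      simp only [Finset.mem_filter, Finset.notMem_empty, iff_false, not_and]
      intro h1 h2
      exact h (h2 ▸ h1)
    rw [this]; simp

/-- every bond of `C` has an end in the box -/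
def Inb (C : Finset ((Fin d → ℤ) × Fin d)) (w : Fin d → ℤ) (M : ℕ) : Prop :=
  ∀ e ∈ C, nrm (e.1 - w) ≤ M ∨ nrm (nx e - w) ≤ M

lemma Inb.coord {C : Finset ((Fin d → ℤ) × Fin d)} {w : Fin d → ℤ} {M : ℕ} (h : Inb C w M)
    {e : (Fin d → ℤ) × Fin d} (he : e ∈ C) (i : Fin d) :
    w i - M - 1 ≤ e.1 i ∧ e.1 i ≤ w i + M ∧ (i ≠ e.2 → w i - M ≤ e.1 i) := by
  rcases h e he with h1 | h1
  · have h2 := nrm_le.1 h1 i
    rw [Pi.sub_apply, abs_le] at h2
    refine ⟨by linarith [h2.1], by linarith [h2.2], fun _ => by linarith [h2.1]⟩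
  · have h2 := nrm_le.1 h1 i
    unfold nx at h2
    rw [Pi.sub_apply, Pi.add_apply, abs_le] at h2
    by_cases hi : i = e.2
    · rw [hi, u_same, ← hi] at h2
      refine ⟨by linarith [h2.1], by linarith [h2.2], fun h3 => absurd hi h3⟩
    · rw [u_ne hi] at h2
      refine ⟨by linarith [h2.1], by linarith [h2.2], fun _ => by linarith [h2.1]⟩

lemma gg_stepi {C : Finset ((Fin d → ℤ) × Fin d)} (hC : Clo (C : Set ((Fin d → ℤ) × Fin d)))
    {w : Fin d → ℤ} {M : ℕ} (hin : Inb C w M) {i0 i : Fin d} (hi : i ≠ i0) (x : Fin d → ℤ) :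
    gg C i0 (x + u i) = gg C i0 x + ind C (x, i) := by
  classical
  have hlow : ∀ x : Fin d → ℤ, x i0 ≤ w i0 - M - 1 → gg C i0 x = 0 := by
    intro x hx
    unfold gg
    rw [Finset.filter_false_of_mem, Finset.card_empty, Nat.cast_zero]
    rintro e he ⟨-, h2, -⟩
    have := (hin.coord he i0).1
    linarith
  have hsi : ∀ x : Fin d → ℤ, (x + u i) i0 = x i0 := by
    intro x
    rw [Pi.add_apply, u_ne hi.symm, add_zero]
  have hbase : ∀ x : Fin d → ℤ, x i0 ≤ w i0 - M - 1 →
      gg C i0 (x + u i) = gg C i0 x + ind C (x, i) := by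
    intro x hx
    rw [hlow x hx, hlow _ (by rw [hsi]; exact hx), zero_add]
    unfold ind
    rw [if_neg]
    intro h
    have := (hin.coord h i0).2.2 hi.symm
    simp only at this
    linarith
  have key : ∀ k : ℕ, ∀ x : Fin d → ℤ, x i0 = w i0 - M - 1 + k →
      gg C i0 (x + u i) = gg C i0 x + ind C (x, i) := by
    intro k
    induction k with
    | zero => intro x hx; exact hbase x (by rw [hx]; simp)
    | succ k ih =>
      intro x hx
      set y : Fin d → ℤ := x - u i0 with hy
      have hxy : x = y + u i0 := by rw [hy]; simp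
      have hy0 : y i0 = w i0 - M - 1 + k := by
        rw [hy, Pi.sub_apply, u_same, hx]; push_cast; ring
      have h1 := ih y hy0
      have h2 := gg_step0 C i0 (y + u i)
      have h3 := gg_step0 C i0 y
      have h4 := ind_clo hC y hi
      rw [hxy, h3, add_right_comm y (u i0) (u i), h2, h1, add_assoc, h4]
      ring
  by_cases h : x i0 ≤ w i0 - M - 1
  · exact hbase x h
  · refine key (x i0 - (w i0 - M - 1)).toNat x ?_
    rw [Int.toNat_of_nonneg (by linarith [not_le.1 h])]
    ring

lemma gg_out {C : Finset ((Fin d → ℤ) × Fin d)} (hC : Clo (C : Set ((Fin d → ℤ) × Fin d)))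
    {w : Fin d → ℤ} {M : ℕ} (hin : Inb C w M) {i0 i1 : Fin d} (h01 : i1 ≠ i0) (x : Fin d → ℤ)
    (hx : x ∉ bx w M) : gg C i0 x = 0 := by
  classical
  have ha : ∀ x : Fin d → ℤ, (∃ i, i ≠ i0 ∧ (M : ℤ) < |x i - w i|) → gg C i0 x = 0 := by
    rintro x ⟨i, hi, hxi⟩
    unfold gg
    rw [Finset.filter_false_of_mem, Finset.card_empty, Nat.cast_zero]
    rintro e he ⟨h1, -, h3⟩
    have h4 := h3 i hi
    have h5 := hin.coord he i
    have h6 := h5.2.2 (by rw [h1]; exact hi)
    have h7 : |x i - w i| ≤ M := by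
      rw [abs_le, ← h4]
      constructor <;> linarith [h5.2.1]
    linarith
  rw [mem_bx'] at hx
  push Not at hx
  obtain ⟨i, hi⟩ := hx
  by_cases hii : i = i0
  · subst hii
    rcases lt_abs.1 hi with h | h
    · -- move in the direction `i1`
      have hmove : ∀ t : ℕ, gg C i (x + (t : ℤ) • u i1) = gg C i x := by
        intro t
        induction t with
        | zero => simp
        | succ t ih =>
          have h1 := gg_stepi hC hin h01 (x + (t : ℤ) • u i1)
          have h2 : x + ((t + 1 : ℕ) : ℤ) • u i1 =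
              x + (t : ℤ) • u i1 + u i1 := by
            push_cast
            rw [add_smul, one_smul, add_assoc]
          rw [h2, h1, ih]
          unfold ind
          rw [if_neg, add_zero]
          intro hmem
          have h3 := (hin.coord hmem i).2.1
          have h4 : (x + (t : ℤ) • u i1) i = x i := by
            rw [Pi.add_apply, Pi.smul_apply, u_ne (fun h => h01 h.symm), smul_zero,
              add_zero]
          simp only at h3
          rw [h4] at h3
          linarith
      have h1 := hmove ((M : ℤ) + 1 + |x i1 - w i1|).toNat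
      rw [← h1]
      refine ha _ ⟨i1, h01, ?_⟩
      have h0 : (0 : ℤ) ≤ (M : ℤ) + 1 + |x i1 - w i1| := by positivity
      rw [Pi.add_apply, Pi.smul_apply, u_same, smul_eq_mul, mul_one,
        Int.toNat_of_nonneg h0]
      have h5 := neg_abs_le (x i1 - w i1)
      have h6 : (M : ℤ) + 1 ≤ x i1 + ((M : ℤ) + 1 + |x i1 - w i1|) - w i1 := by linarith
      exact lt_of_lt_of_le (by linarith) (le_abs_self _)
    · unfold gg
      rw [Finset.filter_false_of_mem, Finset.card_empty, Nat.cast_zero]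
      rintro e he ⟨-, h2, -⟩
      have := (hin.coord he i).1
      linarith
  · exact ha x ⟨i, hii, hi⟩

theorem cocycle (hd : 2 ≤ d) {C : Finset ((Fin d → ℤ) × Fin d)}
    (hC : Clo (C : Set ((Fin d → ℤ) × Fin d))) {w : Fin d → ℤ} {M : ℕ} (hin : Inb C w M) :
    ∃ A : Finset (Fin d → ℤ), A ⊆ bx w M ∧ dC (A : Set (Fin d → ℤ)) = C := by
  classical
  set i0 : Fin d := ⟨0, by omega⟩
  set i1 : Fin d := ⟨1, by omega⟩
  have h01 : i1 ≠ i0 := by
    intro h
    have := congrArg Fin.val h
    simp [i0, i1] at this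
  have hstep : ∀ e : (Fin d → ℤ) × Fin d, gg C i0 (nx e) = gg C i0 e.1 + ind C e := by
    intro e
    unfold nx
    by_cases h : e.2 = i0
    · have := gg_step0 C i0 e.1
      rw [← h] at this ⊢
      exact this
    · exact gg_stepi hC hin h e.1
  have hout := gg_out hC hin h01
  refine ⟨(bx w M).filter fun x => gg C i0 x = 1, Finset.filter_subset _ _, ?_⟩
  have hmem : ∀ x, x ∈ (((bx w M).filter fun x => gg C i0 x = 1 : Finset (Fin d → ℤ)) :
      Set (Fin d → ℤ)) ↔ gg C i0 x = 1 := by
    intro x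
    rw [Finset.mem_coe, Finset.mem_filter]
    constructor
    · exact fun h => h.2
    · intro h
      refine ⟨?_, h⟩
      by_contra hx
      rw [hout x hx] at h
      exact absurd h (by decide)
  ext e
  unfold dC
  rw [Set.mem_ofPred_eq, hmem, hmem, hstep, Finset.mem_coe]
  unfold ind
  by_cases he : e ∈ C
  · rw [if_pos he]
    simp only [he, iff_true]
    generalize gg C i0 e.1 = z
    revert z
    decide
  · rw [if_neg he]
    simp [he]

/-- a finite set without boundary is empty -/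
lemma eq_empty_of_dC (i0 : Fin d) {S : Set (Fin d → ℤ)} (hfin : S.Finite) (h : dC S = ∅) :
    S = ∅ := by
  classical
  by_contra hne
  obtain ⟨x, hx⟩ := Set.nonempty_iff_ne_empty.2 hne
  have hall : ∀ t : ℕ, x + (t : ℤ) • u i0 ∈ S := by
    intro t
    induction t with
    | zero => simpa using hx
    | succ t ih =>
      have h2 : x + ((t + 1 : ℕ) : ℤ) • u i0 =
          x + (t : ℤ) • u i0 + u i0 := by
        push_cast
        rw [add_smul, one_smul, add_assoc]
      rw [h2]
      have h3 : ((x + (t : ℤ) • u i0, i0) : (Fin d → ℤ) × Fin d) ∉ dC S := by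
        rw [h]; exact Set.notMem_empty _
      unfold dC nx at h3
      simp only [Set.mem_ofPred_eq, not_not] at h3
      exact h3.1 ih
  have hinf : Set.Infinite S := by
    refine Set.infinite_of_injective_forall_mem (f := fun t : ℕ => x + (t : ℤ) • u i0)
      ?_ hall
    intro s t hst
    have := congrFun hst i0
    simp only [Pi.add_apply, Pi.smul_apply, u_same, smul_eq_mul, mul_one,
      add_right_inj, Nat.cast_inj] at this
    exact this
  exact hinf hfin

lemma dC_symmDiff (S T : Set (Fin d → ℤ)) (e : (Fin d → ℤ) × Fin d) :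
    e ∈ dC (symmDiff S T) ↔ ¬ (e ∈ dC S ↔ e ∈ dC T) := by
  unfold dC
  simp only [Set.mem_ofPred_eq, Set.mem_symmDiff]
  tauto

lemma eq_of_dC (i0 : Fin d) {S T : Set (Fin d → ℤ)} (hS : S.Finite) (hT : T.Finite)
    (h : dC S = dC T) : S = T := by
  have h1 : symmDiff S T = ∅ := by
    refine eq_empty_of_dC i0 (hS.symmDiff hT) ?_
    ext e
    rw [dC_symmDiff, h]
    simp
  exact symmDiff_eq_bot.1 h1

end Pool.Agent.R239.EA
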