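import Pool.Agent.R239.EA.A

/-!
# Paths of bonds, ground states in boxes and chains of influences
-/

set_option autoImplicit false

open Finset

namespace Pool.Agent.R239.EA

variable {d : ℕ}

/-- the unit square with corner `v` in the directions `i`, `j` -/
def sq (v : Fin d → ℤ) (i j : Fin d) : Set ((Fin d → ℤ) × Fin d) :=
  {e | e = (v, i) ∨ e = (v + u i, j) ∨ e = (v, j) ∨ e = (v + u j, i)}

/-- two bonds of one unit square -/
def adj (e f : (Fin d → ℤ) × Fin d) : Prop :=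
  ∃ v i j, i ≠ j ∧ e ∈ sq v i j ∧ f ∈ sq v i j

lemma sq_coord {v : Fin d → ℤ} {i j : Fin d} {e : (Fin d → ℤ) × Fin d} (h : e ∈ sq v i j)
    (k : Fin d) : v k ≤ e.1 k ∧ e.1 k ≤ v k + 1 := by
  have hu : ∀ a : Fin d, 0 ≤ u a k ∧ u a k ≤ 1 := by
    intro a
    by_cases h : k = a
    · rw [h, u_same]; norm_num
    · rw [u_ne h]; norm_num
  have hi := hu i
  have hj := hu j
  rcases h with h | h | h | h <;> rw [h] <;> simp only [Pi.add_apply] <;> constructor <;> linarith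

lemma adj.step {e f : (Fin d → ℤ) × Fin d} (h : adj e f) : nrm (f.1 - e.1) ≤ 1 := by
  obtain ⟨v, i, j, -, he, hf⟩ := h
  rw [nrm_le]
  intro k
  have h1 := sq_coord he k
  have h2 := sq_coord hf k
  rw [Pi.sub_apply, abs_le]
  push_cast
  constructor <;> linarith [h1.1, h1.2, h2.1, h2.2]

/-- a step in `D` -/
def Rel (D : Set ((Fin d → ℤ) × Fin d)) (e f : (Fin d → ℤ) × Fin d) : Prop :=
  e ∈ D ∧ f ∈ D ∧ adj e f

/-- the component of `e` in `D` -/
def comp (D : Set ((Fin d → ℤ) × Fin d)) (e : (Fin d → ℤ) × Fin d) :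
    Set ((Fin d → ℤ) × Fin d) := {f | Relation.ReflTransGen (Rel D) e f}

lemma path_mem {D : Set ((Fin d → ℤ) × Fin d)} {e f : (Fin d → ℤ) × Fin d} (he : e ∈ D)
    (h : Relation.ReflTransGen (Rel D) e f) : f ∈ D := by
  induction h with
  | refl => exact he
  | tail _ h2 _ => exact h2.2.1

lemma comp_sub {D : Set ((Fin d → ℤ) × Fin d)} {e : (Fin d → ℤ) × Fin d} (he : e ∈ D) :
    comp D e ⊆ D := fun _ hf => path_mem he hf

lemma comp_clo {D : Set ((Fin d → ℤ) × Fin d)} (hD : Clo D) {e : (Fin d → ℤ) × Fin d}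
    (he : e ∈ D) : Clo (comp D e) ∧ Clo (D \ comp D e) := by
  have key : ∀ v i j, i ≠ j → (∀ g ∈ sq v i j, g ∈ comp D e ↔ g ∈ D) ∨
      (∀ g ∈ sq v i j, g ∉ comp D e) := by
    intro v i j hij
    by_cases h : ∃ f ∈ sq v i j, f ∈ comp D e
    · obtain ⟨f, hf, hfc⟩ := h
      left
      intro g hg
      refine ⟨fun h => comp_sub he h, fun h => ?_⟩
      exact Relation.ReflTransGen.tail hfc ⟨comp_sub he hfc, h, v, i, j, hij, hf, hg⟩
    · right
      intro g hg hgc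
      exact h ⟨g, hg, hgc⟩
  have m1 : ∀ (v : Fin d → ℤ) (i j : Fin d), (v, i) ∈ sq v i j := fun v i j => Or.inl rfl
  have m2 : ∀ (v : Fin d → ℤ) (i j : Fin d), (v + u i, j) ∈ sq v i j :=
    fun v i j => Or.inr (Or.inl rfl)
  have m3 : ∀ (v : Fin d → ℤ) (i j : Fin d), (v, j) ∈ sq v i j :=
    fun v i j => Or.inr (Or.inr (Or.inl rfl))
  have m4 : ∀ (v : Fin d → ℤ) (i j : Fin d), (v + u j, i) ∈ sq v i j :=
    fun v i j => Or.inr (Or.inr (Or.inr rfl))
  constructor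
  · intro v i j hij
    rcases key v i j hij with h | h
    · rw [h _ (m1 v i j), h _ (m2 v i j), h _ (m3 v i j), h _ (m4 v i j)]
      exact hD v i j hij
    · simp only [h _ (m1 v i j), h _ (m2 v i j), h _ (m3 v i j), h _ (m4 v i j)]
  · intro v i j hij
    have hD' := hD v i j hij
    simp only [Set.mem_sdiff]
    rcases key v i j hij with h | h
    · rw [h _ (m1 v i j), h _ (m2 v i j), h _ (m3 v i j), h _ (m4 v i j)]
      simp
    · simp only [h _ (m1 v i j), h _ (m2 v i j), h _ (m3 v i j), h _ (m4 v i j), not_false_iff,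
        and_true]
      exact hD'

/-! ### Ground states with changes in a finite set -/

/-- `σ` is a configuration of spins such that all changes in `B` increase the energy -/
def GI (B : Finset (Fin d → ℤ)) (J : (Fin d → ℤ) × Fin d → ℝ) (σ : (Fin d → ℤ) → ℝ) : Prop :=
  (∀ x, σ x = 1 ∨ σ x = -1) ∧ ∀ A : Finset (Fin d → ℤ), A.Nonempty → A ⊆ B →
    0 < ∑ᶠ e ∈ dC (A : Set (Fin d → ℤ)), J e * (σ e.1 * σ (nx e))

lemma GI.mono {B B' : Finset (Fin d → ℤ)} (h : B' ⊆ B) {J : (Fin d → ℤ) × Fin d → ℝ}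
    {σ : (Fin d → ℤ) → ℝ} (hσ : GI B J σ) : GI B' J σ :=
  ⟨hσ.1, fun A hA hAB => hσ.2 A hA (hAB.trans h)⟩

lemma prod_neg {σ τ : (Fin d → ℤ) → ℝ} (hσ : ∀ x, σ x = 1 ∨ σ x = -1)
    (hτ : ∀ x, τ x = 1 ∨ τ x = -1) {e : (Fin d → ℤ) × Fin d} (he : e ∈ dC {x | σ x ≠ τ x}) :
    τ e.1 * τ (nx e) = -(σ e.1 * σ (nx e)) := by
  unfold dC at he
  simp only [Set.mem_ofPred_eq] at he
  rcases hσ e.1 with h1 | h1 <;> rcases hσ (nx e) with h2 | h2 <;>
    rcases hτ e.1 with h3 | h3 <;> rcases hτ (nx e) with h4 | h4 <;>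
    rw [h1, h2, h3, h4] at he <;> rw [h1, h2, h3, h4] <;>
    first | (norm_num at he; done) | norm_num

lemma contra {B A : Finset (Fin d → ℤ)} {J J' : (Fin d → ℤ) × Fin d → ℝ}
    {σ τ : (Fin d → ℤ) → ℝ} (hσ : GI B J σ) (hτ : GI B J' τ) (hA : A.Nonempty) (hAB : A ⊆ B)
    (hJ : ∀ e ∈ dC (A : Set (Fin d → ℤ)), J' e = J e)
    (hsub : dC (A : Set (Fin d → ℤ)) ⊆ dC {x | σ x ≠ τ x}) : False := by
  have h1 := hσ.2 A hA hAB
  have h2 := hτ.2 A hA hAB
  have h3 : ∑ᶠ e ∈ dC (A : Set (Fin d → ℤ)), J' e * (τ e.1 * τ (nx e)) =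
      ∑ᶠ e ∈ dC (A : Set (Fin d → ℤ)), -(J e * (σ e.1 * σ (nx e))) := by
    refine finsum_mem_congr rfl fun e he => ?_
    rw [hJ e he, prod_neg hσ.1 hτ.1 (hsub he), mul_neg]
  rw [h3] at h2
  have h4 : ∑ᶠ e ∈ dC (A : Set (Fin d → ℤ)), -(J e * (σ e.1 * σ (nx e))) =
      -∑ᶠ e ∈ dC (A : Set (Fin d → ℤ)), (J e * (σ e.1 * σ (nx e))) := by
    simp only [finsum_neg_distrib]
  rw [h4] at h2
  linarith

lemma dC_empty : dC (∅ : Set (Fin d → ℤ)) = ∅ := by
  ext e; simp [dC]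

lemma dC_nonempty {A : Finset (Fin d → ℤ)} {e : (Fin d → ℤ) × Fin d}
    (h : e ∈ dC (A : Set (Fin d → ℤ))) : A.Nonempty := by
  rw [Finset.nonempty_iff_ne_empty]
  intro h0
  rw [h0, Finset.coe_empty, dC_empty] at h
  exact h

theorem reach (hd : 2 ≤ d) {J : (Fin d → ℤ) × Fin d → ℝ} {σ τ : (Fin d → ℤ) → ℝ}
    {w : Fin d → ℤ} {m : ℕ} (hσ : GI (bx w m) J σ) (hτ : GI (bx w m) J τ)
    {e : (Fin d → ℤ) × Fin d} (he : e ∈ dC {x | σ x ≠ τ x}) :
    ∃ f, Relation.ReflTransGen (Rel (dC {x | σ x ≠ τ x})) e f ∧ m < nrm (f.1 - w) := by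
  classical
  by_contra hcon
  push Not at hcon
  have hfin : (comp (dC {x | σ x ≠ τ x}) e).Finite := by
    refine ((bx w m) ×ˢ (Finset.univ : Finset (Fin d))).finite_toSet.subset fun f hf => ?_
    rw [Finset.mem_coe, Finset.mem_product]
    exact ⟨mem_bx.2 (hcon f hf), Finset.mem_univ _⟩
  have hclo := (comp_clo (clo_dC {x | σ x ≠ τ x}) he).1
  have hcoe : (hfin.toFinset : Set ((Fin d → ℤ) × Fin d)) = comp (dC {x | σ x ≠ τ x}) e :=
    hfin.coe_toFinset
  obtain ⟨A, hA, hdA⟩ := cocycle hd (C := hfin.toFinset) (by rw [hcoe]; exact hclo) (w := w)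
    (M := m) (fun f hf => Or.inl (hcon f (hfin.mem_toFinset.1 hf)))
  rw [hcoe] at hdA
  have heA : e ∈ dC (A : Set (Fin d → ℤ)) := by
    rw [hdA]; exact Relation.ReflTransGen.refl
  exact contra hσ hτ (dC_nonempty heA) hA (fun _ _ => rfl) (by rw [hdA]; exact comp_sub he)

lemma hit {D : Set ((Fin d → ℤ) × Fin d)} {w : Fin d → ℤ} {e f : (Fin d → ℤ) × Fin d} {R : ℕ}
    (h : Relation.ReflTransGen (Rel D) e f) (hf : R ≤ nrm (f.1 - w)) :
    e ∈ D → nrm (e.1 - w) ≤ R → ∃ g ∈ D, nrm (g.1 - w) = R ∧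
      Relation.ReflTransGen (Rel (D ∩ {b | nrm (b.1 - w) ≤ R})) e g := by
  induction h using Relation.ReflTransGen.head_induction_on with
  | refl => intro h1 h2; exact ⟨f, h1, le_antisymm h2 hf, Relation.ReflTransGen.refl⟩
  | @head a c hac _ ih =>
    intro h1 h2
    rcases eq_or_lt_of_le h2 with h3 | h3
    · exact ⟨a, h1, h3, Relation.ReflTransGen.refl⟩
    · have h4 := nrm_tri c.1 a.1 w
      have h5 := hac.2.2.step
      have h6 : nrm (c.1 - w) ≤ R := by omega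
      obtain ⟨g, hg, hgR, hp⟩ := ih hac.2.1 h6
      exact ⟨g, hg, hgR, Relation.ReflTransGen.head ⟨⟨hac.1, h2⟩, ⟨hac.2.1, h6⟩, hac.2.2⟩ hp⟩

lemma exit {D : Set ((Fin d → ℤ) × Fin d)} {w : Fin d → ℤ} {e f : (Fin d → ℤ) × Fin d} {s : ℕ}
    (h : Relation.ReflTransGen (Rel D) e f) (hf : s ≤ nrm (f.1 - w)) :
    (s ≤ nrm (e.1 - w) ∧
      Relation.ReflTransGen (Rel (D ∩ {b | s ≤ nrm (b.1 - w)})) e f) ∨
    ∃ g ∈ D, nrm (g.1 - w) = s ∧
      Relation.ReflTransGen (Rel (D ∩ {b | s ≤ nrm (b.1 - w)})) g f := by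
  induction h using Relation.ReflTransGen.head_induction_on with
  | refl => exact Or.inl ⟨hf, Relation.ReflTransGen.refl⟩
  | @head a c hac _ ih =>
    rcases ih with ⟨h1, h2⟩ | h
    · by_cases ha : s ≤ nrm (a.1 - w)
      · exact Or.inl ⟨ha, Relation.ReflTransGen.head ⟨⟨hac.1, ha⟩, ⟨hac.2.1, h1⟩, hac.2.2⟩ h2⟩
      · have h4 := nrm_tri c.1 a.1 w
        have h5 := hac.2.2.step
        exact Or.inr ⟨c, hac.2.1, by omega, h2⟩
    · exact Or.inr h

/-- the sphere -/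
noncomputable def sph (d : ℕ) (s : ℕ) : Finset (Fin d → ℤ) := (bx 0 s).filter fun x => nrm x = s

lemma mem_sph {s : ℕ} {x : Fin d → ℤ} : x ∈ sph d s ↔ nrm x = s := by
  unfold sph
  rw [Finset.mem_filter, mem_bx, sub_zero]
  constructor
  · exact fun h => h.2
  · exact fun h => ⟨h.le, h⟩

lemma card_sph {s : ℕ} (hs : 1 ≤ s) : (sph d s).card = (2 * s + 1) ^ d - (2 * s - 1) ^ d := by
  have h1 : sph d s = bx 0 s \ bx 0 (s - 1) := by
    ext x
    rw [mem_sph, Finset.mem_sdiff, mem_bx, mem_bx, sub_zero]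
    omega
  have h2 : bx (0 : Fin d → ℤ) (s - 1) ⊆ bx 0 s := by
    intro x hx
    rw [mem_bx] at hx ⊢
    omega
  rw [h1, Finset.card_sdiff_of_subset h2, card_bx, card_bx]
  congr 2
  omega

/-- the chains of `K + 1` sites starting at `w` with steps of length `s` -/
noncomputable def chains (s : ℕ) : ℕ → (Fin d → ℤ) → Finset (List (Fin d → ℤ))
  | 0, w => {[w]}
  | K + 1, w => (sph d s).biUnion fun x => (chains s K (w + x)).image fun l => w :: l

lemma card_chains (s K : ℕ) (w : Fin d → ℤ) : (chains s K w).card ≤ (sph d s).card ^ K := by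
  induction K generalizing w with
  | zero => simp [chains]
  | succ K ih =>
    unfold chains
    refine Finset.card_biUnion_le.trans ?_
    calc ∑ x ∈ sph d s, ((chains s K (w + x)).image fun l => w :: l).card
        ≤ ∑ x ∈ sph d s, (sph d s).card ^ K :=
          Finset.sum_le_sum fun x _ => Finset.card_image_le.trans (ih (w + x))
      _ = (sph d s).card ^ (K + 1) := by rw [Finset.sum_const, smul_eq_mul, pow_succ, mul_comm]

lemma length_chains {s K : ℕ} {w : Fin d → ℤ} {l : List (Fin d → ℤ)} (h : l ∈ chains s K w) :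
    l.length = K + 1 := by
  induction K generalizing w l with
  | zero => simp only [chains, Finset.mem_singleton] at h; simp [h]
  | succ K ih =>
    unfold chains at h
    simp only [Finset.mem_biUnion, Finset.mem_image] at h
    obtain ⟨x, -, l', hl', rfl⟩ := h
    simp [ih hl']

theorem chain_exists {s : ℕ} (hs : 1 ≤ s) (K : ℕ) : ∀ (D : Set ((Fin d → ℤ) × Fin d))
    (e f : (Fin d → ℤ) × Fin d), e ∈ D → Relation.ReflTransGen (Rel D) e f →
    K * s ≤ nrm (f.1 - e.1) → ∃ l ∈ chains s K e.1,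
      l.Pairwise (fun x y => s ≤ nrm (y - x)) ∧ ∀ x ∈ l, ∃ i, (x, i) ∈ D := by
  induction K with
  | zero =>
    intro D e f he _ _
    refine ⟨[e.1], by simp [chains], by simp, ?_⟩
    intro x hx
    rw [List.mem_singleton] at hx
    exact ⟨e.2, by rw [hx]; exact he⟩
  | succ K ih =>
    intro D e f he hp hK
    have hs' : s ≤ nrm (f.1 - e.1) := by
      refine le_trans ?_ hK
      nlinarith
    rcases exit hp hs' with ⟨h1, -⟩ | ⟨g, hg, hgs, hpg⟩
    · rw [sub_self, nrm_zero] at h1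
      omega
    · have h2 : K * s ≤ nrm (f.1 - g.1) := by
        have h3 := nrm_tri f.1 g.1 e.1
        have h4 : (K + 1) * s = K * s + s := by ring
        omega
      obtain ⟨l, hl, hpw, hD⟩ := ih (D ∩ {b | s ≤ nrm (b.1 - e.1)}) g f ⟨hg, hgs.ge⟩ hpg h2
      refine ⟨e.1 :: l, ?_, ?_, ?_⟩
      · unfold chains
        simp only [Finset.mem_biUnion, Finset.mem_image]
        refine ⟨g.1 - e.1, mem_sph.2 hgs, l, ?_, rfl⟩
        rw [add_sub_cancel]
        exact hl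
      · rw [List.pairwise_cons]
        refine ⟨fun x hx => ?_, hpw⟩
        obtain ⟨i, hi⟩ := hD x hx
        exact hi.2
      · intro x hx
        rcases List.mem_cons.1 hx with h | h
        · exact ⟨e.2, by rw [h]; exact he⟩
        · obtain ⟨i, hi⟩ := hD x h
          exact ⟨i, hi.1⟩

/-- the ground states in the box of radius `n` around `w` differ on some bond at `w` -/
def Inf (J : (Fin d → ℤ) × Fin d → ℝ) (w : Fin d → ℤ) (n : ℕ) : Prop :=
  ∃ σ τ, GI (bx w n) J σ ∧ GI (bx w n) J τ ∧ ∃ i, (w, i) ∈ dC {x | σ x ≠ τ x}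

lemma bx_sub {w w' : Fin d → ℤ} {n m : ℕ} (h : nrm (w' - w) + n ≤ m) : bx w' n ⊆ bx w m := by
  intro x hx
  rw [mem_bx] at hx ⊢
  have := nrm_tri x w' w
  omega

theorem inf_chain (hd : 2 ≤ d) {J : (Fin d → ℤ) × Fin d → ℝ} {m n : ℕ} (hnm : n ≤ m)
    (h : Inf J 0 m) : ∃ l ∈ chains (2 * n + 2) ((m - n) / (2 * n + 2)) (0 : Fin d → ℤ),
      l.Pairwise (fun x y => 2 * n + 2 ≤ nrm (y - x)) ∧ ∀ x ∈ l, Inf J x n := by
  obtain ⟨σ, τ, hσ, hτ, i, hi⟩ := h
  obtain ⟨f, hf, hfm⟩ := reach hd hσ hτ hi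
  obtain ⟨g, hg, hgR, hp⟩ := hit (w := 0) (R := m - n) hf (by omega) hi
    (by rw [sub_self, nrm_zero]; omega)
  have hi' : ((0, i) : (Fin d → ℤ) × Fin d) ∈
      dC {x | σ x ≠ τ x} ∩ {b : (Fin d → ℤ) × Fin d | nrm (b.1 - 0) ≤ m - n} := by
    refine ⟨hi, ?_⟩
    simp only [Set.mem_ofPred_eq]
    rw [sub_self, nrm_zero]
    omega
  obtain ⟨l, hl, hpw, hD⟩ := chain_exists (s := 2 * n + 2) (by omega) ((m - n) / (2 * n + 2)) _
    (0, i) g hi' hp (by simp only; rw [hgR]; exact Nat.div_mul_le_self _ _)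
  refine ⟨l, hl, hpw, fun x hx => ?_⟩
  obtain ⟨j, hj1, hj2⟩ := hD x hx
  simp only [Set.mem_ofPred_eq] at hj2
  have hsub : bx x n ⊆ bx 0 m := bx_sub (by omega)
  exact ⟨σ, τ, hσ.mono hsub, hτ.mono hsub, j, hj1⟩

/-- an end of each bond of the boundary of `S` is in `S` -/
lemma dC_end {S : Set (Fin d → ℤ)} {e : (Fin d → ℤ) × Fin d} (h : e ∈ dC S) :
    e.1 ∈ S ∨ nx e ∈ S := by
  unfold dC at h
  simp only [Set.mem_ofPred_eq] at h
  tauto

lemma dC_finite {S : Set (Fin d → ℤ)} (hS : S.Finite) : (dC S).Finite := by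
  classical
  refine (((hS.toFinset ×ˢ (Finset.univ : Finset (Fin d))) ∪
    ((hS.toFinset ×ˢ (Finset.univ : Finset (Fin d))).image
      fun e => (e.1 - u e.2, e.2))).finite_toSet).subset fun e he => ?_
  rw [Finset.mem_coe, Finset.mem_union, Finset.mem_product, Finset.mem_image]
  rcases dC_end he with h | h
  · left
    exact ⟨hS.mem_toFinset.2 h, Finset.mem_univ _⟩
  · right
    refine ⟨(nx e, e.2), ?_, ?_⟩
    · rw [Finset.mem_product]
      exact ⟨hS.mem_toFinset.2 h, Finset.mem_univ _⟩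
    · unfold nx
      simp

theorem droplet (hd : 2 ≤ d) {J J' : (Fin d → ℤ) × Fin d → ℝ} {σ τ : (Fin d → ℤ) → ℝ}
    {M n : ℕ} {e : (Fin d → ℤ) × Fin d} (hσ : GI (bx 0 M) J σ) (hτ : GI (bx 0 M) J' τ)
    (hJ : ∀ f, f ≠ e → J' f = J f) (hout : ∀ x, x ∉ bx 0 M → σ x = τ x) (h0 : σ 0 ≠ τ 0)
    (he : n + 2 < nrm e.1) (hM : nrm e.1 + 2 * n + 2 ≤ M) :
    ∃ v, nrm (v - e.1) = n + 2 ∧ Inf J v n := by
  classical
  set i0 : Fin d := ⟨0, by omega⟩
  set S : Set (Fin d → ℤ) := {x | σ x ≠ τ x} with hS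
  have hSsub : S ⊆ (bx 0 M : Finset (Fin d → ℤ)) := by
    intro x hx
    by_contra hc
    exact hx (hout x hc)
  have hSfin : S.Finite := (bx (0 : Fin d → ℤ) M).finite_toSet.subset hSsub
  have h0S : (0 : Fin d → ℤ) ∈ S := h0
  have hDfin : (dC S).Finite := dC_finite hSfin
  -- the bond `e` belongs to the boundary
  have heD : e ∈ dC S := by
    by_contra hc
    refine contra (A := hSfin.toFinset) hσ hτ ⟨0, hSfin.mem_toFinset.2 h0S⟩ ?_ ?_ ?_
    · intro x hx
      exact Finset.mem_coe.1 (hSsub (hSfin.mem_toFinset.1 hx))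
    · rw [hSfin.coe_toFinset]
      intro f hf
      exact hJ f (fun h => hc (h ▸ hf))
    · rw [hSfin.coe_toFinset]
  -- the boundary is connected
  have hconn : dC S ⊆ comp (dC S) e := by
    have hfin' : (dC S \ comp (dC S) e).Finite := hDfin.subset Set.sdiff_subset
    have hcoe : (hfin'.toFinset : Set ((Fin d → ℤ) × Fin d)) = dC S \ comp (dC S) e :=
      hfin'.coe_toFinset
    obtain ⟨A, hA, hdA⟩ := cocycle hd (C := hfin'.toFinset)
      (by rw [hcoe]; exact (comp_clo (clo_dC S) heD).2) (w := 0) (M := M)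
      (fun f hf => by
        have hf' := (hfin'.mem_toFinset.1 hf).1
        rcases dC_end hf' with h | h
        · exact Or.inl (mem_bx.1 (Finset.mem_coe.1 (hSsub h)))
        · exact Or.inr (mem_bx.1 (Finset.mem_coe.1 (hSsub h))))
    rw [hcoe] at hdA
    rcases A.eq_empty_or_nonempty with hAe | hAn
    · rw [hAe, Finset.coe_empty, dC_empty] at hdA
      intro f hf
      by_contra hfc
      have : f ∈ dC S \ comp (dC S) e := ⟨hf, hfc⟩
      rw [← hdA] at this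
      exact this
    · exfalso
      refine contra hσ hτ hAn hA ?_ ?_
      · rw [hdA]
        intro f hf
        refine hJ f (fun h => hf.2 ?_)
        rw [h]
        exact Relation.ReflTransGen.refl
      · rw [hdA]
        exact Set.sdiff_subset
  -- it reaches far
  have hfar : ∃ f ∈ dC S, n + 2 < nrm (f.1 - e.1) := by
    by_contra hcon
    push Not at hcon
    have hcoe : (hDfin.toFinset : Set ((Fin d → ℤ) × Fin d)) = dC S := hDfin.coe_toFinset
    obtain ⟨A, hA, hdA⟩ := cocycle hd (C := hDfin.toFinset)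
      (by rw [hcoe]; exact clo_dC S) (w := e.1) (M := n + 2)
      (fun f hf => Or.inl (hcon f (hDfin.mem_toFinset.1 hf)))
    rw [hcoe] at hdA
    have hAS := eq_of_dC i0 A.finite_toSet hSfin hdA
    have h1 : (0 : Fin d → ℤ) ∈ A := by
      rw [← Finset.mem_coe, hAS]; exact h0S
    have h2 := mem_bx.1 (hA h1)
    rw [nrm_sub_comm, sub_zero] at h2
    omega
  obtain ⟨f, hf, hfn⟩ := hfar
  obtain ⟨g, hg, hgR, -⟩ := hit (w := e.1) (R := n + 2) (hconn hf) hfn.le heD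
    (by rw [sub_self, nrm_zero]; omega)
  have hsub : bx g.1 n ⊆ bx 0 M := by
    apply bx_sub
    have := nrm_tri g.1 e.1 0
    rw [sub_zero, sub_zero] at *
    omega
  refine ⟨g.1, hgR, σ, τ, hσ.mono hsub, ⟨hτ.1, fun A hA hAB => ?_⟩, g.2, hg⟩
  have h1 := (hτ.mono hsub).2 A hA hAB
  have h2 : ∑ᶠ e ∈ dC (A : Set (Fin d → ℤ)), J' e * (τ e.1 * τ (nx e)) =
      ∑ᶠ e ∈ dC (A : Set (Fin d → ℤ)), J e * (τ e.1 * τ (nx e)) := by
    refine finsum_mem_congr rfl fun f hf => ?_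
    rw [hJ f]
    intro hfe
    subst hfe
    rcases dC_end hf with h | h
    · have h3 := mem_bx.1 (hAB (Finset.mem_coe.1 h))
      rw [nrm_sub_comm] at h3
      omega
    · have h3 := mem_bx.1 (hAB (Finset.mem_coe.1 h))
      have h4 := nrm_tri g.1 (nx f) f.1
      have h5 := nrm_nx f
      rw [nrm_sub_comm] at h3
      omega
  rw [h2] at h1
  exact h1

end Pool.Agent.R239.EA
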