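import Pool.Agent.R239.EA.B
import Pool.Agent.TH761.EB.Gen

/-!
# Events of influence: finite dependence, measurability, translation, independence
-/

set_option autoImplicit false

open Finset MeasureTheory ProbabilityTheory

namespace Pool.Agent.R239.EA

variable {d : ℕ}

open Classical in
/-- the bonds touching the box -/
noncomputable def tb (w : Fin d → ℤ) (n : ℕ) : Finset ((Fin d → ℤ) × Fin d) :=
  ((bx w (n + 1)) ×ˢ (Finset.univ : Finset (Fin d))).filter
    fun e => e.1 ∈ bx w n ∨ nx e ∈ bx w n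

lemma mem_tb {w : Fin d → ℤ} {n : ℕ} {e : (Fin d → ℤ) × Fin d} :
    e ∈ tb w n ↔ e.1 ∈ bx w n ∨ nx e ∈ bx w n := by
  unfold tb
  rw [Finset.mem_filter, Finset.mem_product]
  constructor
  · exact fun h => h.2
  · intro h
    refine ⟨⟨?_, Finset.mem_univ _⟩, h⟩
    rcases h with h | h
    · rw [mem_bx] at h ⊢; omega
    · rw [mem_bx] at h ⊢
      have h1 := nrm_tri e.1 (nx e) w
      have h2 := nrm_nx e
      rw [nrm_sub_comm] at h2
      omega

lemma tb_ends {w : Fin d → ℤ} {n : ℕ} {e : (Fin d → ℤ) × Fin d} (h : e ∈ tb w n) :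
    e.1 ∈ bx w (n + 1) ∧ nx e ∈ bx w (n + 1) := by
  rw [mem_tb, mem_bx, mem_bx] at h
  rw [mem_bx, mem_bx]
  have h1 := nrm_tri e.1 (nx e) w
  have h2 := nrm_nx e
  have h3 := nrm_tri (nx e) e.1 w
  have h4 := h2
  rw [nrm_sub_comm] at h4
  omega

lemma dC_sub_tb {w : Fin d → ℤ} {n : ℕ} {A : Finset (Fin d → ℤ)} (hA : A ⊆ bx w n)
    {e : (Fin d → ℤ) × Fin d} (he : e ∈ dC (A : Set (Fin d → ℤ))) : e ∈ tb w n := by
  rw [mem_tb]
  rcases dC_end he with h | h
  · exact Or.inl (hA (Finset.mem_coe.1 h))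
  · exact Or.inr (hA (Finset.mem_coe.1 h))

lemma tb_disj {w w' : Fin d → ℤ} {n : ℕ} (h : 2 * n + 2 ≤ nrm (w' - w)) :
    Disjoint (tb w n) (tb w' n) := by
  rw [Finset.disjoint_left]
  intro e h1 h2
  rw [mem_tb, mem_bx, mem_bx] at h1 h2
  have hs := nrm_nx e
  have hs' := hs
  rw [nrm_sub_comm] at hs'
  have t1 := nrm_tri w' e.1 w
  have t2 := nrm_tri w' (nx e) w
  have t3 := nrm_tri w' (nx e) e.1
  have t4 := nrm_tri w' e.1 (nx e)
  rw [nrm_sub_comm w' e.1] at *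
  rw [nrm_sub_comm w' (nx e)] at *
  omega

lemma GI_congr {w : Fin d → ℤ} {n : ℕ} {J J' : (Fin d → ℤ) × Fin d → ℝ}
    {σ σ' : (Fin d → ℤ) → ℝ} (hJ : ∀ e ∈ tb w n, J e = J' e)
    (hσσ : ∀ x ∈ bx w (n + 1), σ x = σ' x) (hσ' : ∀ x, σ' x = 1 ∨ σ' x = -1)
    (h : GI (bx w n) J σ) : GI (bx w n) J' σ' := by
  refine ⟨hσ', fun A hA hAB => ?_⟩
  have h1 := h.2 A hA hAB
  have h2 : ∑ᶠ e ∈ dC (A : Set (Fin d → ℤ)), J e * (σ e.1 * σ (nx e)) =
      ∑ᶠ e ∈ dC (A : Set (Fin d → ℤ)), J' e * (σ' e.1 * σ' (nx e)) := by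
    refine finsum_mem_congr rfl fun e he => ?_
    have h3 := dC_sub_tb hAB he
    rw [hJ e h3, hσσ _ (tb_ends h3).1, hσσ _ (tb_ends h3).2]
  rw [h2] at h1
  exact h1

open Classical in
/-- the configuration with value `-1` on `P` -/
noncomputable def spin (P : Finset (Fin d → ℤ)) (x : Fin d → ℤ) : ℝ := if x ∈ P then -1 else 1

lemma spin_pm (P : Finset (Fin d → ℤ)) (x : Fin d → ℤ) : spin P x = 1 ∨ spin P x = -1 := by
  unfold spin; split_ifs <;> simp

lemma inf_iff {w : Fin d → ℤ} {n : ℕ} {J : (Fin d → ℤ) × Fin d → ℝ} :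
    Inf J w n ↔ ∃ P ∈ (bx w (n + 1)).powerset, ∃ Q ∈ (bx w (n + 1)).powerset,
      GI (bx w n) J (spin P) ∧ GI (bx w n) J (spin Q) ∧
        ∃ i, (w, i) ∈ dC {x | spin P x ≠ spin Q x} := by
  classical
  constructor
  · rintro ⟨σ, τ, hσ, hτ, i, hi⟩
    have key : ∀ σ : (Fin d → ℤ) → ℝ, GI (bx w n) J σ → ∃ P ∈ (bx w (n + 1)).powerset,
        GI (bx w n) J (spin P) ∧ ∀ x ∈ bx w (n + 1), σ x = spin P x := by
      intro σ hσ
      have h1 : ∀ x ∈ bx w (n + 1), σ x = spin ((bx w (n + 1)).filter fun x => σ x = -1) x := by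
        intro x hx
        unfold spin
        by_cases h : σ x = -1
        · rw [if_pos (Finset.mem_filter.2 ⟨hx, h⟩), h]
        · have hn : x ∉ (bx w (n + 1)).filter fun x => σ x = -1 :=
            fun h' => h (Finset.mem_filter.1 h').2
          rw [if_neg hn]
          rcases hσ.1 x with h' | h'
          · exact h'
          · exact absurd h' h
      exact ⟨_, Finset.mem_powerset.2 (Finset.filter_subset _ _),
        GI_congr (fun _ _ => rfl) h1 (spin_pm _) hσ, h1⟩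
    obtain ⟨P, hP, hP1, hP2⟩ := key σ hσ
    obtain ⟨Q, hQ, hQ1, hQ2⟩ := key τ hτ
    refine ⟨P, hP, Q, hQ, hP1, hQ1, i, ?_⟩
    have hw : ((w, i) : (Fin d → ℤ) × Fin d) ∈ tb w n := by
      rw [mem_tb]; left; rw [mem_bx, sub_self, nrm_zero]; omega
    have h1 := tb_ends hw
    unfold dC at hi ⊢
    simp only [Set.mem_ofPred_eq] at hi ⊢
    rw [← hP2 _ h1.1, ← hQ2 _ h1.1, ← hP2 _ h1.2, ← hQ2 _ h1.2]
    exact hi
  · rintro ⟨P, -, Q, -, h1, h2, h3⟩
    exact ⟨_, _, h1, h2, h3⟩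

lemma inf_congr {w : Fin d → ℤ} {n : ℕ} {J J' : (Fin d → ℤ) × Fin d → ℝ}
    (hJ : ∀ e ∈ tb w n, J e = J' e) (h : Inf J w n) : Inf J' w n := by
  obtain ⟨σ, τ, hσ, hτ, hi⟩ := h
  exact ⟨σ, τ, GI_congr hJ (fun _ _ => rfl) hσ.1 hσ, GI_congr hJ (fun _ _ => rfl) hτ.1 hτ, hi⟩

lemma GI_meas (B : Finset (Fin d → ℤ)) (σ : (Fin d → ℤ) → ℝ) :
    MeasurableSet {J : (Fin d → ℤ) × Fin d → ℝ | GI B J σ} := by
  classical
  unfold GI
  rw [Set.ofPred_and]
  refine MeasurableSet.inter (MeasurableSet.const _) ?_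
  have h1 : {J : (Fin d → ℤ) × Fin d → ℝ | ∀ A : Finset (Fin d → ℤ), A.Nonempty → A ⊆ B →
      0 < ∑ᶠ e ∈ dC (A : Set (Fin d → ℤ)), J e * (σ e.1 * σ (nx e))} =
      ⋂ A : Finset (Fin d → ℤ), {J | A.Nonempty → A ⊆ B →
        0 < ∑ᶠ e ∈ dC (A : Set (Fin d → ℤ)), J e * (σ e.1 * σ (nx e))} := by
    ext J; simp
  rw [h1]
  refine MeasurableSet.iInter fun A => ?_
  by_cases hA : A.Nonempty
  · by_cases hB : A ⊆ B
    · simp only [hA, hB, forall_true_left]
      simp only [finsum_mem_eq_finite_toFinset_sum _ (dC_finite A.finite_toSet)]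
      refine measurableSet_lt measurable_const ?_
      refine Finset.measurable_sum _ fun e _ => ?_
      fun_prop
    · simp [hB]
  · simp [hA]

lemma inf_meas (w : Fin d → ℤ) (n : ℕ) :
    MeasurableSet {J : (Fin d → ℤ) × Fin d → ℝ | Inf J w n} := by
  classical
  have h1 : {J : (Fin d → ℤ) × Fin d → ℝ | Inf J w n} =
      ⋃ P ∈ (bx w (n + 1)).powerset, ⋃ Q ∈ (bx w (n + 1)).powerset,
        ({J | GI (bx w n) J (spin P)} ∩ {J | GI (bx w n) J (spin Q)} ∩
          {_J | ∃ i, (w, i) ∈ dC {x | spin P x ≠ spin Q x}}) := by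
    ext J
    simp only [Set.mem_ofPred_eq, Set.mem_iUnion, Set.mem_inter_iff]
    rw [inf_iff]
    constructor
    · rintro ⟨P, hP, Q, hQ, a, b, c⟩; exact ⟨P, hP, Q, hQ, ⟨a, b⟩, c⟩
    · rintro ⟨P, hP, Q, hQ, ⟨a, b⟩, c⟩; exact ⟨P, hP, Q, hQ, a, b, c⟩
  rw [h1]
  refine Finset.measurableSet_biUnion _ fun P _ => Finset.measurableSet_biUnion _ fun Q _ => ?_
  exact ((GI_meas _ _).inter (GI_meas _ _)).inter (MeasurableSet.const _)

/-! ### Translation -/

/-- translated couplings -/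
def shw (w : Fin d → ℤ) (J : (Fin d → ℤ) × Fin d → ℝ) : (Fin d → ℤ) × Fin d → ℝ :=
  fun e => J (e.1 + w, e.2)

lemma nx_shift (w : Fin d → ℤ) (e : (Fin d → ℤ) × Fin d) :
    nx ((e.1 + w, e.2) : (Fin d → ℤ) × Fin d) = nx e + w := by
  unfold nx
  simp only
  rw [add_right_comm]

lemma GI_shift {w : Fin d → ℤ} {n : ℕ} {J : (Fin d → ℤ) × Fin d → ℝ}
    {σ : (Fin d → ℤ) → ℝ} (h : GI (bx w n) J σ) :
    GI (bx 0 n) (shw w J) (fun x => σ (x + w)) := by
  classical
  refine ⟨fun x => h.1 _, fun A hA hAB => ?_⟩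
  have hAB' : A.image (fun x => x + w) ⊆ bx w n := by
    intro x hx
    rw [Finset.mem_image] at hx
    obtain ⟨y, hy, rfl⟩ := hx
    have := mem_bx.1 (hAB hy)
    rw [sub_zero] at this
    rw [mem_bx, add_sub_cancel_right]
    exact this
  have h1 := h.2 (A.image fun x => x + w) (hA.image _) hAB'
  have hmem : ∀ x, x + w ∈ A.image (fun x => x + w) ↔ x ∈ A := by
    intro x
    rw [Finset.mem_image]
    constructor
    · rintro ⟨y, hy, hyx⟩
      rw [add_left_inj] at hyx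
      rw [← hyx]; exact hy
    · intro hx; exact ⟨x, hx, rfl⟩
  have h2 : ∑ᶠ e ∈ dC (A : Set (Fin d → ℤ)), shw w J e * (σ (e.1 + w) * σ (nx e + w)) =
      ∑ᶠ e ∈ dC ((A.image fun x => x + w : Finset (Fin d → ℤ)) : Set (Fin d → ℤ)),
        J e * (σ e.1 * σ (nx e)) := by
    refine finsum_mem_eq_of_bijOn (fun e => (e.1 + w, e.2)) ⟨?_, ?_, ?_⟩ ?_
    · intro e he
      unfold dC at he ⊢
      simp only [Set.mem_ofPred_eq, Finset.mem_coe] at he ⊢
      rw [hmem, nx_shift, hmem]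
      exact he
    · intro e _ f _ hef
      simp only [Prod.mk.injEq, add_left_inj] at hef
      exact Prod.ext hef.1 hef.2
    · intro e he
      refine ⟨(e.1 - w, e.2), ?_, by simp⟩
      unfold dC at he ⊢
      simp only [Set.mem_ofPred_eq, Finset.mem_coe] at he ⊢
      have h3 : nx e = nx ((e.1 - w, e.2) : (Fin d → ℤ) × Fin d) + w := by
        rw [← nx_shift]; simp
      rw [h3, hmem] at he
      have h4 : e.1 ∈ A.image (fun x => x + w) ↔ e.1 - w ∈ A := by
        rw [← hmem (e.1 - w), sub_add_cancel]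
      rw [h4] at he
      exact he
    · intro e _
      unfold shw
      simp only
      rw [nx_shift]
  simp only at h2 ⊢
  rw [h2]
  exact h1

lemma inf_shift {w : Fin d → ℤ} {n : ℕ} {J : (Fin d → ℤ) × Fin d → ℝ} (h : Inf J w n) :
    Inf (shw w J) 0 n := by
  obtain ⟨σ, τ, hσ, hτ, i, hi⟩ := h
  refine ⟨_, _, GI_shift hσ, GI_shift hτ, i, ?_⟩
  unfold dC nx at hi ⊢
  simp only [Set.mem_ofPred_eq, zero_add] at hi ⊢
  rw [add_comm (u i) w]
  exact hi

variable (μ : Measure ℝ) [IsProbabilityMeasure μ]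

/-- the law of the couplings -/
noncomputable def Lw (d : ℕ) : Measure ((Fin d → ℤ) × Fin d → ℝ) :=
  Measure.infinitePi fun _ : (Fin d → ℤ) × Fin d => μ

instance : IsProbabilityMeasure (Lw μ d) := by unfold Lw; infer_instance

lemma shw_law (w : Fin d → ℤ) : MeasurePreserving (shw w) (Lw μ d) (Lw μ d) := by
  refine ⟨by unfold shw; fun_prop, ?_⟩
  unfold Lw shw
  have hinj : Function.Injective (fun e : (Fin d → ℤ) × Fin d =>
      ((e.1 + w, e.2) : (Fin d → ℤ) × Fin d)) := by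
    intro e e' h
    simp only [Prod.mk.injEq, add_left_inj] at h
    exact Prod.ext h.1 h.2
  exact Measure.map_infinitePi_infinitePi_of_inj (P := fun _ => μ) hinj

lemma inf_le (w : Fin d → ℤ) (n : ℕ) :
    Lw μ d {J | Inf J w n} ≤ Lw μ d {J | Inf J 0 n} := by
  rw [← (shw_law μ w).measure_preimage (inf_meas 0 n).nullMeasurableSet]
  exact measure_mono fun J hJ => inf_shift hJ

/-! ### Independence -/

open Classical in
/-- extension by zero -/
noncomputable def ext0 (S : Finset ((Fin d → ℤ) × Fin d)) (y : S → ℝ) :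
    (Fin d → ℤ) × Fin d → ℝ := fun e => if h : e ∈ S then y ⟨e, h⟩ else 0

lemma ext0_meas (S : Finset ((Fin d → ℤ) × Fin d)) : Measurable (ext0 S) := by
  classical
  refine measurable_pi_lambda _ fun e => ?_
  unfold ext0
  by_cases h : e ∈ S
  · simp only [h, dif_pos]; fun_prop
  · simp only [h, dif_neg, not_false_iff]; fun_prop

/-- the event depends only on the couplings in `S` -/
def Dep (A : Set ((Fin d → ℤ) × Fin d → ℝ)) (S : Finset ((Fin d → ℤ) × Fin d)) : Prop :=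
  ∀ J J' : (Fin d → ℤ) × Fin d → ℝ, (∀ e ∈ S, J e = J' e) → J ∈ A → J' ∈ A

lemma Dep.pre {A : Set ((Fin d → ℤ) × Fin d → ℝ)} {S : Finset ((Fin d → ℤ) × Fin d)}
    (h : Dep A S) : A = (fun (J : (Fin d → ℤ) × Fin d → ℝ) (e : S) => J e) ⁻¹' (ext0 S ⁻¹' A) := by
  ext J
  rw [Set.mem_preimage, Set.mem_preimage]
  constructor
  · refine h _ _ fun e he => ?_
    unfold ext0; rw [dif_pos he]
  · refine h _ _ fun e he => ?_
    unfold ext0; rw [dif_pos he]

lemma indep_events {A B : Set ((Fin d → ℤ) × Fin d → ℝ)} {S T : Finset ((Fin d → ℤ) × Fin d)}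
    (hST : Disjoint S T) (hA : MeasurableSet A) (hB : MeasurableSet B) (hAS : Dep A S)
    (hBT : Dep B T) : Lw μ d (A ∩ B) = Lw μ d A * Lw μ d B := by
  have h0 : iIndepFun (fun (e : (Fin d → ℤ) × Fin d) (J : (Fin d → ℤ) × Fin d → ℝ) => J e)
      (Lw μ d) := by
    unfold Lw
    exact iIndepFun_infinitePi (P := fun _ => μ) (X := fun _ (x : ℝ) => x) (fun e => by fun_prop)
  have h1 := h0.indepFun_finset S T hST (fun e => by fun_prop)
  have h2 := h1.measure_inter_preimage_eq_mul (ext0 S ⁻¹' A) (ext0 T ⁻¹' B)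
    (ext0_meas S hA) (ext0_meas T hB)
  rw [← hAS.pre, ← hBT.pre] at h2
  exact h2

lemma list_le (n : ℕ) (l : List (Fin d → ℤ))
    (hl : l.Pairwise (fun x y => 2 * n + 2 ≤ nrm (y - x))) :
    Lw μ d {J | ∀ x ∈ l, Inf J x n} ≤ (Lw μ d {J | Inf J 0 n}) ^ l.length := by
  classical
  induction l with
  | nil => simp
  | cons w l ih =>
    rw [List.pairwise_cons] at hl
    have h1 : {J : (Fin d → ℤ) × Fin d → ℝ | ∀ x ∈ w :: l, Inf J x n} =
        {J | Inf J w n} ∩ {J | ∀ x ∈ l, Inf J x n} := by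
      ext J; simp
    have hm : MeasurableSet {J : (Fin d → ℤ) × Fin d → ℝ | ∀ x ∈ l, Inf J x n} := by
      have : {J : (Fin d → ℤ) × Fin d → ℝ | ∀ x ∈ l, Inf J x n} =
          ⋂ x : {x // x ∈ l}, {J | Inf J x n} := by
        ext J; simp
      rw [this]
      exact MeasurableSet.iInter fun x => inf_meas _ _
    rw [h1, indep_events μ (S := tb w n) (T := l.toFinset.biUnion fun x => tb x n) ?_
      (inf_meas w n) hm ?_ ?_, List.length_cons, pow_succ, mul_comm]
    · exact mul_le_mul' (ih hl.2) (inf_le μ w n)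
    · rw [Finset.disjoint_biUnion_right]
      intro x hx
      exact tb_disj (hl.1 x (List.mem_toFinset.1 hx))
    · intro J J' hJ h
      exact inf_congr hJ h
    · intro J J' hJ h x hx
      exact inf_congr (fun e he => hJ e (Finset.mem_biUnion.2 ⟨x, List.mem_toFinset.2 hx, he⟩))
        (h x hx)

theorem decay (hd : 2 ≤ d) {m n : ℕ} (hnm : n ≤ m) :
    Lw μ d {J | Inf J 0 m} ≤ ((sph d (2 * n + 2)).card : ENNReal) ^ ((m - n) / (2 * n + 2)) *
      (Lw μ d {J | Inf J 0 n}) ^ ((m - n) / (2 * n + 2) + 1) := by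
  classical
  set K := (m - n) / (2 * n + 2) with hK
  have h1 : {J : (Fin d → ℤ) × Fin d → ℝ | Inf J 0 m} ⊆
      ⋃ l ∈ (chains (2 * n + 2) K (0 : Fin d → ℤ)).filter
        (fun l => l.Pairwise (fun x y => 2 * n + 2 ≤ nrm (y - x))),
        {J | ∀ x ∈ l, Inf J x n} := by
    intro J hJ
    obtain ⟨l, hl, hpw, hx⟩ := inf_chain hd hnm hJ
    simp only [Set.mem_iUnion]
    exact ⟨l, Finset.mem_filter.2 ⟨hl, hpw⟩, hx⟩
  refine (measure_mono h1).trans ((measure_biUnion_finset_le _ _).trans ?_)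
  calc ∑ l ∈ (chains (2 * n + 2) K (0 : Fin d → ℤ)).filter
        (fun l => l.Pairwise (fun x y => 2 * n + 2 ≤ nrm (y - x))),
        Lw μ d {J | ∀ x ∈ l, Inf J x n}
      ≤ ∑ l ∈ (chains (2 * n + 2) K (0 : Fin d → ℤ)).filter
        (fun l => l.Pairwise (fun x y => 2 * n + 2 ≤ nrm (y - x))),
        (Lw μ d {J | Inf J 0 n}) ^ (K + 1) := by
        refine Finset.sum_le_sum fun l hl => ?_
        rw [Finset.mem_filter] at hl
        have := list_le μ n l hl.2
        rw [length_chains hl.1] at this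
        exact this
    _ = (((chains (2 * n + 2) K (0 : Fin d → ℤ)).filter
        (fun l => l.Pairwise (fun x y => 2 * n + 2 ≤ nrm (y - x)))).card : ENNReal) *
        (Lw μ d {J | Inf J 0 n}) ^ (K + 1) := by rw [Finset.sum_const, nsmul_eq_mul]
    _ ≤ ((sph d (2 * n + 2)).card : ENNReal) ^ K * (Lw μ d {J | Inf J 0 n}) ^ (K + 1) := by
        refine mul_le_mul' ?_ le_rfl
        have h2 := (Finset.card_filter_le (chains (2 * n + 2) K (0 : Fin d → ℤ))
          (fun l => l.Pairwise (fun x y => 2 * n + 2 ≤ nrm (y - x)))).trans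
          (card_chains (2 * n + 2) K 0)
        exact_mod_cast h2

end Pool.Agent.R239.EA
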