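import Pool.Agent.R239.EA.C

/-!
# Changing the signs of the couplings on a cut: a polynomial lower bound
-/

set_option autoImplicit false

open Finset MeasureTheory ProbabilityTheory

namespace Pool.Agent.R239.EA

variable {d : ℕ}

open Classical in
/-- the signs of the couplings in `T` are changed -/
noncomputable def fl (T : Finset ((Fin d → ℤ) × Fin d)) (J : (Fin d → ℤ) × Fin d → ℝ) :
    (Fin d → ℤ) × Fin d → ℝ := fun e => if e ∈ T then -J e else J e

lemma fl_law (μ : Measure ℝ) [IsProbabilityMeasure μ] (hsym : μ.map (fun x => -x) = μ)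
    (T : Finset ((Fin d → ℤ) × Fin d)) : MeasurePreserving (fl T) (Lw μ d) (Lw μ d) := by
  classical
  have hm : ∀ e : (Fin d → ℤ) × Fin d, Measurable (fun x : ℝ => if e ∈ T then -x else x) := by
    intro e
    by_cases h : e ∈ T
    · simp only [h, if_true]; fun_prop
    · simp only [h, if_false]; fun_prop
  have h1 := Measure.infinitePi_map_pi (μ := fun _ : (Fin d → ℤ) × Fin d => μ) hm
  have h2 : (fun e : (Fin d → ℤ) × Fin d => μ.map (fun x : ℝ => if e ∈ T then -x else x)) =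
      fun _ => μ := by
    funext e
    by_cases h : e ∈ T
    · simp only [h, if_true]; exact hsym
    · simp only [h, if_false]; exact Measure.map_id
  refine ⟨measurable_pi_lambda _ fun e => ?_, ?_⟩
  · exact (hm e).comp (measurable_pi_apply e)
  · unfold Lw
    rw [h2] at h1
    exact h1

/-- generic couplings -/
def Gn (J : (Fin d → ℤ) × Fin d → ℝ) : Prop :=
  ∀ T1 T2 : Finset ((Fin d → ℤ) × Fin d), Disjoint T1 T2 → (∃ e, e ∈ T1 ∨ e ∈ T2) →
    ∑ e ∈ T1, J e ≠ ∑ e ∈ T2, J e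

lemma spin_symm (P A : Finset (Fin d → ℤ)) (x : Fin d → ℤ) [Decidable (x ∈ A)] :
    spin (symmDiff P A) x = if x ∈ A then -spin P x else spin P x := by
  classical
  unfold spin
  by_cases h1 : x ∈ P <;> by_cases h2 : x ∈ A <;> simp [Finset.mem_symmDiff, h1, h2]

theorem exists_box (hd : 2 ≤ d) {J : (Fin d → ℤ) × Fin d → ℝ} (hJ : Gn J) (M : ℕ) :
    ∃ σ, GI (bx 0 M) J σ ∧ ∀ x, x ∉ bx 0 M → σ x = 1 := by
  classical
  obtain ⟨P, hP, hmin⟩ := Finset.exists_min_image (bx (0 : Fin d → ℤ) M).powerset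
    (fun P => -∑ e ∈ tb (0 : Fin d → ℤ) M, J e * (spin P e.1 * spin P (nx e)))
    ⟨∅, Finset.mem_powerset.2 (Finset.empty_subset _)⟩
  rw [Finset.mem_powerset] at hP
  refine ⟨spin P, ⟨spin_pm P, fun A hA hAB => ?_⟩, fun x hx => ?_⟩
  swap
  · unfold spin
    rw [if_neg (fun h => hx (hP h))]
  set F : Finset ((Fin d → ℤ) × Fin d) := (dC_finite A.finite_toSet).toFinset with hF
  have hFmem : ∀ e, e ∈ F ↔ e ∈ dC (A : Set (Fin d → ℤ)) := by
    intro e
    rw [hF, Set.Finite.mem_toFinset]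
  have hFsub : F ⊆ tb (0 : Fin d → ℤ) M := fun e he => dC_sub_tb hAB ((hFmem e).1 he)
  rw [finsum_mem_eq_finite_toFinset_sum _ (dC_finite A.finite_toSet), ← hF]
  set c : (Fin d → ℤ) × Fin d → ℝ := fun e => spin P e.1 * spin P (nx e) with hc
  have hcpm : ∀ e, c e = 1 ∨ c e = -1 := by
    intro e
    simp only [hc]
    rcases spin_pm P e.1 with h | h <;> rcases spin_pm P (nx e) with h' | h' <;> rw [h, h'] <;> simp
  have hle := hmin (symmDiff P A) (by
    rw [Finset.mem_powerset]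
    intro x hx
    rw [Finset.mem_symmDiff] at hx
    rcases hx with h | h
    · exact hP h.1
    · exact hAB h.1)
  have hterm : ∀ e : (Fin d → ℤ) × Fin d, spin (symmDiff P A) e.1 * spin (symmDiff P A) (nx e) =
      if e ∈ F then -c e else c e := by
    intro e
    rw [spin_symm, spin_symm]
    have h1 := hFmem e
    unfold dC at h1
    simp only [Set.mem_ofPred_eq, Finset.mem_coe] at h1
    by_cases ha : e.1 ∈ A <;> by_cases hb : nx e ∈ A <;> simp only [ha, hb] at h1 <;>
      simp only [ha, hb, h1, hc] <;> simp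
  simp only [hterm] at hle
  have hsplit : ∑ e ∈ tb (0 : Fin d → ℤ) M, J e * (if e ∈ F then -c e else c e) =
      ∑ e ∈ tb (0 : Fin d → ℤ) M, J e * c e - 2 * ∑ e ∈ F, J e * c e := by
    have h1 : ∑ e ∈ F, J e * c e = ∑ e ∈ tb (0 : Fin d → ℤ) M, if e ∈ F then J e * c e else 0 := by
      rw [← Finset.sum_filter]
      congr 1
      ext e
      rw [Finset.mem_filter]
      exact ⟨fun h => ⟨hFsub h, h⟩, fun h => h.2⟩
    rw [h1, Finset.mul_sum, ← Finset.sum_sub_distrib]
    refine Finset.sum_congr rfl fun e _ => ?_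
    split_ifs <;> ring
  rw [hsplit] at hle
  have hge : 0 ≤ ∑ e ∈ F, J e * c e := by
    simp only [hc] at hle ⊢
    linarith
  refine lt_of_le_of_ne hge fun h0 => ?_
  -- genericity
  obtain ⟨x, hx⟩ := hA
  have hne : ∃ e, e ∈ F := by
    by_contra hcon
    push Not at hcon
    have h1 : dC (A : Set (Fin d → ℤ)) = ∅ := by
      ext e
      rw [← hFmem]
      simp [hcon e]
    have h2 := eq_empty_of_dC (⟨0, by omega⟩ : Fin d) A.finite_toSet h1
    rw [Finset.coe_eq_empty] at h2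
    rw [h2] at hx
    simp at hx
  refine hJ (F.filter fun e => c e = 1) (F.filter fun e => ¬ c e = 1)
    (Finset.disjoint_filter_filter_not _ _ _) ?_ ?_
  · obtain ⟨e, he⟩ := hne
    refine ⟨e, ?_⟩
    rw [Finset.mem_filter, Finset.mem_filter]
    by_cases h : c e = 1
    · exact Or.inl ⟨he, h⟩
    · exact Or.inr ⟨he, h⟩
  · have h1 := Finset.sum_filter_add_sum_filter_not F (fun e => c e = 1) (fun e => J e * c e)
    have h2 : ∑ e ∈ F.filter (fun e => c e = 1), J e * c e =
        ∑ e ∈ F.filter (fun e => c e = 1), J e :=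
      Finset.sum_congr rfl fun e he => by rw [(Finset.mem_filter.1 he).2, mul_one]
    have h3 : ∑ e ∈ F.filter (fun e => ¬ c e = 1), J e * c e =
        -∑ e ∈ F.filter (fun e => ¬ c e = 1), J e := by
      rw [← Finset.sum_neg_distrib]
      refine Finset.sum_congr rfl fun e he => ?_
      rcases hcpm e with h | h
      · exact absurd h (Finset.mem_filter.1 he).2
      · rw [h, mul_neg, mul_one]
    rw [h2, h3, ← h0] at h1
    linarith

/-- the spins at the origin of the ground states in the box of radius `M` with boundary condition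
`+1` differ for the couplings `J` and the couplings changed on `T` -/
def Dis (M : ℕ) (T : Finset ((Fin d → ℤ) × Fin d)) (J : (Fin d → ℤ) × Fin d → ℝ) : Prop :=
  ∃ σ τ, GI (bx 0 M) J σ ∧ GI (bx 0 M) (fl T J) τ ∧ (∀ x, x ∉ bx 0 M → σ x = 1) ∧
    (∀ x, x ∉ bx 0 M → τ x = 1) ∧ σ 0 ≠ τ 0

lemma not_dis_empty {M : ℕ} {J : (Fin d → ℤ) × Fin d → ℝ} : ¬ Dis M ∅ J := by
  classical
  rintro ⟨σ, τ, hσ, hτ, h1, h2, h0⟩
  have hfl : fl ∅ J = J := by
    funext e; simp [fl]
  rw [hfl] at hτ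
  have hsub : {x | σ x ≠ τ x} ⊆ (bx (0 : Fin d → ℤ) M : Set (Fin d → ℤ)) := by
    intro x hx
    by_contra hc
    rw [Finset.mem_coe] at hc
    exact hx ((h1 x hc).trans (h2 x hc).symm)
  have hfin : {x | σ x ≠ τ x}.Finite := (bx (0 : Fin d → ℤ) M).finite_toSet.subset hsub
  refine contra (A := hfin.toFinset) hσ hτ ⟨0, hfin.mem_toFinset.2 h0⟩ ?_ (fun _ _ => rfl) ?_
  · intro x hx
    exact Finset.mem_coe.1 (hsub (hfin.mem_toFinset.1 hx))
  · rw [hfin.coe_toFinset]

lemma gauge {M : ℕ} {B : Finset (Fin d → ℤ)} {J : (Fin d → ℤ) × Fin d → ℝ}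
    (hJ : ∃ σ, GI (bx 0 M) J σ ∧ ∀ x, x ∉ bx 0 M → σ x = 1) (hB : B ⊆ bx 0 M) (h0 : 0 ∈ B)
    {K : Finset ((Fin d → ℤ) × Fin d)} (hK : ∀ e, e ∈ K ↔ e ∈ dC (B : Set (Fin d → ℤ))) :
    Dis M K J := by
  classical
  obtain ⟨σ, hσ, hout⟩ := hJ
  set τ : (Fin d → ℤ) → ℝ := fun x => if x ∈ B then -σ x else σ x with hτ
  have hterm : ∀ e : (Fin d → ℤ) × Fin d, fl K J e * (τ e.1 * τ (nx e)) =
      J e * (σ e.1 * σ (nx e)) := by
    intro e
    have h1 := hK e
    unfold dC at h1
    simp only [Set.mem_ofPred_eq, Finset.mem_coe] at h1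
    unfold fl
    by_cases ha : e.1 ∈ B <;> by_cases hb : nx e ∈ B <;> simp only [ha, hb] at h1 <;>
      simp only [ha, hb, h1, hτ] <;> simp
  refine ⟨σ, τ, hσ, ⟨fun x => ?_, fun A hA hAB => ?_⟩, hout, fun x hx => ?_, ?_⟩
  · simp only [hτ]
    split_ifs
    · rcases hσ.1 x with h | h <;> rw [h] <;> simp
    · exact hσ.1 x
  · simp only [hterm]
    exact hσ.2 A hA hAB
  · simp only [hτ]
    rw [if_neg (fun h => hx (hB h))]
    exact hout x hx
  · simp only [hτ]
    rw [if_pos h0]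
    rcases hσ.1 0 with h | h <;> rw [h] <;> norm_num

variable (μ : Measure ℝ) [IsProbabilityMeasure μ]

lemma gn_ae (hat : ∀ x, μ {x} = 0) : ∀ᵐ J ∂(Lw μ d), Gn J := by
  unfold Lw
  exact Pool.Agent.TH761.EB.gen_ae μ hat ((Fin d → ℤ) × Fin d)

lemma dis_le (hd : 2 ≤ d) (hat : ∀ x, μ {x} = 0) (hsym : μ.map (fun x => -x) = μ) {M n : ℕ}
    (T : Finset ((Fin d → ℤ) × Fin d))
    (hT : ∀ e ∈ T, n + 2 < nrm e.1 ∧ nrm e.1 + 2 * n + 2 ≤ M) :
    Lw μ d {J | Dis M T J} ≤
      (T.card : ENNReal) * (((sph d (n + 2)).card : ENNReal) * Lw μ d {J | Inf J 0 n}) := by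
  classical
  induction T using Finset.induction_on with
  | empty =>
    have : {J : (Fin d → ℤ) × Fin d → ℝ | Dis M ∅ J} = ∅ := by
      ext J; simp [not_dis_empty]
    rw [this]; simp
  | insert a T ha ih =>
    have ih' := ih (fun e he => hT e (Finset.mem_insert_of_mem he))
    have haT := hT a (Finset.mem_insert_self a T)
    have hsub : {J : (Fin d → ℤ) × Fin d → ℝ | Dis M (insert a T) J} ⊆
        {J | Dis M T J} ∪ ((⋃ x ∈ sph d (n + 2), fl T ⁻¹' {J | Inf J (a.1 + x) n}) ∪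
          fl T ⁻¹' {J | ¬ Gn J}) := by
      rintro J ⟨σ, τ, hσ, hτ, h1, h2, h0⟩
      by_cases hg : Gn (fl T J)
      · obtain ⟨ρ, hρ, h3⟩ := exists_box hd hg M
        by_cases hρ0 : σ 0 = ρ 0
        · right; left
          have hρτ : ρ 0 ≠ τ 0 := by rw [← hρ0]; exact h0
          have hJa : ∀ f, f ≠ a → fl (insert a T) J f = fl T J f := by
            intro f hf
            unfold fl
            simp [Finset.mem_insert, hf]
          obtain ⟨v, hv, hinf⟩ := droplet hd hρ hτ hJa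
            (fun x hx => (h3 x hx).trans (h2 x hx).symm) hρτ haT.1 haT.2
          simp only [Set.mem_iUnion]
          refine ⟨v - a.1, mem_sph.2 hv, ?_⟩
          rw [Set.mem_preimage, Set.mem_ofPred_eq, add_sub_cancel]
          exact hinf
        · left
          exact ⟨σ, ρ, hσ, hρ, h1, h3, hρ0⟩
      · right; right
        exact hg
    have hfl := fl_law (d := d) μ hsym T
    have hnull : Lw μ d (fl T ⁻¹' {J | ¬ Gn J}) = 0 :=
      hfl.quasiMeasurePreserving.preimage_null (ae_iff.1 (gn_ae μ hat))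
    have hU : Lw μ d (⋃ x ∈ sph d (n + 2), fl T ⁻¹' {J | Inf J (a.1 + x) n}) ≤
        ((sph d (n + 2)).card : ENNReal) * Lw μ d {J | Inf J 0 n} := by
      refine (measure_biUnion_finset_le _ _).trans ?_
      calc ∑ x ∈ sph d (n + 2), Lw μ d (fl T ⁻¹' {J | Inf J (a.1 + x) n})
          ≤ ∑ x ∈ sph d (n + 2), Lw μ d {J | Inf J 0 n} := by
            refine Finset.sum_le_sum fun x _ => ?_
            rw [hfl.measure_preimage (inf_meas _ _).nullMeasurableSet]
            exact inf_le μ _ _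
        _ = _ := by rw [Finset.sum_const, nsmul_eq_mul]
    calc Lw μ d {J | Dis M (insert a T) J}
        ≤ Lw μ d {J | Dis M T J} +
          (Lw μ d (⋃ x ∈ sph d (n + 2), fl T ⁻¹' {J | Inf J (a.1 + x) n}) +
            Lw μ d (fl T ⁻¹' {J | ¬ Gn J})) :=
          (measure_mono hsub).trans ((measure_union_le _ _).trans
            (add_le_add le_rfl (measure_union_le _ _)))
      _ ≤ (T.card : ENNReal) * (((sph d (n + 2)).card : ENNReal) * Lw μ d {J | Inf J 0 n}) +
          (((sph d (n + 2)).card : ENNReal) * Lw μ d {J | Inf J 0 n} + 0) := by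
          rw [hnull]
          exact add_le_add ih' (add_le_add hU le_rfl)
      _ = _ := by
          rw [Finset.card_insert_of_notMem ha]
          push_cast
          ring

theorem poly_lower (hd : 2 ≤ d) (hat : ∀ x, μ {x} = 0) (hsym : μ.map (fun x => -x) = μ) (n : ℕ) :
    1 ≤ (((2 * n + 9) ^ d * d * (2 * n + 5) ^ d : ℕ) : ENNReal) * Lw μ d {J | Inf J 0 n} := by
  classical
  set K : Finset ((Fin d → ℤ) × Fin d) :=
    (dC_finite (bx (0 : Fin d → ℤ) (n + 3)).finite_toSet).toFinset with hKdef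
  have hK : ∀ e, e ∈ K ↔ e ∈ dC ((bx (0 : Fin d → ℤ) (n + 3) : Finset (Fin d → ℤ)) :
      Set (Fin d → ℤ)) := by
    intro e
    rw [hKdef, Set.Finite.mem_toFinset]
  have hKn : ∀ e ∈ K, n + 3 ≤ nrm e.1 ∧ nrm e.1 ≤ n + 4 := by
    intro e he
    have h1 := (hK e).1 he
    unfold dC at h1
    simp only [Set.mem_ofPred_eq, Finset.mem_coe] at h1
    rw [mem_bx, mem_bx, sub_zero, sub_zero] at h1
    have h2 := nrm_nx e
    have h3 := nrm_tri (nx e) e.1 0
    have h4 := nrm_tri e.1 (nx e) 0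
    rw [sub_zero, sub_zero] at h3 h4
    rw [nrm_sub_comm e.1 (nx e)] at h4
    omega
  have hKcard : K.card ≤ (2 * n + 9) ^ d * d := by
    have h1 : K ⊆ (bx (0 : Fin d → ℤ) (n + 4)) ×ˢ (Finset.univ : Finset (Fin d)) := by
      intro e he
      rw [Finset.mem_product, mem_bx, sub_zero]
      exact ⟨(hKn e he).2, Finset.mem_univ _⟩
    have h2 := Finset.card_le_card h1
    rw [Finset.card_product, card_bx, Finset.card_univ, Fintype.card_fin] at h2
    rw [show 2 * (n + 4) + 1 = 2 * n + 9 by ring] at h2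
    exact h2
  have hScard : (sph d (n + 2)).card ≤ (2 * n + 5) ^ d := by
    have h1 : (sph d (n + 2)).card ≤ (bx (0 : Fin d → ℤ) (n + 2)).card :=
      Finset.card_filter_le _ _
    rw [card_bx, show 2 * (n + 2) + 1 = 2 * n + 5 by ring] at h1
    exact h1
  have hle := dis_le (d := d) μ hd hat hsym (M := 3 * n + 6) (n := n) K
    (fun e he => by have := hKn e he; omega)
  have hone : 1 ≤ Lw μ d {J | Dis (3 * n + 6) K J} := by
    have hae : ∀ᵐ J ∂(Lw μ d), Dis (3 * n + 6) K J := by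
      filter_upwards [gn_ae (d := d) μ hat] with J hJ
      refine gauge (exists_box hd hJ (3 * n + 6)) ?_ ?_ hK
      · exact bx_sub (by rw [sub_self, nrm_zero]; omega)
      · rw [mem_bx, sub_self, nrm_zero]; omega
    have h1 : Lw μ d Set.univ ≤ Lw μ d {J | Dis (3 * n + 6) K J} +
        Lw μ d {J | ¬ Dis (3 * n + 6) K J} := by
      refine (measure_mono ?_).trans (measure_union_le _ _)
      intro J _
      exact Classical.em _
    rw [measure_univ, ae_iff.1 hae, add_zero] at h1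
    exact h1
  refine hone.trans (hle.trans ?_)
  rw [← mul_assoc]
  refine mul_le_mul' ?_ le_rfl
  exact_mod_cast Nat.mul_le_mul hKcard hScard

end Pool.Agent.R239.EA
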