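import Pool.Agent.R239.EA.D

/-!
# Lower bound for the influence, and the link with uniqueness
-/

set_option autoImplicit false

open Finset MeasureTheory ProbabilityTheory Filter Topology

namespace Pool.Agent.R239.EA

variable {d : ℕ}

/-! ### Compactness -/

/-- first configuration -/
noncomputable def s1 (f : (Fin d → ℤ) → Bool × Bool) (x : Fin d → ℤ) : ℝ :=
  if (f x).1 then -1 else 1

/-- second configuration -/
noncomputable def s2 (f : (Fin d → ℤ) → Bool × Bool) (x : Fin d → ℤ) : ℝ :=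
  if (f x).2 then -1 else 1

lemma s1_pm (f : (Fin d → ℤ) → Bool × Bool) (x : Fin d → ℤ) : s1 f x = 1 ∨ s1 f x = -1 := by
  unfold s1; split_ifs <;> simp

lemma s2_pm (f : (Fin d → ℤ) → Bool × Bool) (x : Fin d → ℤ) : s2 f x = 1 ∨ s2 f x = -1 := by
  unfold s2; split_ifs <;> simp

lemma open_of_dep {Q : ((Fin d → ℤ) → Bool × Bool) → Prop} (T : Finset (Fin d → ℤ))
    (h : ∀ f f', (∀ x ∈ T, f x = f' x) → Q f → Q f') : IsOpen {f | Q f} := by
  rw [isOpen_iff_forall_mem_open]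
  intro f hf
  refine ⟨⋂ x ∈ T, {f' | f' x = f x}, ?_, ?_, ?_⟩
  · intro f' hf'
    simp only [Set.mem_iInter] at hf'
    exact h f f' (fun x hx => (hf' x hx).symm) hf
  · refine isOpen_biInter_finset fun x _ => ?_
    have h1 := (isOpen_discrete ({f x} : Set (Bool × Bool))).preimage
      (continuous_apply x : Continuous fun f' : (Fin d → ℤ) → Bool × Bool => f' x)
    exact h1
  · simp

lemma closed_of_dep {Q : ((Fin d → ℤ) → Bool × Bool) → Prop} (T : Finset (Fin d → ℤ))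
    (h : ∀ f f', (∀ x ∈ T, f x = f' x) → Q f → Q f') : IsClosed {f | Q f} := by
  rw [← isOpen_compl_iff]
  have : {f | Q f}ᶜ = {f | ¬ Q f} := rfl
  rw [this]
  exact open_of_dep T fun f f' hff hf hf' => hf (h f' f (fun x hx => (hff x hx).symm) hf')

lemma to_bool (σ τ : (Fin d → ℤ) → ℝ) (hσ : ∀ x, σ x = 1 ∨ σ x = -1)
    (hτ : ∀ x, τ x = 1 ∨ τ x = -1) : ∃ f : (Fin d → ℤ) → Bool × Bool, s1 f = σ ∧ s2 f = τ := by
  classical
  refine ⟨fun x => (decide (σ x = -1), decide (τ x = -1)), ?_, ?_⟩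
  · funext x
    unfold s1
    simp only [decide_eq_true_eq]
    rcases hσ x with h | h
    · rw [if_neg (by rw [h]; norm_num), h]
    · rw [if_pos h, h]
  · funext x
    unfold s2
    simp only [decide_eq_true_eq]
    rcases hτ x with h | h
    · rw [if_neg (by rw [h]; norm_num), h]
    · rw [if_pos h, h]

/-- configurations such that every finite change increases the energy -/
def GA (J : (Fin d → ℤ) × Fin d → ℝ) (σ : (Fin d → ℤ) → ℝ) : Prop := ∀ n : ℕ, GI (bx 0 n) J σ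

lemma GA.at {J : (Fin d → ℤ) × Fin d → ℝ} {σ : (Fin d → ℤ) → ℝ} (h : GA J σ) (w : Fin d → ℤ)
    (n : ℕ) : GI (bx w n) J σ :=
  (h (nrm w + n)).mono (bx_sub (by rw [sub_zero]))

lemma compact_pair {J : (Fin d → ℤ) × Fin d → ℝ} (w : Fin d → ℤ) (i : Fin d)
    (Q : Prop) (h : ∀ n : ℕ, ∃ σ τ, GI (bx 0 n) J σ ∧ GI (bx 0 n) J τ ∧
      (Q → (w, i) ∈ dC {x | σ x ≠ τ x})) :
    ∃ σ τ, GA J σ ∧ GA J τ ∧ (Q → (w, i) ∈ dC {x | σ x ≠ τ x}) := by
  classical
  set F : ℕ → Set ((Fin d → ℤ) → Bool × Bool) := fun n => {f | GI (bx 0 n) J (s1 f) ∧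
    GI (bx 0 n) J (s2 f) ∧ (Q → (w, i) ∈ dC {x | s1 f x ≠ s2 f x})} with hF
  have hclosed : ∀ n, IsClosed (F n) := by
    intro n
    refine closed_of_dep (bx 0 (n + 1) ∪ {w, w + u i}) ?_
    rintro f f' hff ⟨h1, h2, h3⟩
    have e1 : ∀ x ∈ bx (0 : Fin d → ℤ) (n + 1), s1 f x = s1 f' x := by
      intro x hx
      unfold s1
      rw [hff x (Finset.mem_union_left _ hx)]
    have e2 : ∀ x ∈ bx (0 : Fin d → ℤ) (n + 1), s2 f x = s2 f' x := by
      intro x hx
      unfold s2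
      rw [hff x (Finset.mem_union_left _ hx)]
    refine ⟨GI_congr (fun _ _ => rfl) e1 (s1_pm f') h1, GI_congr (fun _ _ => rfl) e2 (s2_pm f') h2,
      fun hQ => ?_⟩
    have h4 := h3 hQ
    unfold dC nx s1 s2 at h4 ⊢
    simp only [Set.mem_ofPred_eq] at h4 ⊢
    rw [← hff w (by simp), ← hff (w + u i) (by simp)]
    exact h4
  have hmono : ∀ n, F (n + 1) ⊆ F n := by
    rintro n f ⟨h1, h2, h3⟩
    have hs : bx (0 : Fin d → ℤ) n ⊆ bx 0 (n + 1) := bx_sub (by rw [sub_self, nrm_zero]; omega)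
    exact ⟨h1.mono hs, h2.mono hs, h3⟩
  have hne : ∀ n, (F n).Nonempty := by
    intro n
    obtain ⟨σ, τ, h1, h2, h3⟩ := h n
    obtain ⟨f, hf1, hf2⟩ := to_bool σ τ h1.1 h2.1
    refine ⟨f, ?_⟩
    simp only [hF, Set.mem_ofPred_eq, hf1, hf2]
    exact ⟨h1, h2, h3⟩
  obtain ⟨f, hf⟩ := IsCompact.nonempty_iInter_of_sequence_nonempty_isCompact_isClosed F hmono hne
    (hclosed 0).isCompact hclosed
  rw [Set.mem_iInter] at hf
  exact ⟨s1 f, s2 f, fun n => (hf n).1, fun n => (hf n).2.1, (hf 0).2.2⟩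

lemma exists_GA (hd : 2 ≤ d) {J : (Fin d → ℤ) × Fin d → ℝ} (hJ : Gn J) : ∃ σ, GA J σ := by
  obtain ⟨σ, -, h, -, -⟩ := compact_pair (J := J) 0 (⟨0, by omega⟩ : Fin d) False (fun n => by
    obtain ⟨σ, hσ, -⟩ := exists_box hd hJ n
    exact ⟨σ, σ, hσ, hσ, fun h => h.elim⟩)
  exact ⟨σ, h⟩

/-! ### Incongruent pairs differ on a bond -/

lemma const_of_dC {S : Set (Fin d → ℤ)} (h : dC S = ∅) : S = ∅ ∨ S = Set.univ := by
  have hstep : ∀ (x : Fin d → ℤ) (i : Fin d), x ∈ S ↔ x + u i ∈ S := by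
    intro x i
    have h1 : ((x, i) : (Fin d → ℤ) × Fin d) ∉ dC S := by rw [h]; exact Set.notMem_empty _
    unfold dC nx at h1
    simp only [Set.mem_ofPred_eq, not_not] at h1
    exact h1
  have hsm : ∀ (x : Fin d → ℤ) (i : Fin d) (c : ℤ), x ∈ S ↔ x + c • u i ∈ S := by
    intro x i c
    induction c using Int.induction_on with
    | zero => simp
    | succ k ih => rw [ih, hstep (x + (k : ℤ) • u i) i, add_smul, one_smul, add_assoc]
    | pred k ih =>
      rw [ih, hstep (x + (-(k : ℤ) - 1) • u i) i, sub_smul, one_smul, add_assoc, sub_add_cancel]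
  have hall : ∀ (s : Finset (Fin d)) (x y : Fin d → ℤ), (∀ i, i ∉ s → x i = y i) →
      (x ∈ S ↔ y ∈ S) := by
    classical
    intro s
    induction s using Finset.induction_on with
    | empty =>
      intro x y hxy
      rw [show x = y from funext fun i => hxy i (Finset.notMem_empty i)]
    | insert a s ha ih =>
      intro x y hxy
      rw [hsm x a (y a - x a)]
      refine ih _ _ fun i hi => ?_
      rw [Pi.add_apply, Pi.smul_apply, smul_eq_mul]
      by_cases hia : i = a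
      · subst hia; rw [u_same]; ring
      · rw [u_ne hia, mul_zero, add_zero]
        exact hxy i (by simp [hia, hi])
  by_cases h0 : (0 : Fin d → ℤ) ∈ S
  · right
    ext x
    simp only [Set.mem_univ, iff_true]
    exact (hall Finset.univ 0 x (fun i hi => absurd (Finset.mem_univ i) hi)).1 h0
  · left
    ext x
    simp only [Set.mem_empty_iff_false, iff_false]
    exact fun hx => h0 ((hall Finset.univ 0 x (fun i hi => absurd (Finset.mem_univ i) hi)).2 hx)

lemma congruent {σ τ : (Fin d → ℤ) → ℝ} (hσ : ∀ x, σ x = 1 ∨ σ x = -1)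
    (hτ : ∀ x, τ x = 1 ∨ τ x = -1) (h : dC {x | σ x ≠ τ x} = ∅) : τ = σ ∨ τ = -σ := by
  rcases const_of_dC h with h1 | h1
  · left
    funext x
    by_contra hc
    have : x ∈ {x | σ x ≠ τ x} := fun he => hc he.symm
    rw [h1] at this
    exact this
  · right
    funext x
    have hx : x ∈ {x | σ x ≠ τ x} := by rw [h1]; exact Set.mem_univ x
    rw [Set.mem_ofPred_eq] at hx
    rw [Pi.neg_apply]
    rcases hσ x with h2 | h2 <;> rcases hτ x with h3 | h3 <;> rw [h2, h3] at hx <;>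
      rw [h2, h3] <;> first | (norm_num at hx; done) | norm_num

lemma not_congruent {σ τ : (Fin d → ℤ) → ℝ} (hσ : ∀ x, σ x = 1 ∨ σ x = -1)
    {e : (Fin d → ℤ) × Fin d} (h : e ∈ dC {x | σ x ≠ τ x}) : ¬ (τ = σ ∨ τ = -σ) := by
  rintro (h1 | h1)
  · subst h1
    simp [dC] at h
  · have : {x | σ x ≠ τ x} = Set.univ := by
      ext x
      simp only [Set.mem_ofPred_eq, Set.mem_univ, iff_true, h1, Pi.neg_apply]
      rcases hσ x with h2 | h2 <;> rw [h2] <;> norm_num
    rw [this] at h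
    simp [dC] at h

lemma inf_anti {J : (Fin d → ℤ) × Fin d → ℝ} {w : Fin d → ℤ} {m n : ℕ} (h : n ≤ m)
    (hJ : Inf J w m) : Inf J w n := by
  obtain ⟨σ, τ, h1, h2, h3⟩ := hJ
  have hs : bx w n ⊆ bx w m := bx_sub (by rw [sub_self, nrm_zero]; omega)
  exact ⟨σ, τ, h1.mono hs, h2.mono hs, h3⟩

variable (μ : Measure ℝ) [IsProbabilityMeasure μ]

theorem unique_iff (hd : 2 ≤ d) (hat : ∀ x, μ {x} = 0) :
    (∀ᵐ J ∂(Lw μ d), ∃ σ, GA J σ ∧ ∀ τ, GA J τ → τ = σ ∨ τ = -σ) ↔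
      Tendsto (fun n => Lw μ d {J | Inf J 0 n}) atTop (𝓝 0) := by
  have hanti : Antitone fun n => {J : (Fin d → ℤ) × Fin d → ℝ | Inf J 0 n} := by
    intro n m hnm J hJ
    exact inf_anti hnm hJ
  have hlim : Tendsto (fun n => Lw μ d {J | Inf J 0 n}) atTop
      (𝓝 (Lw μ d (⋂ n, {J | Inf J 0 n}))) :=
    tendsto_measure_iInter_atTop (fun n => (inf_meas 0 n).nullMeasurableSet) hanti
      ⟨0, measure_ne_top _ _⟩
  constructor
  · intro h
    have h0 : Lw μ d (⋂ n, {J | Inf J 0 n}) = 0 := by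
      refine measure_mono_null ?_ (ae_iff.1 h)
      intro J hJ hex
      rw [Set.mem_iInter] at hJ
      obtain ⟨σ0, hσ0, huniq⟩ := hex
      -- some direction occurs for infinitely many radii
      have hdir : ∃ i : Fin d, ∀ n : ℕ, ∃ σ τ, GI (bx 0 n) J σ ∧ GI (bx 0 n) J τ ∧
          ((0 : Fin d → ℤ), i) ∈ dC {x | σ x ≠ τ x} := by
        by_contra hcon
        push Not at hcon
        choose N hN using hcon
        obtain ⟨σ, τ, h1, h2, i, hi⟩ := hJ (Finset.univ.sup N)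
        have hs : bx (0 : Fin d → ℤ) (N i) ⊆ bx 0 (Finset.univ.sup N) := by
          apply bx_sub
          rw [sub_self, nrm_zero, zero_add]
          exact Finset.le_sup (f := N) (Finset.mem_univ i)
        exact hN i σ τ (h1.mono hs) (h2.mono hs) hi
      obtain ⟨i, hi⟩ := hdir
      obtain ⟨σ, τ, h1, h2, h3⟩ := compact_pair (J := J) 0 i True (fun n => by
        obtain ⟨σ, τ, a, b, c⟩ := hi n
        exact ⟨σ, τ, a, b, fun _ => c⟩)
      refine not_congruent (h1 0).1 (h3 trivial) ?_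
      rcases huniq σ h1 with h4 | h4 <;> rcases huniq τ h2 with h5 | h5 <;> rw [h4, h5] <;> simp
    rw [h0] at hlim
    exact hlim
  · intro h
    have h0 : Lw μ d (⋂ n, {J | Inf J 0 n}) = 0 := tendsto_nhds_unique hlim h
    have hall : ∀ᵐ J ∂(Lw μ d), ∀ w : Fin d → ℤ, ∃ n, ¬ Inf J w n := by
      rw [ae_all_iff]
      intro w
      rw [ae_iff]
      have h1 : {J : (Fin d → ℤ) × Fin d → ℝ | ¬ ∃ n, ¬ Inf J w n} ⊆
          shw w ⁻¹' (⋂ n, {J | Inf J 0 n}) := by
        intro J hJ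
        rw [Set.mem_preimage, Set.mem_iInter]
        intro n
        refine inf_shift ?_
        by_contra hc
        exact hJ ⟨n, hc⟩
      refine measure_mono_null h1 ?_
      exact (shw_law μ w).quasiMeasurePreserving.preimage_null h0
    filter_upwards [hall, gn_ae (d := d) μ hat] with J hJ hg
    obtain ⟨σ, hσ⟩ := exists_GA hd hg
    refine ⟨σ, hσ, fun τ hτ => congruent (hσ 0).1 (hτ 0).1 ?_⟩
    rw [Set.eq_empty_iff_forall_notMem]
    intro e he
    obtain ⟨n, hn⟩ := hJ e.1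
    exact hn ⟨σ, τ, hσ.at _ _, hτ.at _ _, e.2, he⟩

/-! ### The lower bound -/

theorem lower (hd : 2 ≤ d) (hat : ∀ x, μ {x} = 0) (hsym : μ.map (fun x => -x) = μ) (n : ℕ) :
    1 ≤ ((sph d (2 * n + 2)).card : ℝ) * (Lw μ d).real {J | Inf J 0 n} := by
  by_contra hcon
  push Not at hcon
  set N : ℝ := ((sph d (2 * n + 2)).card : ℝ) with hN
  set p : ℕ → ℝ := fun m => (Lw μ d).real {J | Inf J 0 m} with hp
  have hp0 : ∀ m, 0 ≤ p m := fun m => measureReal_nonneg
  have hp1 : ∀ m, p m ≤ 1 := fun m => measureReal_le_one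
  have hN0 : 0 ≤ N := Nat.cast_nonneg _
  set q : ℝ := N * p n with hq
  have hq0 : 0 ≤ q := mul_nonneg hN0 (hp0 n)
  have hq1 : q < 1 := hcon
  have hdec : ∀ K : ℕ, p (n + K * (2 * n + 2)) ≤ q ^ K := by
    intro K
    have h1 := decay (d := d) μ hd (m := n + K * (2 * n + 2)) (n := n) (by omega)
    rw [Nat.add_sub_cancel_left, Nat.mul_div_cancel _ (by omega : 0 < 2 * n + 2)] at h1
    have h2 := ENNReal.toReal_mono (by
      refine ENNReal.mul_ne_top (ENNReal.pow_ne_top (ENNReal.natCast_ne_top _))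
        (ENNReal.pow_ne_top (measure_ne_top _ _))) h1
    rw [ENNReal.toReal_mul, ENNReal.toReal_pow, ENNReal.toReal_pow, ENNReal.toReal_natCast] at h2
    calc p (n + K * (2 * n + 2)) ≤ N ^ K * p n ^ (K + 1) := h2
      _ = q ^ K * p n := by rw [hq, mul_pow, pow_succ]; ring
      _ ≤ q ^ K := mul_le_of_le_one_right (pow_nonneg hq0 _) (hp1 n)
  have hpoly : ∀ m : ℕ, 1 ≤ (((2 * m + 9) ^ d * d * (2 * m + 5) ^ d : ℕ) : ℝ) * p m := by
    intro m
    have h1 := poly_lower (d := d) μ hd hat hsym m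
    have h2 := ENNReal.toReal_mono (by
      exact ENNReal.mul_ne_top (ENNReal.natCast_ne_top _) (measure_ne_top _ _)) h1
    rw [ENNReal.toReal_mul, ENNReal.toReal_natCast, ENNReal.toReal_one] at h2
    exact h2
  set C : ℝ := (d : ℝ) * (((4 * n + 13) * 2 : ℕ) : ℝ) ^ (2 * d) with hC
  have hbound : ∀ K : ℕ, 1 ≤ K → 1 ≤ C * ((K : ℝ) ^ (2 * d) * q ^ K) := by
    intro K hK
    have h1 := hpoly (n + K * (2 * n + 2))
    have h2 : (((2 * (n + K * (2 * n + 2)) + 9) ^ d * d * (2 * (n + K * (2 * n + 2)) + 5) ^ d : ℕ)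
        : ℝ) ≤ C * (K : ℝ) ^ (2 * d) := by
      have h3 : 2 * (n + K * (2 * n + 2)) + 9 ≤ (4 * n + 13) * 2 * K := by nlinarith
      have h4 : 2 * (n + K * (2 * n + 2)) + 5 ≤ (4 * n + 13) * 2 * K := by omega
      have h5 : (2 * (n + K * (2 * n + 2)) + 9) ^ d * d * (2 * (n + K * (2 * n + 2)) + 5) ^ d ≤
          d * ((4 * n + 13) * 2) ^ (2 * d) * K ^ (2 * d) := by
        calc (2 * (n + K * (2 * n + 2)) + 9) ^ d * d * (2 * (n + K * (2 * n + 2)) + 5) ^ d
            ≤ ((4 * n + 13) * 2 * K) ^ d * d * ((4 * n + 13) * 2 * K) ^ d :=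
              Nat.mul_le_mul (Nat.mul_le_mul (Nat.pow_le_pow_left h3 d) le_rfl)
                (Nat.pow_le_pow_left h4 d)
          _ = d * ((4 * n + 13) * 2) ^ (2 * d) * K ^ (2 * d) := by
              rw [two_mul d, pow_add, pow_add, mul_pow]; ring
      rw [hC]
      exact_mod_cast h5
    have h6 := hdec K
    calc (1 : ℝ) ≤ _ := h1
      _ ≤ C * (K : ℝ) ^ (2 * d) * q ^ K := by
          refine mul_le_mul h2 h6 (hp0 _) ?_
          positivity
      _ = C * ((K : ℝ) ^ (2 * d) * q ^ K) := by ring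
  have hlim : Tendsto (fun K : ℕ => C * ((K : ℝ) ^ (2 * d) * q ^ K)) atTop (𝓝 (C * 0)) :=
    (tendsto_pow_const_mul_const_pow_of_abs_lt_one (2 * d)
      (by rw [abs_of_nonneg hq0]; exact hq1)).const_mul C
  rw [mul_zero] at hlim
  have h1 : (1 : ℝ) ≤ 0 :=
    ge_of_tendsto hlim (eventually_atTop.2 ⟨1, fun K hK => hbound K hK⟩)
  linarith

end Pool.Agent.R239.EA
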