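import Pool.Agent.R239.EA.E

/-!
# Energy differences written with all bonds
-/

set_option autoImplicit false

open Finset MeasureTheory ProbabilityTheory Filter Topology

namespace Pool.Agent.R239.EA

variable {d : ℕ}

lemma energy {J : (Fin d → ℤ) × Fin d → ℝ} {σ ρ : (Fin d → ℤ) → ℝ}
    (hσ : ∀ x, σ x = 1 ∨ σ x = -1) (hρ : ∀ x, ρ x = 1 ∨ ρ x = -1) :
    ∑ᶠ e : (Fin d → ℤ) × Fin d, J e * (σ e.1 * σ (nx e) - ρ e.1 * ρ (nx e)) =
      ∑ᶠ e ∈ dC {x | ρ x ≠ σ x}, 2 * (J e * (σ e.1 * σ (nx e))) := by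
  classical
  rw [finsum_mem_def]
  refine finsum_congr fun e => ?_
  by_cases he : e ∈ dC {x | ρ x ≠ σ x}
  · rw [Set.indicator_of_mem he]
    have h1 := prod_neg hρ hσ he
    have h2 : ρ e.1 * ρ (nx e) = -(σ e.1 * σ (nx e)) := by linarith
    rw [h2]; ring
  · rw [Set.indicator_of_notMem he]
    have h2 : ρ e.1 * ρ (nx e) = σ e.1 * σ (nx e) := by
      unfold dC at he
      simp only [Set.mem_ofPred_eq, not_not] at he
      by_cases h3 : ρ e.1 = σ e.1
      · have h4 : ρ (nx e) = σ (nx e) := by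
          by_contra hc
          exact (he.2 hc) h3
        rw [h3, h4]
      · have h4 : ρ (nx e) ≠ σ (nx e) := he.1 h3
        rcases hσ e.1 with a | a <;> rcases hσ (nx e) with b | b <;>
          rcases hρ e.1 with c | c <;> rcases hρ (nx e) with f | f <;>
          rw [a, c] at h3 <;> rw [b, f] at h4 <;> rw [a, b, c, f] <;>
          first | (exact absurd rfl h3) | (exact absurd rfl h4) | norm_num
    rw [h2]; ring

lemma two_pos {D : Set ((Fin d → ℤ) × Fin d)} {g : (Fin d → ℤ) × Fin d → ℝ} (hD : D.Finite) :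
    0 < ∑ᶠ e ∈ D, 2 * g e ↔ 0 < ∑ᶠ e ∈ D, g e := by
  rw [finsum_mem_eq_finite_toFinset_sum _ hD, finsum_mem_eq_finite_toFinset_sum _ hD,
    ← Finset.mul_sum]
  constructor <;> intro h <;> linarith

theorem GI_iff {B : Finset (Fin d → ℤ)} {J : (Fin d → ℤ) × Fin d → ℝ}
    {σ : (Fin d → ℤ) → ℝ} : GI B J σ ↔ (∀ x, σ x = 1 ∨ σ x = -1) ∧
      ∀ ρ : (Fin d → ℤ) → ℝ, (∀ x, ρ x = 1 ∨ ρ x = -1) → (∀ x, ρ x ≠ σ x → x ∈ B) → ρ ≠ σ →
        0 < ∑ᶠ e : (Fin d → ℤ) × Fin d, J e * (σ e.1 * σ (nx e) - ρ e.1 * ρ (nx e)) := by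
  classical
  constructor
  · intro h
    refine ⟨h.1, fun ρ hρ hB hne => ?_⟩
    have hfin : {x | ρ x ≠ σ x}.Finite := B.finite_toSet.subset fun x hx => hB x hx
    rw [energy h.1 hρ, two_pos (dC_finite hfin)]
    have h1 := h.2 hfin.toFinset (by
      by_contra hc
      rw [Finset.not_nonempty_iff_eq_empty] at hc
      refine hne (funext fun x => ?_)
      by_contra hx
      have : x ∈ hfin.toFinset := hfin.mem_toFinset.2 hx
      rw [hc] at this
      simp at this) (fun x hx => hB x (hfin.mem_toFinset.1 hx))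
    rw [hfin.coe_toFinset] at h1
    exact h1
  · intro h
    refine ⟨h.1, fun A hA hAB => ?_⟩
    set ρ : (Fin d → ℤ) → ℝ := fun x => if x ∈ A then -σ x else σ x with hρ
    have hρpm : ∀ x, ρ x = 1 ∨ ρ x = -1 := by
      intro x
      simp only [hρ]
      split_ifs
      · rcases h.1 x with h | h <;> rw [h] <;> simp
      · exact h.1 x
    have hS : ∀ x, ρ x ≠ σ x ↔ x ∈ A := by
      intro x
      simp only [hρ]
      by_cases hx : x ∈ A
      · rw [if_pos hx]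
        simp only [hx, iff_true]
        rcases h.1 x with h | h <;> rw [h] <;> norm_num
      · rw [if_neg hx]
        simp [hx]
    have hset : {x | ρ x ≠ σ x} = (A : Set (Fin d → ℤ)) := by
      ext x
      rw [Set.mem_ofPred_eq, hS, Finset.mem_coe]
    have h1 := h.2 ρ hρpm (fun x hx => hAB ((hS x).1 hx)) (by
      obtain ⟨x, hx⟩ := hA
      intro he
      exact (hS x).2 hx (congrFun he x))
    rw [energy h.1 hρpm, hset, two_pos (dC_finite A.finite_toSet)] at h1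
    exact h1

theorem GA_iff {J : (Fin d → ℤ) × Fin d → ℝ} {σ : (Fin d → ℤ) → ℝ} :
    GA J σ ↔ (∀ x, σ x = 1 ∨ σ x = -1) ∧
      ∀ ρ : (Fin d → ℤ) → ℝ, (∀ x, ρ x = 1 ∨ ρ x = -1) → {x | ρ x ≠ σ x}.Finite → ρ ≠ σ →
        0 < ∑ᶠ e : (Fin d → ℤ) × Fin d, J e * (σ e.1 * σ (nx e) - ρ e.1 * ρ (nx e)) := by
  classical
  constructor
  · intro h
    refine ⟨(h 0).1, fun ρ hρ hfin hne => ?_⟩
    refine (GI_iff.1 (h (hfin.toFinset.sup nrm))).2 ρ hρ (fun x hx => ?_) hne
    rw [mem_bx, sub_zero]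
    exact Finset.le_sup (f := nrm) (hfin.mem_toFinset.2 hx)
  · intro h n
    rw [GI_iff]
    refine ⟨h.1, fun ρ hρ hB hne => h.2 ρ hρ ?_ hne⟩
    exact (bx (0 : Fin d → ℤ) n).finite_toSet.subset fun x hx => hB x hx

lemma edge_iff {σ τ : (Fin d → ℤ) → ℝ} (hσ : ∀ x, σ x = 1 ∨ σ x = -1)
    (hτ : ∀ x, τ x = 1 ∨ τ x = -1) (e : (Fin d → ℤ) × Fin d) :
    e ∈ dC {x | σ x ≠ τ x} ↔ σ e.1 * σ (nx e) ≠ τ e.1 * τ (nx e) := by
  constructor
  · intro h
    rw [prod_neg hσ hτ h]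
    rcases hσ e.1 with h1 | h1 <;> rcases hσ (nx e) with h2 | h2 <;> rw [h1, h2] <;> norm_num
  · intro h
    by_contra hc
    apply h
    unfold dC at hc
    simp only [Set.mem_ofPred_eq, not_not] at hc
    by_cases h3 : σ e.1 = τ e.1
    · have h4 : σ (nx e) = τ (nx e) := by
        by_contra hx
        exact (hc.2 hx) h3
      rw [h3, h4]
    · have h4 : σ (nx e) ≠ τ (nx e) := hc.1 h3
      rcases hσ e.1 with a | a <;> rcases hσ (nx e) with b | b <;>
        rcases hτ e.1 with c | c <;> rcases hτ (nx e) with f | f <;>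
        rw [a, c] at h3 <;> rw [b, f] at h4 <;> rw [a, b, c, f] <;>
        first | (exact absurd rfl h3) | (exact absurd rfl h4) | norm_num

end Pool.Agent.R239.EA
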