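import Pool.Agent.R239.EA.F

/-!
# Influence on a box: coarse-grained chains and a lower bound on all scales
-/

set_option autoImplicit false

open Finset MeasureTheory ProbabilityTheory Filter Topology

namespace Pool.Agent.R239.EA

variable {d : ℕ}

/-! ### Chains for a coarse position -/

section coarse

variable {φ : (Fin d → ℤ) × Fin d → (Fin d → ℤ)}

lemma exit2 (hφ : ∀ e f, adj e f → nrm (φ f - φ e) ≤ 1) {D : Set ((Fin d → ℤ) × Fin d)}
    {w : Fin d → ℤ} {e f : (Fin d → ℤ) × Fin d} {s : ℕ}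
    (h : Relation.ReflTransGen (Rel D) e f) (hf : s ≤ nrm (φ f - w)) :
    (s ≤ nrm (φ e - w) ∧
      Relation.ReflTransGen (Rel (D ∩ {b | s ≤ nrm (φ b - w)})) e f) ∨
    ∃ g ∈ D, nrm (φ g - w) = s ∧
      Relation.ReflTransGen (Rel (D ∩ {b | s ≤ nrm (φ b - w)})) g f := by
  induction h using Relation.ReflTransGen.head_induction_on with
  | refl => exact Or.inl ⟨hf, Relation.ReflTransGen.refl⟩
  | @head a c hac _ ih =>
    rcases ih with ⟨h1, h2⟩ | h
    · by_cases ha : s ≤ nrm (φ a - w)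
      · exact Or.inl ⟨ha, Relation.ReflTransGen.head ⟨⟨hac.1, ha⟩, ⟨hac.2.1, h1⟩, hac.2.2⟩ h2⟩
      · have h4 := nrm_tri (φ c) (φ a) w
        have h5 := hφ _ _ hac.2.2
        exact Or.inr ⟨c, hac.2.1, by omega, h2⟩
    · exact Or.inr h

theorem chain_exists2 (hφ : ∀ e f, adj e f → nrm (φ f - φ e) ≤ 1) {s : ℕ} (hs : 1 ≤ s)
    (K : ℕ) : ∀ (D : Set ((Fin d → ℤ) × Fin d))
    (e f : (Fin d → ℤ) × Fin d), e ∈ D → Relation.ReflTransGen (Rel D) e f →
    K * s ≤ nrm (φ f - φ e) → ∃ l ∈ chains s K (φ e),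
      l.Pairwise (fun x y => s ≤ nrm (y - x)) ∧ ∀ x ∈ l, ∃ b ∈ D, φ b = x := by
  induction K with
  | zero =>
    intro D e f he _ _
    refine ⟨[φ e], by simp [chains], by simp, ?_⟩
    intro x hx
    rw [List.mem_singleton] at hx
    exact ⟨e, he, hx.symm⟩
  | succ K ih =>
    intro D e f he hp hK
    have hs' : s ≤ nrm (φ f - φ e) := by
      refine le_trans ?_ hK
      nlinarith
    rcases exit2 hφ hp hs' with ⟨h1, -⟩ | ⟨g, hg, hgs, hpg⟩
    · rw [sub_self, nrm_zero] at h1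
      omega
    · have h2 : K * s ≤ nrm (φ f - φ g) := by
        have h3 := nrm_tri (φ f) (φ g) (φ e)
        have h4 : (K + 1) * s = K * s + s := by ring
        omega
      obtain ⟨l, hl, hpw, hD⟩ := ih (D ∩ {b | s ≤ nrm (φ b - φ e)}) g f ⟨hg, hgs.ge⟩ hpg h2
      refine ⟨φ e :: l, ?_, ?_, ?_⟩
      · unfold chains
        simp only [Finset.mem_biUnion, Finset.mem_image]
        refine ⟨φ g - φ e, mem_sph.2 hgs, l, ?_, rfl⟩
        rw [add_sub_cancel]
        exact hl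
      · rw [List.pairwise_cons]
        refine ⟨fun x hx => ?_, hpw⟩
        obtain ⟨b, hb, hbx⟩ := hD x hx
        rw [← hbx]
        exact hb.2
      · intro x hx
        rcases List.mem_cons.1 hx with h | h
        · exact ⟨e, he, h.symm⟩
        · obtain ⟨b, hb, hbx⟩ := hD x h
          exact ⟨b, hb.1, hbx⟩

end coarse

/-- the block containing `x` -/
def cr (n : ℕ) (x : Fin d → ℤ) : Fin d → ℤ := fun i => (x i + n) / (2 * n + 1)

lemma cr_near (n : ℕ) (x : Fin d → ℤ) : nrm (x - (2 * (n : ℤ) + 1) • cr n x) ≤ n := by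
  rw [nrm_le]
  intro i
  rw [Pi.sub_apply, Pi.smul_apply, smul_eq_mul]
  unfold cr
  have h1 := Int.emod_add_mul_ediv (x i + n) (2 * (n : ℤ) + 1)
  have h2 := Int.emod_nonneg (x i + n) (show 2 * (n : ℤ) + 1 ≠ 0 by omega)
  have h3 := Int.emod_lt_of_pos (x i + n) (show 0 < 2 * (n : ℤ) + 1 by omega)
  rw [abs_le]
  constructor <;> linarith

lemma cr_step (n : ℕ) {x y : Fin d → ℤ} (h : nrm (y - x) ≤ 1) : nrm (cr n y - cr n x) ≤ 1 := by
  rw [nrm_le] at h ⊢
  intro i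
  have h0 := h i
  rw [Pi.sub_apply, abs_le] at h0 ⊢
  unfold cr
  push_cast at h0 ⊢
  have hpos : (0 : ℤ) < 2 * (n : ℤ) + 1 := by omega
  have h1 := Int.emod_add_mul_ediv (x i + n) (2 * (n : ℤ) + 1)
  have h2 := Int.emod_nonneg (x i + n) (show 2 * (n : ℤ) + 1 ≠ 0 by omega)
  have h3 := Int.emod_lt_of_pos (x i + n) hpos
  have h1' := Int.emod_add_mul_ediv (y i + n) (2 * (n : ℤ) + 1)
  have h2' := Int.emod_nonneg (y i + n) (show 2 * (n : ℤ) + 1 ≠ 0 by omega)
  have h3' := Int.emod_lt_of_pos (y i + n) hpos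
  set q := (x i + n) / (2 * (n : ℤ) + 1) with hq
  set q' := (y i + n) / (2 * (n : ℤ) + 1) with hq'
  constructor
  · by_contra hc
    have h5 : q' + 2 ≤ q := by linarith [not_le.1 hc]
    have h6 : (2 * (n : ℤ) + 1) * (q' + 2) ≤ (2 * (n : ℤ) + 1) * q :=
      mul_le_mul_of_nonneg_left h5 hpos.le
    nlinarith
  · by_contra hc
    have h5 : q + 2 ≤ q' := by linarith [not_le.1 hc]
    have h6 : (2 * (n : ℤ) + 1) * (q + 2) ≤ (2 * (n : ℤ) + 1) * q' :=
      mul_le_mul_of_nonneg_left h5 hpos.le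
    nlinarith

lemma nrm_smul (n : ℕ) (z : Fin d → ℤ) : nrm ((2 * (n : ℤ) + 1) • z) = (2 * n + 1) * nrm z := by
  apply le_antisymm
  · rw [nrm_le]
    intro i
    rw [Pi.smul_apply, smul_eq_mul, abs_mul, abs_of_pos (by omega)]
    push_cast
    exact mul_le_mul_of_nonneg_left ((nrm_le (x := z)).1 le_rfl i) (by omega)
  · have h1 : nrm z ≤ nrm ((2 * (n : ℤ) + 1) • z) / (2 * n + 1) := by
      rw [nrm_le]
      intro i
      have h2 := (nrm_le (x := (2 * (n : ℤ) + 1) • z)).1 le_rfl i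
      rw [Pi.smul_apply, smul_eq_mul, abs_mul, abs_of_pos (by omega)] at h2
      push_cast
      rw [Int.le_ediv_iff_mul_le (by omega)]
      linarith
    rw [mul_comm]
    exact (Nat.le_div_iff_mul_le (by omega)).1 h1

/-- the ground states in the box of radius `r` around `w` differ on the bond `e` -/
def IE (J : (Fin d → ℤ) × Fin d → ℝ) (w : Fin d → ℤ) (r : ℕ) (e : (Fin d → ℤ) × Fin d) : Prop :=
  ∃ σ τ, GI (bx w r) J σ ∧ GI (bx w r) J τ ∧ e ∈ dC {x | σ x ≠ τ x}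

/-- the ground states in the box of radius `r` around `w` differ on a bond of the box of radius
`n` -/
def IB (J : (Fin d → ℤ) × Fin d → ℝ) (w : Fin d → ℤ) (n r : ℕ) : Prop :=
  ∃ e : (Fin d → ℤ) × Fin d, nrm (e.1 - w) ≤ n ∧ IE J w r e

theorem ib_chain (hd : 2 ≤ d) {J : (Fin d → ℤ) × Fin d → ℝ} {n r s K m : ℕ} (hs : 1 ≤ s)
    (hm : 2 * n + r + (2 * n + 1) * (s * K) ≤ m) (h : Inf J 0 m) :
    ∃ l ∈ chains s K (0 : Fin d → ℤ),
      l.Pairwise (fun x y => s ≤ nrm (y - x)) ∧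
        ∀ x ∈ l, IB J ((2 * (n : ℤ) + 1) • x) n r := by
  obtain ⟨σ, τ, hσ, hτ, i, hi⟩ := h
  obtain ⟨f, hf, hfm⟩ := reach hd hσ hτ hi
  obtain ⟨g, hg, hgR, hp⟩ := hit (w := 0) (R := m - n - r) hf (by omega) hi
    (by rw [sub_self, nrm_zero]; omega)
  have hi' : ((0, i) : (Fin d → ℤ) × Fin d) ∈
      dC {x | σ x ≠ τ x} ∩ {b : (Fin d → ℤ) × Fin d | nrm (b.1 - 0) ≤ m - n - r} := by
    refine ⟨hi, ?_⟩
    simp only [Set.mem_ofPred_eq]
    rw [sub_self, nrm_zero]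
    omega
  have hφ : ∀ e f : (Fin d → ℤ) × Fin d, adj e f → nrm (cr n f.1 - cr n e.1) ≤ 1 :=
    fun e f hef => cr_step n hef.step
  have h0 : cr n (0 : Fin d → ℤ) = 0 := by
    funext j
    unfold cr
    simp only [Pi.zero_apply, zero_add]
    exact Int.ediv_eq_zero_of_lt (by omega) (by omega)
  have hfar : K * s ≤ nrm (cr n g.1 - cr n (0 : Fin d → ℤ)) := by
    rw [h0, sub_zero]
    have h1 := cr_near n g.1
    have h2 := nrm_add (g.1 - (2 * (n : ℤ) + 1) • cr n g.1) ((2 * (n : ℤ) + 1) • cr n g.1)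
    rw [sub_add_cancel, nrm_smul] at h2
    rw [sub_zero] at hgR
    have h3 : (2 * n + 1) * (s * K) ≤ (2 * n + 1) * nrm (cr n g.1) := by omega
    have h4 := Nat.le_of_mul_le_mul_left h3 (by omega)
    rw [mul_comm]
    exact h4
  obtain ⟨l, hl, hpw, hD⟩ := chain_exists2 (φ := fun b => cr n b.1) hφ hs K _
    (0, i) g hi' hp hfar
  refine ⟨l, by simpa only [h0] using hl, hpw, fun x hx => ?_⟩
  obtain ⟨b, ⟨hb1, hb2⟩, hbx⟩ := hD x hx
  simp only [Set.mem_ofPred_eq, sub_zero] at hb2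
  subst hbx
  have h1 := cr_near n b.1
  have h2 := nrm_tri ((2 * (n : ℤ) + 1) • cr n b.1) b.1 0
  rw [sub_zero, sub_zero, nrm_sub_comm] at h2
  have hsub : bx ((2 * (n : ℤ) + 1) • cr n b.1) r ⊆ bx 0 m := by
    apply bx_sub
    rw [sub_zero]
    have hmn : n + r ≤ m := by omega
    omega
  exact ⟨b, h1, σ, τ, hσ.mono hsub, hτ.mono hsub, hb1⟩

/-! ### Measurability and translation -/

lemma ie_iff {w : Fin d → ℤ} {n : ℕ} {J : (Fin d → ℤ) × Fin d → ℝ} {e : (Fin d → ℤ) × Fin d}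
    (he : e ∈ tb w n) :
    IE J w n e ↔ ∃ P ∈ (bx w (n + 1)).powerset, ∃ Q ∈ (bx w (n + 1)).powerset,
      GI (bx w n) J (spin P) ∧ GI (bx w n) J (spin Q) ∧
        e ∈ dC {x | spin P x ≠ spin Q x} := by
  classical
  constructor
  · rintro ⟨σ, τ, hσ, hτ, hi⟩
    have key : ∀ σ : (Fin d → ℤ) → ℝ, GI (bx w n) J σ → ∃ P ∈ (bx w (n + 1)).powerset,
        GI (bx w n) J (spin P) ∧ ∀ x ∈ bx w (n + 1), σ x = spin P x := by
      intro σ hσ
      have h1 : ∀ x ∈ bx w (n + 1), σ x = spin ((bx w (n + 1)).filter fun x => σ x = -1) x := by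
        intro x hx
        unfold spin
        by_cases h : σ x = -1
        · rw [if_pos (Finset.mem_filter.2 ⟨hx, h⟩), h]
        · have hn : x ∉ (bx w (n + 1)).filter fun x => σ x = -1 :=
            fun h' => h (Finset.mem_filter.1 h').2
          rw [if_neg hn]
          rcases hσ.1 x with h' | h'
          · exact h'
          · exact absurd h' h
      exact ⟨_, Finset.mem_powerset.2 (Finset.filter_subset _ _),
        GI_congr (fun _ _ => rfl) h1 (spin_pm _) hσ, h1⟩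
    obtain ⟨P, hP, hP1, hP2⟩ := key σ hσ
    obtain ⟨Q, hQ, hQ1, hQ2⟩ := key τ hτ
    refine ⟨P, hP, Q, hQ, hP1, hQ1, ?_⟩
    have h1 := tb_ends he
    unfold dC at hi ⊢
    simp only [Set.mem_ofPred_eq] at hi ⊢
    rw [← hP2 _ h1.1, ← hQ2 _ h1.1, ← hP2 _ h1.2, ← hQ2 _ h1.2]
    exact hi
  · rintro ⟨P, -, Q, -, h1, h2, h3⟩
    exact ⟨_, _, h1, h2, h3⟩

lemma ie_meas {w : Fin d → ℤ} {n : ℕ} {e : (Fin d → ℤ) × Fin d} (he : e ∈ tb w n) :
    MeasurableSet {J : (Fin d → ℤ) × Fin d → ℝ | IE J w n e} := by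
  classical
  have h1 : {J : (Fin d → ℤ) × Fin d → ℝ | IE J w n e} =
      ⋃ P ∈ (bx w (n + 1)).powerset, ⋃ Q ∈ (bx w (n + 1)).powerset,
        ({J | GI (bx w n) J (spin P)} ∩ {J | GI (bx w n) J (spin Q)} ∩
          {_J | e ∈ dC {x | spin P x ≠ spin Q x}}) := by
    ext J
    simp only [Set.mem_ofPred_eq, Set.mem_iUnion, Set.mem_inter_iff]
    rw [ie_iff he]
    constructor
    · rintro ⟨P, hP, Q, hQ, a, b, c⟩; exact ⟨P, hP, Q, hQ, ⟨a, b⟩, c⟩
    · rintro ⟨P, hP, Q, hQ, ⟨a, b⟩, c⟩; exact ⟨P, hP, Q, hQ, a, b, c⟩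
  rw [h1]
  refine Finset.measurableSet_biUnion _ fun P _ => Finset.measurableSet_biUnion _ fun Q _ => ?_
  exact ((GI_meas _ _).inter (GI_meas _ _)).inter (MeasurableSet.const _)

lemma ib_meas (w : Fin d → ℤ) {n r : ℕ} (hnr : n ≤ r) :
    MeasurableSet {J : (Fin d → ℤ) × Fin d → ℝ | IB J w n r} := by
  have h1 : {J : (Fin d → ℤ) × Fin d → ℝ | IB J w n r} =
      ⋃ e ∈ (bx w n) ×ˢ (Finset.univ : Finset (Fin d)), {J | IE J w r e} := by
    ext J
    simp only [Set.mem_iUnion, Set.mem_ofPred_eq, IB, Finset.mem_product, mem_bx,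
      Finset.mem_univ, and_true, exists_prop]
  rw [h1]
  refine Finset.measurableSet_biUnion _ fun e he => ie_meas ?_
  rw [mem_tb]
  left
  rw [Finset.mem_product, mem_bx] at he
  rw [mem_bx]
  exact he.1.trans hnr

lemma ib_congr {w : Fin d → ℤ} {n r : ℕ} {J J' : (Fin d → ℤ) × Fin d → ℝ}
    (hJ : ∀ e ∈ tb w r, J e = J' e) (h : IB J w n r) : IB J' w n r := by
  obtain ⟨e, he, σ, τ, hσ, hτ, hi⟩ := h
  exact ⟨e, he, σ, τ, GI_congr hJ (fun _ _ => rfl) hσ.1 hσ,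
    GI_congr hJ (fun _ _ => rfl) hτ.1 hτ, hi⟩

lemma ib_shift {w : Fin d → ℤ} {n r : ℕ} {J : (Fin d → ℤ) × Fin d → ℝ} (h : IB J w n r) :
    IB (shw w J) 0 n r := by
  obtain ⟨e, he, σ, τ, hσ, hτ, hi⟩ := h
  refine ⟨(e.1 - w, e.2), by simpa using he, _, _, GI_shift hσ, GI_shift hτ, ?_⟩
  unfold dC nx at hi ⊢
  simp only [Set.mem_ofPred_eq, sub_add_cancel] at hi ⊢
  rw [show e.1 - w + u e.2 + w = e.1 + u e.2 by rw [add_right_comm, sub_add_cancel]]
  exact hi

variable (μ : Measure ℝ) [IsProbabilityMeasure μ]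

lemma ib_le (w : Fin d → ℤ) {n r : ℕ} (hnr : n ≤ r) :
    Lw μ d {J | IB J w n r} ≤ Lw μ d {J | IB J 0 n r} := by
  rw [← (shw_law μ w).measure_preimage (ib_meas 0 hnr).nullMeasurableSet]
  exact measure_mono fun J hJ => ib_shift hJ

lemma list_le2 {n r s : ℕ} (hnr : n ≤ r) (hrs : 2 * r + 2 ≤ s * (2 * n + 1))
    (l : List (Fin d → ℤ)) (hl : l.Pairwise (fun x y => s ≤ nrm (y - x))) :
    Lw μ d {J | ∀ x ∈ l, IB J ((2 * (n : ℤ) + 1) • x) n r} ≤
      (Lw μ d {J | IB J 0 n r}) ^ l.length := by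
  classical
  induction l with
  | nil => simp
  | cons w l ih =>
    rw [List.pairwise_cons] at hl
    have h1 : {J : (Fin d → ℤ) × Fin d → ℝ | ∀ x ∈ w :: l, IB J ((2 * (n : ℤ) + 1) • x) n r} =
        {J | IB J ((2 * (n : ℤ) + 1) • w) n r} ∩
          {J | ∀ x ∈ l, IB J ((2 * (n : ℤ) + 1) • x) n r} := by
      ext J; simp
    have hm : MeasurableSet {J : (Fin d → ℤ) × Fin d → ℝ |
        ∀ x ∈ l, IB J ((2 * (n : ℤ) + 1) • x) n r} := by
      have : {J : (Fin d → ℤ) × Fin d → ℝ | ∀ x ∈ l, IB J ((2 * (n : ℤ) + 1) • x) n r} =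
          ⋂ x : {x // x ∈ l}, {J | IB J ((2 * (n : ℤ) + 1) • (x : Fin d → ℤ)) n r} := by
        ext J; simp
      rw [this]
      exact MeasurableSet.iInter fun x => ib_meas _ hnr
    rw [h1, indep_events μ (S := tb ((2 * (n : ℤ) + 1) • w) r)
      (T := l.toFinset.biUnion fun x => tb ((2 * (n : ℤ) + 1) • x) r) ?_
      (ib_meas _ hnr) hm ?_ ?_, List.length_cons, pow_succ, mul_comm]
    · exact mul_le_mul' (ih hl.2) (ib_le μ _ hnr)
    · rw [Finset.disjoint_biUnion_right]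
      intro x hx
      apply tb_disj
      rw [← smul_sub, nrm_smul]
      have h2 := hl.1 x (List.mem_toFinset.1 hx)
      calc 2 * r + 2 ≤ s * (2 * n + 1) := hrs
        _ = (2 * n + 1) * s := mul_comm _ _
        _ ≤ (2 * n + 1) * nrm (x - w) := Nat.mul_le_mul_left _ h2
    · intro J J' hJ h
      exact ib_congr hJ h
    · intro J J' hJ h x hx
      exact ib_congr (fun e he => hJ e (Finset.mem_biUnion.2 ⟨x, List.mem_toFinset.2 hx, he⟩))
        (h x hx)

theorem decay2 (hd : 2 ≤ d) {n r s K m : ℕ} (hnr : n ≤ r) (hrs : 2 * r + 2 ≤ s * (2 * n + 1))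
    (hm : 2 * n + r + (2 * n + 1) * (s * K) ≤ m) :
    Lw μ d {J | Inf J 0 m} ≤ ((sph d s).card : ENNReal) ^ K *
      (Lw μ d {J | IB J 0 n r}) ^ (K + 1) := by
  classical
  have hs : 1 ≤ s := by
    by_contra hc
    have : s = 0 := by omega
    subst this
    omega
  have h1 : {J : (Fin d → ℤ) × Fin d → ℝ | Inf J 0 m} ⊆
      ⋃ l ∈ (chains s K (0 : Fin d → ℤ)).filter
        (fun l => l.Pairwise (fun x y => s ≤ nrm (y - x))),
        {J | ∀ x ∈ l, IB J ((2 * (n : ℤ) + 1) • x) n r} := by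
    intro J hJ
    obtain ⟨l, hl, hpw, hx⟩ := ib_chain hd hs hm hJ
    simp only [Set.mem_iUnion]
    exact ⟨l, Finset.mem_filter.2 ⟨hl, hpw⟩, hx⟩
  refine (measure_mono h1).trans ((measure_biUnion_finset_le _ _).trans ?_)
  calc ∑ l ∈ (chains s K (0 : Fin d → ℤ)).filter
        (fun l => l.Pairwise (fun x y => s ≤ nrm (y - x))),
        Lw μ d {J | ∀ x ∈ l, IB J ((2 * (n : ℤ) + 1) • x) n r}
      ≤ ∑ l ∈ (chains s K (0 : Fin d → ℤ)).filter
        (fun l => l.Pairwise (fun x y => s ≤ nrm (y - x))),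
        (Lw μ d {J | IB J 0 n r}) ^ (K + 1) := by
        refine Finset.sum_le_sum fun l hl => ?_
        rw [Finset.mem_filter] at hl
        have := list_le2 μ hnr hrs l hl.2
        rw [length_chains hl.1] at this
        exact this
    _ = (((chains s K (0 : Fin d → ℤ)).filter
        (fun l => l.Pairwise (fun x y => s ≤ nrm (y - x)))).card : ENNReal) *
        (Lw μ d {J | IB J 0 n r}) ^ (K + 1) := by rw [Finset.sum_const, nsmul_eq_mul]
    _ ≤ ((sph d s).card : ENNReal) ^ K * (Lw μ d {J | IB J 0 n r}) ^ (K + 1) := by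
        refine mul_le_mul' ?_ le_rfl
        have h2 := (Finset.card_filter_le (chains s K (0 : Fin d → ℤ))
          (fun l => l.Pairwise (fun x y => s ≤ nrm (y - x)))).trans
          (card_chains s K 0)
        exact_mod_cast h2

theorem lower2 (hd : 2 ≤ d) (hat : ∀ x, μ {x} = 0) (hsym : μ.map (fun x => -x) = μ)
    {n r s : ℕ} (hnr : n ≤ r) (hrs : 2 * r + 2 ≤ s * (2 * n + 1)) :
    1 ≤ ((sph d s).card : ℝ) * (Lw μ d).real {J | IB J 0 n r} := by
  by_contra hcon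
  push Not at hcon
  set N : ℝ := ((sph d s).card : ℝ) with hN
  set p : ℕ → ℝ := fun m => (Lw μ d).real {J | Inf J 0 m} with hp
  set π : ℝ := (Lw μ d).real {J | IB J 0 n r} with hπ
  have hp0 : ∀ m, 0 ≤ p m := fun m => measureReal_nonneg
  have hπ0 : 0 ≤ π := measureReal_nonneg
  have hπ1 : π ≤ 1 := measureReal_le_one
  have hN0 : 0 ≤ N := Nat.cast_nonneg _
  set q : ℝ := N * π with hq
  have hq0 : 0 ≤ q := mul_nonneg hN0 hπ0
  have hq1 : q < 1 := hcon
  set A : ℕ := 2 * n + r + (2 * n + 1) * s with hA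
  have hdec : ∀ K : ℕ, 1 ≤ K → p (A * K) ≤ q ^ K := by
    intro K hK
    have hm : 2 * n + r + (2 * n + 1) * (s * K) ≤ A * K := by
      have h1 : 2 * n + r ≤ (2 * n + r) * K := Nat.le_mul_of_pos_right _ (by omega)
      have h2 : (2 * n + 1) * (s * K) = (2 * n + 1) * s * K := by ring
      have h3 : A * K = (2 * n + r) * K + (2 * n + 1) * s * K := by rw [hA]; ring
      rw [h2, h3]
      exact Nat.add_le_add_right h1 _
    have h1 := decay2 (d := d) μ hd hnr hrs hm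
    have h2 := ENNReal.toReal_mono (by
      refine ENNReal.mul_ne_top (ENNReal.pow_ne_top (ENNReal.natCast_ne_top _))
        (ENNReal.pow_ne_top (measure_ne_top _ _))) h1
    rw [ENNReal.toReal_mul, ENNReal.toReal_pow, ENNReal.toReal_pow, ENNReal.toReal_natCast] at h2
    calc p (A * K) ≤ N ^ K * π ^ (K + 1) := h2
      _ = q ^ K * π := by rw [hq, mul_pow, pow_succ]; ring
      _ ≤ q ^ K := mul_le_of_le_one_right (pow_nonneg hq0 _) hπ1
  have hpoly : ∀ m : ℕ, 1 ≤ (((2 * m + 9) ^ d * d * (2 * m + 5) ^ d : ℕ) : ℝ) * p m := by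
    intro m
    have h1 := poly_lower (d := d) μ hd hat hsym m
    have h2 := ENNReal.toReal_mono (by
      exact ENNReal.mul_ne_top (ENNReal.natCast_ne_top _) (measure_ne_top _ _)) h1
    rw [ENNReal.toReal_mul, ENNReal.toReal_natCast, ENNReal.toReal_one] at h2
    exact h2
  set C : ℝ := (d : ℝ) * ((2 * A + 9 : ℕ) : ℝ) ^ (2 * d) with hC
  have hbound : ∀ K : ℕ, 1 ≤ K → 1 ≤ C * ((K : ℝ) ^ (2 * d) * q ^ K) := by
    intro K hK
    have h1 := hpoly (A * K)
    have h2 : (((2 * (A * K) + 9) ^ d * d * (2 * (A * K) + 5) ^ d : ℕ) : ℝ) ≤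
        C * (K : ℝ) ^ (2 * d) := by
      have h3 : 2 * (A * K) + 9 ≤ (2 * A + 9) * K := by nlinarith
      have h4 : 2 * (A * K) + 5 ≤ (2 * A + 9) * K := by omega
      have h5 : (2 * (A * K) + 9) ^ d * d * (2 * (A * K) + 5) ^ d ≤
          d * (2 * A + 9) ^ (2 * d) * K ^ (2 * d) := by
        calc (2 * (A * K) + 9) ^ d * d * (2 * (A * K) + 5) ^ d
            ≤ ((2 * A + 9) * K) ^ d * d * ((2 * A + 9) * K) ^ d :=
              Nat.mul_le_mul (Nat.mul_le_mul (Nat.pow_le_pow_left h3 d) le_rfl)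
                (Nat.pow_le_pow_left h4 d)
          _ = d * (2 * A + 9) ^ (2 * d) * K ^ (2 * d) := by
              rw [two_mul d, pow_add, pow_add, mul_pow]; ring
      rw [hC]
      exact_mod_cast h5
    have h6 := hdec K hK
    calc (1 : ℝ) ≤ _ := h1
      _ ≤ C * (K : ℝ) ^ (2 * d) * q ^ K := by
          refine mul_le_mul h2 h6 (hp0 _) ?_
          positivity
      _ = C * ((K : ℝ) ^ (2 * d) * q ^ K) := by ring
  have hlim : Tendsto (fun K : ℕ => C * ((K : ℝ) ^ (2 * d) * q ^ K)) atTop (𝓝 (C * 0)) :=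
    (tendsto_pow_const_mul_const_pow_of_abs_lt_one (2 * d)
      (by rw [abs_of_nonneg hq0]; exact hq1)).const_mul C
  rw [mul_zero] at hlim
  have h1 : (1 : ℝ) ≤ 0 :=
    ge_of_tendsto hlim (eventually_atTop.2 ⟨1, fun K hK => hbound K hK⟩)
  linarith

lemma ib_zero {J : (Fin d → ℤ) × Fin d → ℝ} {w : Fin d → ℤ} {r : ℕ} :
    IB J w 0 r ↔ Inf J w r := by
  constructor
  · rintro ⟨e, he, σ, τ, h1, h2, h3⟩
    have h4 : e.1 = w := by
      have h5 := nrm_le.1 he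
      funext i
      have h6 := h5 i
      rw [Pi.sub_apply, abs_le] at h6
      push_cast at h6
      linarith [h6.1, h6.2]
    refine ⟨σ, τ, h1, h2, e.2, ?_⟩
    rw [← h4]
    exact h3
  · rintro ⟨σ, τ, h1, h2, i, h3⟩
    exact ⟨(w, i), by rw [sub_self, nrm_zero], σ, τ, h1, h2, h3⟩

end Pool.Agent.R239.EA
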