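import Pool.Agent.R239.EA.G

/-!
# A defect: every large square contains influenced bonds
-/

set_option autoImplicit false

open Finset MeasureTheory ProbabilityTheory Filter Topology

namespace Pool.Agent.R239.EA

variable {d : ℕ}

open Classical in
/-- the signs of the couplings in the set `K` are changed -/
noncomputable def flS (K : Set ((Fin d → ℤ) × Fin d)) (J : (Fin d → ℤ) × Fin d → ℝ) :
    (Fin d → ℤ) × Fin d → ℝ := fun e => if e ∈ K then -J e else J e

lemma Gn.flS {J : (Fin d → ℤ) × Fin d → ℝ} (hJ : Gn J) (K : Set ((Fin d → ℤ) × Fin d)) :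
    Gn (flS K J) := by
  classical
  intro T1 T2 hT hne heq
  set U1 : Finset ((Fin d → ℤ) × Fin d) := (T1.filter fun e => e ∉ K) ∪ (T2.filter fun e => e ∈ K)
    with hU1
  set U2 : Finset ((Fin d → ℤ) × Fin d) := (T2.filter fun e => e ∉ K) ∪ (T1.filter fun e => e ∈ K)
    with hU2
  have hd1 : Disjoint (T1.filter fun e => e ∉ K) (T2.filter fun e => e ∈ K) :=
    hT.mono (Finset.filter_subset _ _) (Finset.filter_subset _ _)
  have hd2 : Disjoint (T2.filter fun e => e ∉ K) (T1.filter fun e => e ∈ K) :=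
    hT.symm.mono (Finset.filter_subset _ _) (Finset.filter_subset _ _)
  have hsum : ∀ T : Finset ((Fin d → ℤ) × Fin d), ∑ e ∈ T, EA.flS K J e =
      ∑ e ∈ T.filter (fun e => e ∉ K), J e - ∑ e ∈ T.filter (fun e => e ∈ K), J e := by
    intro T
    rw [← Finset.sum_filter_add_sum_filter_not T (fun e => e ∈ K) (fun e => EA.flS K J e)]
    have h1 : ∑ e ∈ T.filter (fun e => e ∈ K), EA.flS K J e =
        -∑ e ∈ T.filter (fun e => e ∈ K), J e := by
      rw [← Finset.sum_neg_distrib]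
      refine Finset.sum_congr rfl fun e he => ?_
      unfold EA.flS
      rw [if_pos (Finset.mem_filter.1 he).2]
    have h2 : ∑ e ∈ T.filter (fun e => ¬ e ∈ K), EA.flS K J e =
        ∑ e ∈ T.filter (fun e => e ∉ K), J e := by
      refine Finset.sum_congr rfl fun e he => ?_
      unfold EA.flS
      rw [if_neg (Finset.mem_filter.1 he).2]
    rw [h1, h2]; ring
  refine hJ U1 U2 ?_ ?_ ?_
  · rw [Finset.disjoint_left]
    intro e h1 h2
    simp only [hU1, hU2, Finset.mem_union, Finset.mem_filter] at h1 h2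
    rcases h1 with h1 | h1 <;> rcases h2 with h2 | h2
    · exact (Finset.disjoint_left.1 hT) h1.1 h2.1
    · exact h1.2 h2.2
    · exact h2.2 h1.2
    · exact (Finset.disjoint_left.1 hT) h2.1 h1.1
  · obtain ⟨e, he⟩ := hne
    refine ⟨e, ?_⟩
    simp only [hU1, hU2, Finset.mem_union, Finset.mem_filter]
    by_cases hK : e ∈ K <;> rcases he with h | h <;> simp [h, hK]
  · rw [hU1, hU2, Finset.sum_union hd1, Finset.sum_union hd2]
    rw [hsum T1, hsum T2] at heq
    linarith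

/-- In a box whose ground states are not influenced, the ground states of `J` and of the couplings
changed on `K` differ exactly on `K`, if `K` looks empty or looks like the boundary of `H`. -/
lemma agree_on {J : (Fin d → ℤ) × Fin d → ℝ} {σ τ : (Fin d → ℤ) → ℝ}
    {K : Set ((Fin d → ℤ) × Fin d)} (hσ : GA J σ) (hτ : GA (flS K J) τ) {w : Fin d → ℤ}
    {n r : ℕ} (hnr : n ≤ r) (hIB : ¬ IB J w n r)
    (hK : (∀ e ∈ tb w r, e ∉ K) ∨ ∃ H : Set (Fin d → ℤ), ∀ e ∈ tb w r, e ∈ K ↔ e ∈ dC H)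
    {e : (Fin d → ℤ) × Fin d} (he : nrm (e.1 - w) ≤ n) :
    e ∈ dC {x | σ x ≠ τ x} ↔ e ∈ K := by
  classical
  have het : e ∈ tb w r := by
    rw [mem_tb, mem_bx]
    exact Or.inl (he.trans hnr)
  -- the first case is contained in the second one with `H = ∅`
  obtain ⟨H, hH⟩ : ∃ H : Set (Fin d → ℤ), ∀ e ∈ tb w r, e ∈ K ↔ e ∈ dC H := by
    rcases hK with h | h
    · refine ⟨∅, fun f hf => ?_⟩
      rw [dC_empty]
      simp [h f hf]
    · exact h
  set τ' : (Fin d → ℤ) → ℝ := fun x => if x ∈ H then -τ x else τ x with hτ'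
  have hτpm := (hτ 0).1
  have hσpm := (hσ 0).1
  have hpm : ∀ x, τ' x = 1 ∨ τ' x = -1 := by
    intro x
    simp only [hτ']
    split_ifs
    · rcases hτpm x with h | h <;> rw [h] <;> simp
    · exact hτpm x
  have hGI : GI (bx w r) J τ' := by
    refine ⟨hpm, fun A hA hAB => ?_⟩
    have h1 := (hτ.at w r).2 A hA hAB
    have h2 : ∑ᶠ f ∈ dC (A : Set (Fin d → ℤ)), flS K J f * (τ f.1 * τ (nx f)) =
        ∑ᶠ f ∈ dC (A : Set (Fin d → ℤ)), J f * (τ' f.1 * τ' (nx f)) := by
      refine finsum_mem_congr rfl fun f hf => ?_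
      have h3 := hH f (dC_sub_tb hAB hf)
      unfold dC at h3
      simp only [Set.mem_ofPred_eq] at h3
      unfold flS
      simp only [hτ']
      by_cases ha : f.1 ∈ H <;> by_cases hb : nx f ∈ H <;> simp only [ha, hb] at h3 <;>
        simp only [ha, hb, h3] <;> simp
    rw [h2] at h1
    exact h1
  have hno : e ∉ dC {x | σ x ≠ τ' x} := fun h => hIB ⟨e, he, σ, τ', hσ.at w r, hGI, h⟩
  have hset : {x | σ x ≠ τ' x} = symmDiff {x | σ x ≠ τ x} H := by
    ext x
    simp only [Set.mem_symmDiff, Set.mem_ofPred_eq, hτ']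
    by_cases hx : x ∈ H
    · rw [if_pos hx]
      rcases hσpm x with h1 | h1 <;> rcases hτpm x with h2 | h2 <;> rw [h1, h2] <;>
        norm_num [hx]
    · rw [if_neg hx]
      simp [hx]
  rw [hset, dC_symmDiff, not_not] at hno
  rw [hno, ← hH e het]

/-- the centres of the boxes on a line -/
def ce (n : ℕ) (s : Fin d → ℤ) (k : Fin d) (l : ℕ) : Fin d → ℤ :=
  s + ((l : ℤ) * (2 * n + 1) + n) • u k

lemma near_ce (n : ℕ) (s : Fin d → ℤ) (k : Fin d) (t : ℕ) :
    nrm ((s + (t : ℤ) • u k) - ce n s k (t / (2 * n + 1))) ≤ n := by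
  have h1 : (s + (t : ℤ) • u k) - ce n s k (t / (2 * n + 1)) =
      ((t : ℤ) - ((t / (2 * n + 1) : ℕ) * (2 * n + 1) + n)) • u k := by
    unfold ce
    rw [add_sub_add_left_eq_sub, ← sub_smul]
  rw [h1, nrm_le]
  intro i
  rw [Pi.smul_apply, smul_eq_mul]
  have h2 := Nat.div_add_mod t (2 * n + 1)
  have h3 := Nat.mod_lt t (show 0 < 2 * n + 1 by omega)
  have h4 : |(t : ℤ) - ((t / (2 * n + 1) : ℕ) * (2 * n + 1) + n)| ≤ n := by
    have h5 : (t : ℤ) = (2 * n + 1) * (t / (2 * n + 1) : ℕ) + (t % (2 * n + 1) : ℕ) := by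
      exact_mod_cast h2.symm
    have h6 : ((t % (2 * n + 1) : ℕ) : ℤ) < 2 * n + 1 := by exact_mod_cast h3
    have h7 : (0 : ℤ) ≤ ((t % (2 * n + 1) : ℕ) : ℤ) := Nat.cast_nonneg _
    rw [abs_le]
    constructor <;> linarith
  by_cases hi : i = k
  · rw [hi, u_same, mul_one]; exact h4
  · rw [u_ne hi, mul_zero, abs_zero]; positivity

lemma walk {S : Set (Fin d → ℤ)} {s : Fin d → ℤ} {k : Fin d} {T : ℕ}
    (h : ∀ t : ℕ, t < T → ((s + (t : ℤ) • u k, k) : (Fin d → ℤ) × Fin d) ∉ dC S) :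
    s ∈ S ↔ s + (T : ℤ) • u k ∈ S := by
  induction T with
  | zero => simp
  | succ T ih =>
    rw [ih (fun t ht => h t (by omega))]
    have h1 := h T (by omega)
    unfold dC nx at h1
    simp only [Set.mem_ofPred_eq, not_not] at h1
    rw [h1]
    push_cast
    rw [add_smul, one_smul, add_assoc]

/-- Around every site `c`, in every coordinate plane and at every scale, one of the boxes on the
square is influenced. -/
theorem square (hd : 2 ≤ d) {J : (Fin d → ℤ) × Fin d → ℝ} (hJ : Gn J) (c : Fin d → ℤ)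
    {i j : Fin d} (hij : i ≠ j) {n r m : ℕ} (hnr : n ≤ r) (hm : 2 * r + 3 ≤ m * (2 * n + 1)) :
    ∃ l < m,
      IB J (ce n (c - ((r : ℤ) + 1) • u i - (r : ℤ) • u j) i l) n r ∨
      IB J (ce n (c - ((r : ℤ) + 1) • u i - (r : ℤ) • u j) j l) n r ∨
      IB J (ce n (c - ((r : ℤ) + 1) • u i + ((r : ℤ) + 1) • u j) i l) n r ∨
      IB J (ce n (c + ((r : ℤ) + 2) • u i - (r : ℤ) • u j) j l) n r := by
  classical
  by_contra hcon
  push Not at hcon
  have hji : j ≠ i := hij.symm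
  set H : Set (Fin d → ℤ) := {v | v i ≤ c i} with hH
  have hdH : ∀ e : (Fin d → ℤ) × Fin d, e ∈ dC H ↔ e.2 = i ∧ e.1 i = c i := by
    intro e
    unfold dC nx
    simp only [Set.mem_ofPred_eq, hH, Pi.add_apply]
    by_cases he : e.2 = i
    · rw [he, u_same]
      simp only [true_and]
      omega
    · rw [u_ne (fun h => he h.symm)]
      simp [he]
  set K : Set ((Fin d → ℤ) × Fin d) := {e | e ∈ dC H ∧ e.1 j ≤ c j} with hK
  obtain ⟨σ, hσ⟩ := exists_GA hd hJ
  obtain ⟨τ, hτ⟩ := exists_GA hd (hJ.flS K)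
  -- where the bonds touching a box are
  have htb : ∀ (w : Fin d → ℤ) (e : (Fin d → ℤ) × Fin d), e ∈ tb w r → e.2 = i →
      |e.1 j - w j| ≤ r ∧ -(r : ℤ) - 1 ≤ e.1 i - w i ∧ e.1 i - w i ≤ r := by
    intro w e he he2
    rw [mem_tb, mem_bx', mem_bx'] at he
    rcases he with h | h
    · refine ⟨h j, ?_, ?_⟩
      · have := (abs_le.1 (h i)).1; linarith
      · exact (abs_le.1 (h i)).2
    · have h1 := h j
      have h2 := h i
      unfold nx at h1 h2
      rw [Pi.add_apply, he2, u_ne hji, add_zero] at h1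
      rw [Pi.add_apply, he2, u_same, abs_le] at h2
      exact ⟨h1, by linarith [h2.1], by linarith [h2.2]⟩
  -- boxes with centre at height at most `c j - r`
  have hlow : ∀ w : Fin d → ℤ, w j = c j - r →
      (∀ e ∈ tb w r, e ∉ K) ∨ ∃ H : Set (Fin d → ℤ), ∀ e ∈ tb w r, e ∈ K ↔ e ∈ dC H := by
    intro w hw
    right
    refine ⟨H, fun e he => ?_⟩
    simp only [hK, Set.mem_ofPred_eq]
    refine ⟨fun h => h.1, fun h => ⟨h, ?_⟩⟩
    have h1 := (htb w e he ((hdH e).1 h).1).1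
    have h2 := (abs_le.1 h1).2
    linarith
  have hhigh : ∀ w : Fin d → ℤ, w j = c j + r + 1 →
      (∀ e ∈ tb w r, e ∉ K) ∨ ∃ H : Set (Fin d → ℤ), ∀ e ∈ tb w r, e ∈ K ↔ e ∈ dC H := by
    intro w hw
    left
    intro e he h
    have h1 := (htb w e he ((hdH e).1 h.1).1).1
    have h2 := (abs_le.1 h1).1
    have h3 := h.2
    linarith
  have hleft : ∀ w : Fin d → ℤ, w i = c i - r - 1 →
      (∀ e ∈ tb w r, e ∉ K) ∨ ∃ H : Set (Fin d → ℤ), ∀ e ∈ tb w r, e ∈ K ↔ e ∈ dC H := by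
    intro w hw
    left
    intro e he h
    have h0 := (hdH e).1 h.1
    have h1 := (htb w e he h0.1).2.2
    linarith [h0.2]
  have hright : ∀ w : Fin d → ℤ, w i = c i + r + 2 →
      (∀ e ∈ tb w r, e ∉ K) ∨ ∃ H : Set (Fin d → ℤ), ∀ e ∈ tb w r, e ∈ K ↔ e ∈ dC H := by
    intro w hw
    left
    intro e he h
    have h0 := (hdH e).1 h.1
    have h1 := (htb w e he h0.1).2.1
    linarith [h0.2]
  -- coordinates on the lines
  have hline : ∀ (s : Fin d → ℤ) (k : Fin d) (t : ℕ), t < m * (2 * n + 1) →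
      (∀ w : Fin d → ℤ, (∀ a, a ≠ k → w a = s a) →
        (∀ e ∈ tb w r, e ∉ K) ∨ ∃ H : Set (Fin d → ℤ), ∀ e ∈ tb w r, e ∈ K ↔ e ∈ dC H) →
      (∀ l < m, ¬ IB J (ce n s k l) n r) →
      (((s + (t : ℤ) • u k, k) : (Fin d → ℤ) × Fin d) ∈ dC {x | σ x ≠ τ x} ↔
        ((s + (t : ℤ) • u k, k) : (Fin d → ℤ) × Fin d) ∈ K) := by
    intro s k t ht hw hno
    have hl : t / (2 * n + 1) < m := (Nat.div_lt_iff_lt_mul (by omega)).2 ht
    refine agree_on hσ hτ hnr (hno _ hl) (hw _ fun a ha => ?_) (near_ce n s k t)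
    unfold ce
    rw [Pi.add_apply, Pi.smul_apply, u_ne ha, smul_zero, add_zero]
  set a : Fin d → ℤ := c - ((r : ℤ) + 1) • u i - (r : ℤ) • u j with ha
  set b : Fin d → ℤ := c + ((r : ℤ) + 2) • u i - (r : ℤ) • u j with hb
  set d' : Fin d → ℤ := c - ((r : ℤ) + 1) • u i + ((r : ℤ) + 1) • u j with hd'
  have hai : a i = c i - r - 1 := by
    simp only [ha, Pi.sub_apply, Pi.smul_apply, u_same, u_ne hij, smul_eq_mul]; ring
  have haj : a j = c j - r := by
    simp only [ha, Pi.sub_apply, Pi.smul_apply, u_same, u_ne hji, smul_eq_mul]; ring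
  have hbi : b i = c i + r + 2 := by
    simp only [hb, Pi.sub_apply, Pi.add_apply, Pi.smul_apply, u_same, u_ne hij, smul_eq_mul]; ring
  have hdj : d' j = c j + r + 1 := by
    simp only [hd', Pi.sub_apply, Pi.add_apply, Pi.smul_apply, u_same, u_ne hji, smul_eq_mul]; ring
  have hab : a + ((2 * r + 3 : ℕ) : ℤ) • u i = b := by
    funext k
    simp only [ha, hb, Pi.sub_apply, Pi.add_apply, Pi.smul_apply, smul_eq_mul]
    push_cast; ring
  have had : a + ((2 * r + 1 : ℕ) : ℤ) • u j = d' := by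
    funext k
    simp only [ha, hd', Pi.sub_apply, Pi.add_apply, Pi.smul_apply, smul_eq_mul]
    push_cast; ring
  have hbd : b + ((2 * r + 1 : ℕ) : ℤ) • u j = d' + ((2 * r + 3 : ℕ) : ℤ) • u i := by
    funext k
    simp only [hb, hd', Pi.sub_apply, Pi.add_apply, Pi.smul_apply, smul_eq_mul]
    push_cast; ring
  set S : Set (Fin d → ℤ) := {x | σ x ≠ τ x} with hS
  -- left side
  have hL : a ∈ S ↔ d' ∈ S := by
    rw [← had]
    refine walk fun t ht => ?_
    rw [hline a j t (by omega) (fun w hw => hleft w (by rw [hw i hij, hai]))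
      (fun l hl => (hcon l hl).2.1)]
    intro h
    exact hji ((hdH _).1 h.1).1
  -- right side
  have hR : b ∈ S ↔ d' + ((2 * r + 3 : ℕ) : ℤ) • u i ∈ S := by
    rw [← hbd]
    refine walk fun t ht => ?_
    rw [hline b j t (by omega) (fun w hw => hright w (by rw [hw i hij, hbi]))
      (fun l hl => (hcon l hl).2.2.2)]
    intro h
    exact hji ((hdH _).1 h.1).1
  -- top side
  have hT : d' ∈ S ↔ d' + ((2 * r + 3 : ℕ) : ℤ) • u i ∈ S := by
    refine walk fun t ht => ?_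
    rw [hline d' i t (by omega) (fun w hw => hhigh w (by rw [hw j hji, hdj]))
      (fun l hl => (hcon l hl).2.2.1)]
    intro h
    have h1 := h.2
    simp only [Pi.add_apply, Pi.smul_apply, u_ne hji, smul_zero, add_zero, hdj] at h1
    linarith
  -- bottom side
  have hbot : ∀ t : ℕ, t < m * (2 * n + 1) →
      (((a + (t : ℤ) • u i, i) : (Fin d → ℤ) × Fin d) ∈ dC S ↔ t = r + 1) := by
    intro t ht
    rw [hline a i t ht (fun w hw => hlow w (by rw [hw j hji, haj])) (fun l hl => (hcon l hl).1)]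
    simp only [hK, Set.mem_ofPred_eq]
    rw [hdH]
    simp only [Pi.add_apply, Pi.smul_apply, u_same, u_ne hji, smul_eq_mul, mul_one, mul_zero,
      add_zero, hai, haj, true_and]
    omega
  have hB1 : a ∈ S ↔ a + ((r + 1 : ℕ) : ℤ) • u i ∈ S :=
    walk fun t ht => by rw [hbot t (by omega)]; omega
  have hB2 : ¬ (a + ((r + 1 : ℕ) : ℤ) • u i ∈ S ↔ a + ((r + 2 : ℕ) : ℤ) • u i ∈ S) := by
    have h1 := (hbot (r + 1) (by omega)).2 rfl
    unfold dC nx at h1
    simp only [Set.mem_ofPred_eq] at h1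
    have h2 : a + ((r + 2 : ℕ) : ℤ) • u i = a + ((r + 1 : ℕ) : ℤ) • u i + u i := by
      rw [add_assoc, show ((r + 2 : ℕ) : ℤ) = ((r + 1 : ℕ) : ℤ) + 1 by push_cast; ring, add_smul,
        one_smul]
    rw [h2]
    exact h1
  have hB3 : a + ((r + 2 : ℕ) : ℤ) • u i ∈ S ↔ b ∈ S := by
    have h1 : a + ((r + 2 : ℕ) : ℤ) • u i + ((r + 1 : ℕ) : ℤ) • u i = b := by
      rw [← hab, add_assoc, ← add_smul]
      congr 2
      push_cast; ring
    rw [← h1]
    refine walk fun t ht => ?_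
    have h2 : a + ((r + 2 : ℕ) : ℤ) • u i + (t : ℤ) • u i = a + ((r + 2 + t : ℕ) : ℤ) • u i := by
      rw [add_assoc, ← add_smul, Nat.cast_add (r + 2) t]
    rw [h2, hbot (r + 2 + t) (by omega)]
    omega
  exact hB2 (hB1.symm.trans (hL.trans (hT.trans (hR.symm.trans hB3.symm))))

variable (μ : Measure ℝ) [IsProbabilityMeasure μ]

theorem lower3 (hd : 2 ≤ d) (hat : ∀ x, μ {x} = 0) {n r m : ℕ} (hnr : n ≤ r)
    (hm : 2 * r + 3 ≤ m * (2 * n + 1)) :
    1 ≤ (4 * (m : ℝ)) * (Lw μ d).real {J | IB J 0 n r} := by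
  classical
  set i : Fin d := ⟨0, by omega⟩ with hi
  set j : Fin d := ⟨1, by omega⟩ with hj
  have hij : i ≠ j := by
    intro h
    have := congrArg Fin.val h
    simp [hi, hj] at this
  set f : ℕ → Fin 4 → (Fin d → ℤ) := fun l => ![
      ce n ((0 : Fin d → ℤ) - ((r : ℤ) + 1) • u i - (r : ℤ) • u j) i l,
      ce n ((0 : Fin d → ℤ) - ((r : ℤ) + 1) • u i - (r : ℤ) • u j) j l,
      ce n ((0 : Fin d → ℤ) - ((r : ℤ) + 1) • u i + ((r : ℤ) + 1) • u j) i l,
      ce n ((0 : Fin d → ℤ) + ((r : ℤ) + 2) • u i - (r : ℤ) • u j) j l] with hf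
  have hae : ∀ᵐ J ∂(Lw μ d), J ∈ ⋃ l ∈ Finset.range m, ⋃ k ∈ (Finset.univ : Finset (Fin 4)),
      {J | IB J (f l k) n r} := by
    filter_upwards [gn_ae (d := d) μ hat] with J hJ
    obtain ⟨l, hl, h⟩ := square hd hJ 0 hij hnr hm
    simp only [Set.mem_iUnion, Finset.mem_range, Finset.mem_univ, exists_prop, true_and]
    refine ⟨l, hl, ?_⟩
    rcases h with h | h | h | h
    · exact ⟨0, h⟩
    · exact ⟨1, h⟩
    · exact ⟨2, h⟩
    · exact ⟨3, h⟩
  have h1 : (1 : ENNReal) ≤ ∑ l ∈ Finset.range m, ∑ k : Fin 4, Lw μ d {J | IB J (f l k) n r} := by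
    calc (1 : ENNReal) = Lw μ d Set.univ := measure_univ.symm
      _ ≤ Lw μ d (⋃ l ∈ Finset.range m, ⋃ k ∈ (Finset.univ : Finset (Fin 4)),
          {J | IB J (f l k) n r}) := by
          refine measure_mono_ae ?_
          filter_upwards [hae] with J hJ _
          exact hJ
      _ ≤ ∑ l ∈ Finset.range m, Lw μ d (⋃ k ∈ (Finset.univ : Finset (Fin 4)),
          {J | IB J (f l k) n r}) := measure_biUnion_finset_le _ _
      _ ≤ _ := Finset.sum_le_sum fun l _ => measure_biUnion_finset_le _ _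
  have h2 : (1 : ENNReal) ≤ ((4 * m : ℕ) : ENNReal) * Lw μ d {J | IB J 0 n r} := by
    refine h1.trans ?_
    calc ∑ l ∈ Finset.range m, ∑ k : Fin 4, Lw μ d {J | IB J (f l k) n r}
        ≤ ∑ l ∈ Finset.range m, ∑ k : Fin 4, Lw μ d {J | IB J 0 n r} :=
          Finset.sum_le_sum fun l _ => Finset.sum_le_sum fun k _ => ib_le μ _ hnr
      _ = _ := by
          simp only [Finset.sum_const, Finset.card_univ, Fintype.card_fin, Finset.card_range,
            nsmul_eq_mul]
          push_cast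
          ring
  have h3 := ENNReal.toReal_mono (by
    exact ENNReal.mul_ne_top (ENNReal.natCast_ne_top _) (measure_ne_top _ _)) h2
  rw [ENNReal.toReal_mul, ENNReal.toReal_natCast, ENNReal.toReal_one] at h3
  push_cast at h3
  exact h3

end Pool.Agent.R239.EA
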