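import Pool.Agent.R239.EA.H

/-!
# No local rule determines the ground state
-/

set_option autoImplicit false

open Finset MeasureTheory ProbabilityTheory Filter Topology

namespace Pool.Agent.R239.EA

variable {d : ℕ}

/-! ### The parity argument on the square -/

/-- the half hyperplane -/
def Kh (c : Fin d → ℤ) (i j : Fin d) : Set ((Fin d → ℤ) × Fin d) :=
  {e | (e.2 = i ∧ e.1 i = c i) ∧ e.1 j ≤ c j}

/-- bottom left corner -/
def pa (c : Fin d → ℤ) (i j : Fin d) (r : ℕ) : Fin d → ℤ :=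
  c - ((r : ℤ) + 1) • u i - (r : ℤ) • u j

/-- bottom right corner -/
def pb (c : Fin d → ℤ) (i j : Fin d) (r : ℕ) : Fin d → ℤ :=
  c + ((r : ℤ) + 2) • u i - (r : ℤ) • u j

/-- top left corner -/
def pd (c : Fin d → ℤ) (i j : Fin d) (r : ℕ) : Fin d → ℤ :=
  c - ((r : ℤ) + 1) • u i + ((r : ℤ) + 1) • u j

section corners

variable (c : Fin d → ℤ) {i j : Fin d} (r : ℕ)

lemma pa_i (hij : i ≠ j) : pa c i j r i = c i - r - 1 := by
  simp only [pa, Pi.sub_apply, Pi.smul_apply, u_same, u_ne hij, smul_eq_mul]; ring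

lemma pa_j (hij : i ≠ j) : pa c i j r j = c j - r := by
  simp only [pa, Pi.sub_apply, Pi.smul_apply, u_same, u_ne hij.symm, smul_eq_mul]; ring

lemma pb_i (hij : i ≠ j) : pb c i j r i = c i + r + 2 := by
  simp only [pb, Pi.sub_apply, Pi.add_apply, Pi.smul_apply, u_same, u_ne hij, smul_eq_mul]; ring

lemma pd_j (hij : i ≠ j) : pd c i j r j = c j + r + 1 := by
  simp only [pd, Pi.sub_apply, Pi.add_apply, Pi.smul_apply, u_same, u_ne hij.symm, smul_eq_mul]
  ring

end corners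

theorem parity {c : Fin d → ℤ} {i j : Fin d} (hij : i ≠ j) {r T : ℕ} (hT : 2 * r + 3 ≤ T)
    {S : Set (Fin d → ℤ)}
    (ha : ∀ t : ℕ, t < T → (((pa c i j r + (t : ℤ) • u i, i) : (Fin d → ℤ) × Fin d) ∈ dC S ↔
      ((pa c i j r + (t : ℤ) • u i, i) : (Fin d → ℤ) × Fin d) ∈ Kh c i j))
    (hl : ∀ t : ℕ, t < T → (((pa c i j r + (t : ℤ) • u j, j) : (Fin d → ℤ) × Fin d) ∈ dC S ↔
      ((pa c i j r + (t : ℤ) • u j, j) : (Fin d → ℤ) × Fin d) ∈ Kh c i j))
    (ht : ∀ t : ℕ, t < T → (((pd c i j r + (t : ℤ) • u i, i) : (Fin d → ℤ) × Fin d) ∈ dC S ↔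
      ((pd c i j r + (t : ℤ) • u i, i) : (Fin d → ℤ) × Fin d) ∈ Kh c i j))
    (hr : ∀ t : ℕ, t < T → (((pb c i j r + (t : ℤ) • u j, j) : (Fin d → ℤ) × Fin d) ∈ dC S ↔
      ((pb c i j r + (t : ℤ) • u j, j) : (Fin d → ℤ) × Fin d) ∈ Kh c i j)) : False := by
  have hji : j ≠ i := hij.symm
  have hai := pa_i c r hij
  have haj := pa_j c r hij
  have hdj := pd_j c r hij
  have hab : pa c i j r + ((2 * r + 3 : ℕ) : ℤ) • u i = pb c i j r := by
    funext k
    simp only [pa, pb, Pi.sub_apply, Pi.add_apply, Pi.smul_apply, smul_eq_mul]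
    push_cast; ring
  have had : pa c i j r + ((2 * r + 1 : ℕ) : ℤ) • u j = pd c i j r := by
    funext k
    simp only [pa, pd, Pi.sub_apply, Pi.add_apply, Pi.smul_apply, smul_eq_mul]
    push_cast; ring
  have hbd : pb c i j r + ((2 * r + 1 : ℕ) : ℤ) • u j =
      pd c i j r + ((2 * r + 3 : ℕ) : ℤ) • u i := by
    funext k
    simp only [pb, pd, Pi.sub_apply, Pi.add_apply, Pi.smul_apply, smul_eq_mul]
    push_cast; ring
  have hL : pa c i j r ∈ S ↔ pd c i j r ∈ S := by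
    rw [← had]
    refine walk fun t ht' => ?_
    rw [hl t (by omega)]
    intro h
    exact hji h.1.1
  have hR : pb c i j r ∈ S ↔ pd c i j r + ((2 * r + 3 : ℕ) : ℤ) • u i ∈ S := by
    rw [← hbd]
    refine walk fun t ht' => ?_
    rw [hr t (by omega)]
    intro h
    exact hji h.1.1
  have hTop : pd c i j r ∈ S ↔ pd c i j r + ((2 * r + 3 : ℕ) : ℤ) • u i ∈ S := by
    refine walk fun t ht' => ?_
    rw [ht t (by omega)]
    intro h
    have h1 := h.2
    simp only [Pi.add_apply, Pi.smul_apply, u_ne hji, smul_zero, add_zero, hdj] at h1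
    linarith
  have hbot : ∀ t : ℕ, t < T →
      (((pa c i j r + (t : ℤ) • u i, i) : (Fin d → ℤ) × Fin d) ∈ dC S ↔ t = r + 1) := by
    intro t ht'
    rw [ha t ht']
    simp only [Kh, Set.mem_ofPred_eq, Pi.add_apply, Pi.smul_apply, u_same, u_ne hji, smul_eq_mul,
      mul_one, mul_zero, add_zero, hai, haj, true_and]
    omega
  have hB1 : pa c i j r ∈ S ↔ pa c i j r + ((r + 1 : ℕ) : ℤ) • u i ∈ S :=
    walk fun t ht' => by rw [hbot t (by omega)]; omega
  have hB2 : ¬ (pa c i j r + ((r + 1 : ℕ) : ℤ) • u i ∈ S ↔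
      pa c i j r + ((r + 2 : ℕ) : ℤ) • u i ∈ S) := by
    have h1 := (hbot (r + 1) (by omega)).2 rfl
    unfold dC nx at h1
    simp only [Set.mem_ofPred_eq] at h1
    have h2 : pa c i j r + ((r + 2 : ℕ) : ℤ) • u i =
        pa c i j r + ((r + 1 : ℕ) : ℤ) • u i + u i := by
      rw [add_assoc, show ((r + 2 : ℕ) : ℤ) = ((r + 1 : ℕ) : ℤ) + 1 by push_cast; ring, add_smul,
        one_smul]
    rw [h2]
    exact h1
  have hB3 : pa c i j r + ((r + 2 : ℕ) : ℤ) • u i ∈ S ↔ pb c i j r ∈ S := by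
    have h1 : pa c i j r + ((r + 2 : ℕ) : ℤ) • u i + ((r + 1 : ℕ) : ℤ) • u i = pb c i j r := by
      rw [← hab, add_assoc, ← add_smul]
      congr 2
      push_cast; ring
    rw [← h1]
    refine walk fun t ht' => ?_
    have h2 : pa c i j r + ((r + 2 : ℕ) : ℤ) • u i + (t : ℤ) • u i =
        pa c i j r + ((r + 2 + t : ℕ) : ℤ) • u i := by
      rw [add_assoc, ← add_smul, Nat.cast_add (r + 2) t]
    rw [h2, hbot (r + 2 + t) (by omega)]
    omega
  exact hB2 (hB1.symm.trans (hL.trans (hTop.trans (hR.symm.trans hB3.symm))))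

/-! ### Where the half hyperplane is seen from the boxes on the square -/

lemma tb_coord {w : Fin d → ℤ} {r : ℕ} {e : (Fin d → ℤ) × Fin d} {i j : Fin d} (hij : i ≠ j)
    (he : e ∈ tb w r) (he2 : e.2 = i) :
    |e.1 j - w j| ≤ r ∧ -(r : ℤ) - 1 ≤ e.1 i - w i ∧ e.1 i - w i ≤ r := by
  rw [mem_tb, mem_bx', mem_bx'] at he
  rcases he with h | h
  · refine ⟨h j, ?_, ?_⟩
    · have := (abs_le.1 (h i)).1; linarith
    · exact (abs_le.1 (h i)).2
  · have h1 := h j
    have h2 := h i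
    unfold nx at h1 h2
    rw [Pi.add_apply, he2, u_ne hij.symm, add_zero] at h1
    rw [Pi.add_apply, he2, u_same, abs_le] at h2
    exact ⟨h1, by linarith [h2.1], by linarith [h2.2]⟩

section see

variable {c : Fin d → ℤ} {i j : Fin d} {r : ℕ} {w : Fin d → ℤ}

lemma see_low (hij : i ≠ j) (hw : w j = c j - r) :
    ∀ e ∈ tb w r, e ∈ Kh c i j ↔ (e.2 = i ∧ e.1 i = c i) := by
  intro e he
  refine ⟨fun h => h.1, fun h => ⟨h, ?_⟩⟩
  have h1 := (tb_coord hij he h.1).1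
  have h2 := (abs_le.1 h1).2
  linarith

lemma see_high (hij : i ≠ j) (hw : w j = c j + r + 1) : ∀ e ∈ tb w r, e ∉ Kh c i j := by
  intro e he h
  have h1 := (tb_coord hij he h.1.1).1
  have h2 := (abs_le.1 h1).1
  have h3 := h.2
  linarith

lemma see_left (hij : i ≠ j) (hw : w i = c i - r - 1) : ∀ e ∈ tb w r, e ∉ Kh c i j := by
  intro e he h
  have h1 := (tb_coord hij he h.1.1).2.2
  linarith [h.1.2]

lemma see_right (hij : i ≠ j) (hw : w i = c i + r + 2) : ∀ e ∈ tb w r, e ∉ Kh c i j := by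
  intro e he h
  have h1 := (tb_coord hij he h.1.1).2.1
  linarith [h.1.2]

end see

/-! ### Gauge transformations -/

open Classical in
/-- the spins in `G` are flipped -/
noncomputable def flip (G : Set (Fin d → ℤ)) (σ : (Fin d → ℤ) → ℝ) (x : Fin d → ℤ) : ℝ :=
  if x ∈ G then -σ x else σ x

lemma flip_pm {G : Set (Fin d → ℤ)} {σ : (Fin d → ℤ) → ℝ} (hσ : ∀ x, σ x = 1 ∨ σ x = -1)
    (x : Fin d → ℤ) : flip G σ x = 1 ∨ flip G σ x = -1 := by
  unfold flip
  split_ifs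
  · rcases hσ x with h | h <;> rw [h] <;> simp
  · exact hσ x

lemma flip_prod (G : Set (Fin d → ℤ)) (J : (Fin d → ℤ) × Fin d → ℝ) (σ : (Fin d → ℤ) → ℝ)
    (e : (Fin d → ℤ) × Fin d) :
    flS (dC G) J e * (flip G σ e.1 * flip G σ (nx e)) = J e * (σ e.1 * σ (nx e)) := by
  unfold flS flip dC
  by_cases ha : e.1 ∈ G <;> by_cases hb : nx e ∈ G <;>
    simp only [Set.mem_ofPred_eq, ha, hb] <;> simp

lemma GI.gauge {B : Finset (Fin d → ℤ)} {J : (Fin d → ℤ) × Fin d → ℝ} {σ : (Fin d → ℤ) → ℝ}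
    (h : GI B J σ) (G : Set (Fin d → ℤ)) : GI B (flS (dC G) J) (flip G σ) := by
  refine ⟨flip_pm h.1, fun A hA hAB => ?_⟩
  simp only [flip_prod]
  exact h.2 A hA hAB

lemma flS_flS (K : Set ((Fin d → ℤ) × Fin d)) (J : (Fin d → ℤ) × Fin d → ℝ) :
    flS K (flS K J) = J := by
  funext e
  unfold flS
  by_cases h : e ∈ K <;> simp [h]

lemma flip_dC {G : Set (Fin d → ℤ)} {σ : (Fin d → ℤ) → ℝ} (hσ : ∀ x, σ x = 1 ∨ σ x = -1)
    (e : (Fin d → ℤ) × Fin d) :
    flip G σ e.1 * flip G σ (nx e) = σ e.1 * σ (nx e) ↔ e ∉ dC G := by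
  unfold flip dC
  have h0 : σ e.1 * σ (nx e) ≠ 0 := by
    rcases hσ e.1 with h1 | h1 <;> rcases hσ (nx e) with h2 | h2 <;> rw [h1, h2] <;> norm_num
  by_cases ha : e.1 ∈ G <;> by_cases hb : nx e ∈ G <;>
    simp only [Set.mem_ofPred_eq, ha, hb, if_true, if_false] <;> simp
  · rw [neg_eq_iff_add_eq_zero]
    intro h
    apply h0
    linarith
  · rw [neg_eq_iff_add_eq_zero]
    intro h
    apply h0
    linarith

/-- ground state of the box with boundary condition `η` -/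
def BG (M : ℕ) (η : (Fin d → ℤ) → ℝ) (J : (Fin d → ℤ) × Fin d → ℝ) (σ : (Fin d → ℤ) → ℝ) : Prop :=
  GI (bx 0 M) J σ ∧ ∀ x, x ∉ bx 0 M → σ x = η x

lemma exists_BG (hd : 2 ≤ d) {J : (Fin d → ℤ) × Fin d → ℝ} (hJ : Gn J) (M : ℕ)
    {η : (Fin d → ℤ) → ℝ} (hη : ∀ x, η x = 1 ∨ η x = -1) : ∃ σ, BG M η J σ := by
  obtain ⟨σ, hσ, hout⟩ := exists_box hd (hJ.flS (dC {x | η x = -1})) M
  refine ⟨flip {x | η x = -1} σ, ?_, fun x hx => ?_⟩
  · have h1 := hσ.gauge {x | η x = -1}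
    rw [flS_flS] at h1
    exact h1
  · unfold flip
    rw [hout x hx]
    rcases hη x with h | h
    · rw [if_neg (by rw [Set.mem_ofPred_eq, h]; norm_num), h]
    · rw [if_pos (by rw [Set.mem_ofPred_eq]; exact h), h]

lemma BG.unique {M : ℕ} {η : (Fin d → ℤ) → ℝ} {J : (Fin d → ℤ) × Fin d → ℝ}
    {σ τ : (Fin d → ℤ) → ℝ} (h1 : BG M η J σ) (h2 : BG M η J τ) : σ = τ := by
  classical
  by_contra hne
  have hsub : {x | σ x ≠ τ x} ⊆ (bx (0 : Fin d → ℤ) M : Set (Fin d → ℤ)) := by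
    intro x hx
    by_contra hc
    rw [Finset.mem_coe] at hc
    exact hx ((h1.2 x hc).trans (h2.2 x hc).symm)
  have hfin : {x | σ x ≠ τ x}.Finite := (bx (0 : Fin d → ℤ) M).finite_toSet.subset hsub
  obtain ⟨x, hx⟩ : ∃ x, σ x ≠ τ x := by
    by_contra hc
    push Not at hc
    exact hne (funext hc)
  refine contra (A := hfin.toFinset) h1.1 h2.1 ⟨x, hfin.mem_toFinset.2 hx⟩ ?_ (fun _ _ => rfl) ?_
  · intro x hx
    exact Finset.mem_coe.1 (hsub (hfin.mem_toFinset.1 hx))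
  · rw [hfin.coe_toFinset]

lemma BG.gauge {M : ℕ} {η : (Fin d → ℤ) → ℝ} {J : (Fin d → ℤ) × Fin d → ℝ}
    {σ : (Fin d → ℤ) → ℝ} (h : BG M η J σ) {G : Set (Fin d → ℤ)}
    (hG : G ⊆ (bx (0 : Fin d → ℤ) M : Finset (Fin d → ℤ))) :
    BG M η (flS (dC G) J) (flip G σ) := by
  refine ⟨h.1.gauge G, fun x hx => ?_⟩
  unfold flip
  rw [if_neg (fun h' => hx (Finset.mem_coe.1 (hG h')))]
  exact h.2 x hx

/-- the rule `F` fails in the box of radius `n` around `w` -/
def Er (M : ℕ) (η : (Fin d → ℤ) → ℝ)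
    (F : (Fin d → ℤ) → ((Fin d → ℤ) × Fin d → ℝ) → (Fin d → ℤ) × Fin d → ℝ) (n : ℕ)
    (w : Fin d → ℤ) (J : (Fin d → ℤ) × Fin d → ℝ) : Prop :=
  ∃ σ, BG M η J σ ∧ ∃ e : (Fin d → ℤ) × Fin d, nrm (e.1 - w) ≤ n ∧ F w J e ≠ σ e.1 * σ (nx e)

/-- the rule is local -/
def Loc (F : (Fin d → ℤ) → ((Fin d → ℤ) × Fin d → ℝ) → (Fin d → ℤ) × Fin d → ℝ) (r : ℕ) : Prop :=
  ∀ (w : Fin d → ℤ) (J J' : (Fin d → ℤ) × Fin d → ℝ), (∀ e ∈ tb w r, J e = J' e) →
    ∀ e, F w J e = F w J' e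

theorem fails (hd : 2 ≤ d) {J : (Fin d → ℤ) × Fin d → ℝ} (hJ : Gn J) {η : (Fin d → ℤ) → ℝ}
    (hη : ∀ x, η x = 1 ∨ η x = -1) {M : ℕ} {c : Fin d → ℤ} {i j : Fin d} (hij : i ≠ j)
    {n r m : ℕ} (hnr : n ≤ r) (hm : 2 * r + 3 ≤ m * (2 * n + 1))
    (hM : nrm c + m * (2 * n + 1) + r + 1 ≤ M)
    {F : (Fin d → ℤ) → ((Fin d → ℤ) × Fin d → ℝ) → (Fin d → ℤ) × Fin d → ℝ} (hF : Loc F r) :
    ∃ l < m,
      (Er M η F n (ce n (pa c i j r) i l) (flS (Kh c i j) J) ∨
        Er M η F n (ce n (pa c i j r) i l)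
          (flS (dC {v | v i ≤ c i ∧ v ∈ bx (0 : Fin d → ℤ) M}) J)) ∨
      (Er M η F n (ce n (pa c i j r) j l) J ∨
        Er M η F n (ce n (pa c i j r) j l) (flS (Kh c i j) J)) ∨
      (Er M η F n (ce n (pd c i j r) i l) J ∨
        Er M η F n (ce n (pd c i j r) i l) (flS (Kh c i j) J)) ∨
      (Er M η F n (ce n (pb c i j r) j l) J ∨
        Er M η F n (ce n (pb c i j r) j l) (flS (Kh c i j) J)) := by
  classical
  by_contra hcon
  push Not at hcon
  have hji : j ≠ i := hij.symm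
  set H : Set (Fin d → ℤ) := {v | v i ≤ c i ∧ v ∈ bx (0 : Fin d → ℤ) M} with hH
  set K := Kh c i j with hK
  obtain ⟨σ, hσ⟩ := exists_BG hd hJ M hη
  obtain ⟨τ, hτ⟩ := exists_BG hd (hJ.flS K) M hη
  have hσH : BG M η (flS (dC H) J) (flip H σ) := hσ.gauge fun v hv => Finset.mem_coe.2 hv.2
  have hσpm := hσ.1.1
  have hτpm := hτ.1.1
  -- rules that do not fail
  have rule : ∀ (w : Fin d → ℤ) (J' : (Fin d → ℤ) × Fin d → ℝ) (ρ : (Fin d → ℤ) → ℝ),
      ¬ Er M η F n w J' → BG M η J' ρ → ∀ e : (Fin d → ℤ) × Fin d, nrm (e.1 - w) ≤ n →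
      F w J' e = ρ e.1 * ρ (nx e) := by
    intro w J' ρ h1 h2 e he
    by_contra hne
    exact h1 ⟨ρ, h2, e, he, hne⟩
  have hdc : ∀ e : (Fin d → ℤ) × Fin d, (e ∈ dC {x | σ x ≠ τ x} ↔
      σ e.1 * σ (nx e) ≠ τ e.1 * τ (nx e)) := edge_iff hσpm hτpm
  -- boxes which do not see the half hyperplane
  have hno : ∀ w : Fin d → ℤ, (∀ e ∈ tb w r, e ∉ K) → ¬ Er M η F n w J →
      ¬ Er M η F n w (flS K J) → ∀ e : (Fin d → ℤ) × Fin d, nrm (e.1 - w) ≤ n →
      (e ∈ dC {x | σ x ≠ τ x} ↔ e ∈ K) := by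
    intro w hw h1 h2 e he
    have het : e ∈ tb w r := by
      rw [mem_tb, mem_bx]
      exact Or.inl (he.trans hnr)
    have h3 := rule w J σ h1 hσ e he
    have h4 := rule w _ τ h2 hτ e he
    have h5 : F w J e = F w (flS K J) e := by
      refine hF w _ _ (fun f hf => ?_) e
      unfold flS
      rw [if_neg (hw f hf)]
    rw [hdc, ← h3, ← h4, h5]
    simp [hw e het]
  -- boxes on the bottom line
  have hyes : ∀ w : Fin d → ℤ, w j = c j - r → nrm (w - c) ≤ m * (2 * n + 1) →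
      ¬ Er M η F n w (flS K J) → ¬ Er M η F n w (flS (dC H) J) →
      ∀ e : (Fin d → ℤ) × Fin d, nrm (e.1 - w) ≤ n → (e ∈ dC {x | σ x ≠ τ x} ↔ e ∈ K) := by
    intro w hwj hwc h1 h2 e he
    have het : e ∈ tb w r := by
      rw [mem_tb, mem_bx]
      exact Or.inl (he.trans hnr)
    have hbox : bx w (r + 1) ⊆ bx (0 : Fin d → ℤ) M := by
      apply bx_sub
      rw [sub_zero]
      have := nrm_add (w - c) c
      rw [sub_add_cancel] at this
      omega
    have hHK : ∀ f ∈ tb w r, f ∈ K ↔ f ∈ dC H := by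
      intro f hf
      rw [see_low hij hwj f hf]
      have hends := tb_ends hf
      have e1 := hbox hends.1
      have e2 := hbox hends.2
      unfold dC
      simp only [hH, Set.mem_ofPred_eq, e1, e2, and_true]
      unfold nx
      by_cases hfi : f.2 = i
      · rw [hfi, Pi.add_apply, u_same]
        simp only [true_and]
        omega
      · rw [Pi.add_apply, u_ne (fun h => hfi h.symm)]
        simp [hfi]
    have h3 := rule w _ τ h1 hτ e he
    have h4 := rule w _ _ h2 hσH e he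
    have h5 : F w (flS K J) e = F w (flS (dC H) J) e := by
      refine hF w _ _ (fun f hf => ?_) e
      unfold flS
      by_cases hfK : f ∈ K
      · rw [if_pos hfK, if_pos ((hHK f hf).1 hfK)]
      · rw [if_neg hfK, if_neg (fun h => hfK ((hHK f hf).2 h))]
    have h6 : τ e.1 * τ (nx e) = flip H σ e.1 * flip H σ (nx e) := by rw [← h3, h5, h4]
    rw [hdc, hHK e het, h6]
    have h7 := flip_dC (G := H) hσpm e
    constructor
    · intro h
      by_contra hc
      exact h (h7.2 hc).symm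
    · intro h heq
      exact (h7.1 heq.symm) h
  -- lines
  have hdiv : ∀ t : ℕ, t < m * (2 * n + 1) → t / (2 * n + 1) < m := fun t ht =>
    (Nat.div_lt_iff_lt_mul (by omega)).2 ht
  have hcoord : ∀ (s : Fin d → ℤ) (k a : Fin d) (l : ℕ), a ≠ k → ce n s k l a = s a := by
    intro s k a l ha
    unfold ce
    rw [Pi.add_apply, Pi.smul_apply, u_ne ha, smul_zero, add_zero]
  refine parity (c := c) hij hm (S := {x | σ x ≠ τ x}) ?_ ?_ ?_ ?_
  · intro t ht
    have hl := hdiv t ht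
    refine hyes _ ?_ ?_ (hcon _ hl).1.1 (hcon _ hl).1.2 _ (near_ce n _ _ t)
    · rw [hcoord _ _ _ _ hji, pa_j c r hij]
    · rw [nrm_le]
      intro a
      have hl' : ((t / (2 * n + 1) : ℕ) : ℤ) * (2 * n + 1) + (2 * n + 1) ≤ m * (2 * n + 1) := by
        have : (t / (2 * n + 1) + 1) * (2 * n + 1) ≤ m * (2 * n + 1) :=
          Nat.mul_le_mul_right _ hl
        have h2 : (t / (2 * n + 1)) * (2 * n + 1) + (2 * n + 1) ≤ m * (2 * n + 1) := by
          rw [add_mul, one_mul] at this; exact this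
        exact_mod_cast h2
      have hl0 : (0 : ℤ) ≤ ((t / (2 * n + 1) : ℕ) : ℤ) * (2 * n + 1) := by positivity
      have hm' : 2 * (r : ℤ) + 3 ≤ m * (2 * n + 1) := by exact_mod_cast hm
      have hn0 : (0 : ℤ) ≤ n := Nat.cast_nonneg n
      have hr0 : (0 : ℤ) ≤ r := Nat.cast_nonneg r
      push_cast
      by_cases hai : a = i
      · subst hai
        have e1 : (ce n (pa c a j r) a (t / (2 * n + 1)) - c) a =
            ((t / (2 * n + 1) : ℕ) : ℤ) * (2 * n + 1) + n - r - 1 := by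
          unfold ce
          rw [Pi.sub_apply, Pi.add_apply, Pi.smul_apply, u_same, pa_i c r hij]
          simp only [smul_eq_mul]
          ring
        rw [e1, abs_le]
        constructor <;> linarith
      · rw [Pi.sub_apply, hcoord _ _ _ _ hai]
        by_cases haj : a = j
        · subst haj
          rw [pa_j c r hij, abs_le]
          constructor <;> linarith
        · unfold pa
          simp only [Pi.sub_apply, Pi.smul_apply, u_ne hai, u_ne haj, smul_zero, sub_zero, sub_self,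
            abs_zero]
          linarith
  · intro t ht
    have hl := hdiv t ht
    refine hno _ (see_left hij ?_) (hcon _ hl).2.1.1 (hcon _ hl).2.1.2 _ (near_ce n _ _ t)
    rw [hcoord _ _ _ _ hij, pa_i c r hij]
  · intro t ht
    have hl := hdiv t ht
    refine hno _ (see_high hij ?_) (hcon _ hl).2.2.1.1 (hcon _ hl).2.2.1.2 _ (near_ce n _ _ t)
    rw [hcoord _ _ _ _ hji, pd_j c r hij]
  · intro t ht
    have hl := hdiv t ht
    refine hno _ (see_right hij ?_) (hcon _ hl).2.2.2.1 (hcon _ hl).2.2.2.2 _ (near_ce n _ _ t)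
    rw [hcoord _ _ _ _ hij, pb_i c r hij]

variable (μ : Measure ℝ) [IsProbabilityMeasure μ]

lemma flS_law (hsym : μ.map (fun x => -x) = μ) (T : Set ((Fin d → ℤ) × Fin d)) :
    MeasurePreserving (flS T) (Lw μ d) (Lw μ d) := by
  classical
  have hm : ∀ e : (Fin d → ℤ) × Fin d, Measurable (fun x : ℝ => if e ∈ T then -x else x) := by
    intro e
    by_cases h : e ∈ T
    · simp only [h, if_true]; fun_prop
    · simp only [h, if_false]; fun_prop
  have h1 := Measure.infinitePi_map_pi (μ := fun _ : (Fin d → ℤ) × Fin d => μ) hm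
  have h2 : (fun e : (Fin d → ℤ) × Fin d => μ.map (fun x : ℝ => if e ∈ T then -x else x)) =
      fun _ => μ := by
    funext e
    by_cases h : e ∈ T
    · simp only [h, if_true]; exact hsym
    · simp only [h, if_false]; exact Measure.map_id
  refine ⟨measurable_pi_lambda _ fun e => ?_, ?_⟩
  · exact (hm e).comp (measurable_pi_apply e)
  · unfold Lw
    rw [h2] at h1
    exact h1

lemma flS_le (hsym : μ.map (fun x => -x) = μ) (T : Set ((Fin d → ℤ) × Fin d))
    (A : Set ((Fin d → ℤ) × Fin d → ℝ)) : Lw μ d (flS T ⁻¹' A) ≤ Lw μ d A := by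
  have h := flS_law (d := d) μ hsym T
  have h1 := Measure.le_map_apply (μ := Lw μ d) h.measurable.aemeasurable A
  rw [h.map_eq] at h1
  exact h1

theorem local_rule (hd : 2 ≤ d) (hat : ∀ x, μ {x} = 0) (hsym : μ.map (fun x => -x) = μ)
    {η : (Fin d → ℤ) → ℝ} (hη : ∀ x, η x = 1 ∨ η x = -1) {M : ℕ} {c : Fin d → ℤ} {i j : Fin d}
    (hij : i ≠ j) {n r m : ℕ} (hnr : n ≤ r) (hm : 2 * r + 3 ≤ m * (2 * n + 1))
    (hM : nrm c + m * (2 * n + 1) + r + 1 ≤ M)
    {F : (Fin d → ℤ) → ((Fin d → ℤ) × Fin d → ℝ) → (Fin d → ℤ) × Fin d → ℝ} (hF : Loc F r)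
    (q : ENNReal) (hq : ∀ l < m, ∀ w ∈ ({ce n (pa c i j r) i l, ce n (pa c i j r) j l,
      ce n (pd c i j r) i l, ce n (pb c i j r) j l} : Set (Fin d → ℤ)),
      Lw μ d {J | Er M η F n w J} ≤ q) :
    1 ≤ ((8 * m : ℕ) : ENNReal) * q := by
  classical
  set E : (Fin d → ℤ) → Set ((Fin d → ℤ) × Fin d → ℝ) := fun w => {J | Er M η F n w J} with hE
  set K := Kh c i j with hK
  set H := dC {v : Fin d → ℤ | v i ≤ c i ∧ v ∈ bx (0 : Fin d → ℤ) M} with hH
  set A : ℕ → Set ((Fin d → ℤ) × Fin d → ℝ) := fun l =>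
    (flS K ⁻¹' E (ce n (pa c i j r) i l) ∪ flS H ⁻¹' E (ce n (pa c i j r) i l)) ∪
    ((E (ce n (pa c i j r) j l) ∪ flS K ⁻¹' E (ce n (pa c i j r) j l)) ∪
    ((E (ce n (pd c i j r) i l) ∪ flS K ⁻¹' E (ce n (pd c i j r) i l)) ∪
    (E (ce n (pb c i j r) j l) ∪ flS K ⁻¹' E (ce n (pb c i j r) j l)))) with hA
  have hae : ∀ᵐ J ∂(Lw μ d), J ∈ ⋃ l ∈ Finset.range m, A l := by
    filter_upwards [gn_ae (d := d) μ hat] with J hJ
    obtain ⟨l, hl, h⟩ := fails hd hJ hη hij hnr hm hM hF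
    simp only [Set.mem_iUnion, Finset.mem_range, exists_prop]
    exact ⟨l, hl, h⟩
  have hAl : ∀ l < m, Lw μ d (A l) ≤ 8 * q := by
    intro l hl
    have h1 : Lw μ d (E (ce n (pa c i j r) i l)) ≤ q := hq l hl _ (by simp)
    have h2 : Lw μ d (E (ce n (pa c i j r) j l)) ≤ q := hq l hl _ (by simp)
    have h3 : Lw μ d (E (ce n (pd c i j r) i l)) ≤ q := hq l hl _ (by simp)
    have h4 : Lw μ d (E (ce n (pb c i j r) j l)) ≤ q := hq l hl _ (by simp)
    have k1 := (flS_le μ hsym K (E (ce n (pa c i j r) i l))).trans h1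
    have k1' := (flS_le μ hsym H (E (ce n (pa c i j r) i l))).trans h1
    have k2 := (flS_le μ hsym K (E (ce n (pa c i j r) j l))).trans h2
    have k3 := (flS_le μ hsym K (E (ce n (pd c i j r) i l))).trans h3
    have k4 := (flS_le μ hsym K (E (ce n (pb c i j r) j l))).trans h4
    calc Lw μ d (A l) ≤ (q + q) + ((q + q) + ((q + q) + (q + q))) := by
          refine (measure_union_le _ _).trans (add_le_add ?_ ?_)
          · exact (measure_union_le _ _).trans (add_le_add k1 k1')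
          · refine (measure_union_le _ _).trans (add_le_add ?_ ?_)
            · exact (measure_union_le _ _).trans (add_le_add h2 k2)
            · refine (measure_union_le _ _).trans (add_le_add ?_ ?_)
              · exact (measure_union_le _ _).trans (add_le_add h3 k3)
              · exact (measure_union_le _ _).trans (add_le_add h4 k4)
      _ = 8 * q := by ring
  calc (1 : ENNReal) = Lw μ d Set.univ := measure_univ.symm
    _ ≤ Lw μ d (⋃ l ∈ Finset.range m, A l) := by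
        refine measure_mono_ae ?_
        filter_upwards [hae] with J hJ _
        exact hJ
    _ ≤ ∑ l ∈ Finset.range m, Lw μ d (A l) := measure_biUnion_finset_le _ _
    _ ≤ ∑ l ∈ Finset.range m, 8 * q :=
        Finset.sum_le_sum fun l hl => hAl l (Finset.mem_range.1 hl)
    _ = ((8 * m : ℕ) : ENNReal) * q := by
        simp only [Finset.sum_const, Finset.card_range, nsmul_eq_mul]
        push_cast
        ring

end Pool.Agent.R239.EA
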