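import Pool.Agent.R239.EA.I

/-!
# Infinite paths of influenced bonds
-/

set_option autoImplicit false

open Finset MeasureTheory ProbabilityTheory Filter Topology

namespace Pool.Agent.R239.EA

/-! ### Trails in the dual of the square lattice -/

/-- `(false, a, b)` is the bond from `(a, b)` to `(a + 1, b)`, `(true, a, b)` the bond from `(a, b)`
to `(a, b + 1)` -/
abbrev Ed := Bool × ℤ × ℤ

/-- the four sides of the unit square with corner `q` -/
def Sd (q : ℤ × ℤ) (e : Ed) : Prop :=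
  e = (false, q.1, q.2) ∨ e = (true, q.1, q.2) ∨ e = (false, q.1, q.2 + 1) ∨
    e = (true, q.1 + 1, q.2)

/-- the number of marked sides modulo two -/
def cnt (g : Ed → ZMod 2) (q : ℤ × ℤ) : ZMod 2 :=
  g (false, q.1, q.2) + g (true, q.1, q.2) + g (false, q.1, q.2 + 1) + g (true, q.1 + 1, q.2)

lemma cnt_add (g h : Ed → ZMod 2) (x : ℤ × ℤ) : cnt (g + h) x = cnt g x + cnt h x := by
  unfold cnt
  simp only [Pi.add_apply]
  ring

lemma cnt_false (a b : ℤ) (x : ℤ × ℤ) : cnt (Pi.single (false, a, b) 1) x =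
    (if x = (a, b) then 1 else 0) + (if x = (a, b - 1) then 1 else 0) := by
  obtain ⟨x1, x2⟩ := x
  unfold cnt
  simp only [Pi.single_apply, Prod.mk.injEq, true_and, Bool.true_eq_false, false_and, if_false,
    add_zero]
  congr 1
  refine if_congr ?_ rfl rfl
  omega

lemma cnt_true (a b : ℤ) (x : ℤ × ℤ) : cnt (Pi.single (true, a, b) 1) x =
    (if x = (a, b) then 1 else 0) + (if x = (a - 1, b) then 1 else 0) := by
  obtain ⟨x1, x2⟩ := x
  unfold cnt
  simp only [Pi.single_apply, Prod.mk.injEq, true_and, Bool.false_eq_true, false_and, if_false,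
    add_zero, zero_add]
  congr 1
  refine if_congr ?_ rfl rfl
  omega

lemma two_cases (x : ZMod 2) : x = 0 ∨ x = 1 := by
  revert x; decide

lemma one_add (x : ZMod 2) : x + x = 0 := by
  revert x; decide

lemma trail_step (g : Ed → ZMod 2) (q : ℤ × ℤ) (h : ∀ x, cnt g x = if x = q then 1 else 0) :
    ∃ (e : Ed) (q' : ℤ × ℤ), g e = 1 ∧ Sd q e ∧ Sd q' e ∧ q' ≠ q ∧
      ∀ x, cnt (g + Pi.single e 1) x = if x = q' then 1 else 0 := by
  obtain ⟨a, b⟩ := q
  have fin : ∀ (e : Ed) (q' : ℤ × ℤ), (∀ x : ℤ × ℤ, cnt (Pi.single e 1) x =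
      (if x = (a, b) then 1 else 0) + (if x = q' then 1 else 0)) →
      ∀ x, cnt (g + Pi.single e 1) x = if x = q' then 1 else 0 := by
    intro e q' he x
    rw [cnt_add, h, he, ← add_assoc, one_add, zero_add]
  have h1 := h (a, b)
  rw [if_pos rfl] at h1
  unfold cnt at h1
  simp only at h1
  rcases two_cases (g (false, a, b)) with k1 | k1
  · rcases two_cases (g (true, a, b)) with k2 | k2
    · rcases two_cases (g (false, a, b + 1)) with k3 | k3
      · rcases two_cases (g (true, a + 1, b)) with k4 | k4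
        · rw [k1, k2, k3, k4] at h1
          exact absurd h1 (by decide)
        · refine ⟨(true, a + 1, b), (a + 1, b), k4, Or.inr (Or.inr (Or.inr rfl)),
            Or.inr (Or.inl rfl), ?_, fin _ _ ?_⟩
          · intro h; rw [Prod.mk.injEq] at h; omega
          · intro x
            rw [cnt_true, add_sub_cancel_right, add_comm]
      · refine ⟨(false, a, b + 1), (a, b + 1), k3, Or.inr (Or.inr (Or.inl rfl)), Or.inl rfl, ?_,
          fin _ _ ?_⟩
        · intro h; rw [Prod.mk.injEq] at h; omega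
        · intro x
          rw [cnt_false, add_sub_cancel_right, add_comm]
    · refine ⟨(true, a, b), (a - 1, b), k2, Or.inr (Or.inl rfl), Or.inr (Or.inr (Or.inr ?_)), ?_,
        fin _ _ ?_⟩
      · rw [sub_add_cancel]
      · intro h; rw [Prod.mk.injEq] at h; omega
      · intro x
        rw [cnt_true]
  · refine ⟨(false, a, b), (a, b - 1), k1, Or.inl rfl, Or.inr (Or.inr (Or.inl ?_)), ?_,
      fin _ _ ?_⟩
    · simp only [sub_add_cancel]
    · intro h; rw [Prod.mk.injEq] at h; omega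
    · intro x
      rw [cnt_false]

/-- a set of edges with an odd number of sides in the square `(0, 0)` only contains an infinite
trail from this square -/
theorem trail (f : Ed → ZMod 2) (hf : ∀ x, cnt f x = if x = (0, 0) then 1 else 0) :
    ∃ (p : ℕ → ℤ × ℤ) (e : ℕ → Ed), p 0 = (0, 0) ∧ Function.Injective e ∧
      ∀ k, f (e k) = 1 ∧ Sd (p k) (e k) ∧ Sd (p (k + 1)) (e k) ∧ p (k + 1) ≠ p k := by
  choose ee qq h1 h2 h3 h4 h5 using trail_step
  set St := {s : (Ed → ZMod 2) × (ℤ × ℤ) // ∀ x, cnt s.1 x = if x = s.2 then 1 else 0} with hSt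
  let F : St → St := fun s => ⟨(s.1.1 + Pi.single (ee s.1.1 s.1.2 s.2) 1, qq s.1.1 s.1.2 s.2),
    h5 s.1.1 s.1.2 s.2⟩
  let s : ℕ → St := fun k => Nat.rec (⟨(f, (0, 0)), hf⟩ : St) (fun _ t => F t) k
  have hs0 : (s 0).1 = (f, (0, 0)) := rfl
  have hs1 : ∀ k, s (k + 1) = F (s k) := fun k => rfl
  set e : ℕ → Ed := fun k => ee (s k).1.1 (s k).1.2 (s k).2 with he
  have g1 : ∀ k, (s (k + 1)).1.1 = (s k).1.1 + Pi.single (e k) 1 := fun k => rfl
  have q1 : ∀ k, (s (k + 1)).1.2 = qq (s k).1.1 (s k).1.2 (s k).2 := fun k => rfl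
  have e1 : ∀ k, (s k).1.1 (e k) = 1 := fun k => h1 _ _ _
  have z : ∀ k l, k < l → (s l).1.1 (e k) = 0 := by
    intro k l hkl
    induction l, hkl using Nat.le_induction with
    | base =>
      rw [g1, Pi.add_apply, e1, Pi.single_eq_same]
      decide
    | succ l hl ih =>
      rw [g1, Pi.add_apply, ih, zero_add]
      refine Pi.single_eq_of_ne (fun h => ?_) _
      rw [h, e1] at ih
      exact absurd ih (by decide)
  have m : ∀ k x, (s k).1.1 x = 1 → f x = 1 := by
    intro k
    induction k with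
    | zero => intro x hx; exact hx
    | succ k ih =>
      intro x hx
      rw [g1, Pi.add_apply] at hx
      by_cases hxe : x = e k
      · rw [hxe, e1, Pi.single_eq_same] at hx
        exact absurd hx (by decide)
      · rw [Pi.single_eq_of_ne hxe, add_zero] at hx
        exact ih x hx
  refine ⟨fun k => (s k).1.2, e, rfl, ?_, fun k => ⟨m k _ (e1 k), ?_, ?_, ?_⟩⟩
  · intro k l hkl
    rcases lt_trichotomy k l with h | h | h
    · have := z k l h
      rw [hkl, e1] at this
      exact absurd this (by decide)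
    · exact h
    · have := z l k h
      rw [← hkl, e1] at this
      exact absurd this (by decide)
  · exact h2 _ _ _
  · exact h3 _ _ _
  · exact h4 _ _ _

/-- erasing loops -/
theorem erase {V E : Type*} (v : ℕ → V) (e : ℕ → E) (he : Function.Injective e) (R : V → E → Prop)
    (hR : ∀ x, {f | R x f}.Finite) (h : ∀ k, R (v k) (e k)) :
    ∃ m l : ℕ → ℕ, m 0 = 0 ∧ (∀ n, m (n + 1) = l n + 1) ∧ (∀ n, v (m n) = v (l n)) ∧
      Function.Injective (fun n => v (m n)) ∧ Function.Injective (fun n => e (l n)) := by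
  classical
  have hfin : ∀ x, {k | v k = x}.Finite := by
    intro x
    refine Set.Finite.of_finite_image ((hR x).subset ?_) he.injOn
    rintro _ ⟨k, hk, rfl⟩
    have := h k
    rw [show v k = x from hk] at this
    exact this
  have hlast : ∀ k, ∃ l, k ≤ l ∧ v l = v k ∧ ∀ l' > l, v l' ≠ v k := by
    intro k
    obtain ⟨l, hl, hmax⟩ := Set.exists_max_image {k' | v k' = v k} id (hfin (v k)) ⟨k, rfl⟩
    refine ⟨l, hmax k rfl, hl, fun l' hl' hv => ?_⟩
    exact absurd (hmax l' hv) (not_le.2 hl')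
  choose L hL1 hL2 hL3 using hlast
  let m : ℕ → ℕ := fun n => Nat.rec 0 (fun _ t => L t + 1) n
  have hm : ∀ n, m (n + 1) = L (m n) + 1 := fun n => rfl
  have hmono : StrictMono m := by
    refine strictMono_nat_of_lt_succ fun n => ?_
    rw [hm]
    have := hL1 (m n)
    omega
  have hlt : ∀ n n', n < n' → L (m n) < m n' := by
    intro n n' hn
    have h1 : m (n + 1) ≤ m n' := hmono.monotone hn
    rw [hm] at h1
    omega
  refine ⟨m, fun n => L (m n), rfl, hm, fun n => (hL2 _).symm, ?_, ?_⟩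
  · intro n n' hn
    simp only at hn
    rcases lt_trichotomy n n' with h1 | h1 | h1
    · exact absurd hn.symm (hL3 _ _ (hlt _ _ h1))
    · exact h1
    · exact absurd hn (hL3 _ _ (hlt _ _ h1))
  · intro n n' hn
    have h2 : L (m n) = L (m n') := he hn
    rcases lt_trichotomy n n' with h1 | h1 | h1
    · have := hlt _ _ h1
      have := hL1 (m n')
      omega
    · exact h1
    · have := hlt _ _ h1
      have := hL1 (m n)
      omega

/-! ### The plane and the half hyperplane -/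

variable {d : ℕ}

lemma agree_ie {J : (Fin d → ℤ) × Fin d → ℝ} {σ τ : (Fin d → ℤ) → ℝ}
    {K : Set ((Fin d → ℤ) × Fin d)} {w : Fin d → ℤ} {r : ℕ} (hσ : GI (bx w r) J σ)
    (hτ : GI (bx w r) (flS K J) τ)
    (hK : ∃ H : Set (Fin d → ℤ), ∀ e ∈ tb w r, e ∈ K ↔ e ∈ dC H)
    {e : (Fin d → ℤ) × Fin d} (het : e ∈ tb w r) (hIE : ¬ IE J w r e) :
    e ∈ dC {x | σ x ≠ τ x} ↔ e ∈ K := by
  classical
  obtain ⟨H, hH⟩ := hK
  set τ' : (Fin d → ℤ) → ℝ := flip H τ with hτ'
  have hGI : GI (bx w r) J τ' := by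
    refine ⟨flip_pm hτ.1, fun A hA hAB => ?_⟩
    have h1 := hτ.2 A hA hAB
    have h2 : ∑ᶠ f ∈ dC (A : Set (Fin d → ℤ)), flS K J f * (τ f.1 * τ (nx f)) =
        ∑ᶠ f ∈ dC (A : Set (Fin d → ℤ)), J f * (τ' f.1 * τ' (nx f)) := by
      refine finsum_mem_congr rfl fun f hf => ?_
      have h3 := hH f (dC_sub_tb hAB hf)
      unfold dC at h3
      simp only [Set.mem_ofPred_eq] at h3
      unfold flS
      simp only [hτ', flip]
      by_cases ha : f.1 ∈ H <;> by_cases hb : nx f ∈ H <;> simp only [ha, hb] at h3 <;>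
        simp only [ha, hb, h3] <;> simp
    rw [h2] at h1
    exact h1
  have hno : e ∉ dC {x | σ x ≠ τ' x} := fun h => hIE ⟨σ, τ', hσ, hGI, h⟩
  have hset : {x | σ x ≠ τ' x} = symmDiff {x | σ x ≠ τ x} H := by
    ext x
    simp only [Set.mem_symmDiff, Set.mem_ofPred_eq, hτ', flip]
    by_cases hx : x ∈ H
    · rw [if_pos hx]
      rcases hσ.1 x with h1 | h1 <;> rcases hτ.1 x with h2 | h2 <;> rw [h1, h2] <;>
        norm_num [hx]
    · rw [if_neg hx]
      simp [hx]
  rw [hset, dC_symmDiff, not_not] at hno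
  rw [hno, ← hH e het]

/-- the points of the plane through `c` -/
def pl (c : Fin d → ℤ) (i j : Fin d) (q : ℤ × ℤ) : Fin d → ℤ := c + q.1 • u i + q.2 • u j

/-- the bonds of the plane through `c` -/
def em (c : Fin d → ℤ) (i j : Fin d) (e : Ed) : (Fin d → ℤ) × Fin d :=
  (pl c i j e.2, if e.1 then j else i)

lemma pl_i (c : Fin d → ℤ) {i j : Fin d} (hij : i ≠ j) (q : ℤ × ℤ) : pl c i j q i = c i + q.1 := by
  simp only [pl, Pi.add_apply, Pi.smul_apply, u_same, u_ne hij, smul_eq_mul]; ring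

lemma pl_j (c : Fin d → ℤ) {i j : Fin d} (hij : i ≠ j) (q : ℤ × ℤ) : pl c i j q j = c j + q.2 := by
  simp only [pl, Pi.add_apply, Pi.smul_apply, u_same, u_ne hij.symm, smul_eq_mul]; ring

lemma pl_k (c : Fin d → ℤ) {i j k : Fin d} (hi : k ≠ i) (hj : k ≠ j) (q : ℤ × ℤ) :
    pl c i j q k = c k := by
  simp only [pl, Pi.add_apply, Pi.smul_apply, u_ne hi, u_ne hj, smul_eq_mul]; ring

lemma pl_u (c : Fin d → ℤ) (i j : Fin d) (a b : ℤ) : pl c i j (a + 1, b) = pl c i j (a, b) + u i := by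
  simp only [pl, add_smul, one_smul]; abel

lemma pl_v (c : Fin d → ℤ) (i j : Fin d) (a b : ℤ) : pl c i j (a, b + 1) = pl c i j (a, b) + u j := by
  simp only [pl, add_smul, one_smul]; abel

open Classical in
/-- the indicator of a set of bonds in the plane -/
noncomputable def fi (c : Fin d → ℤ) (i j : Fin d) (D : Set ((Fin d → ℤ) × Fin d)) (e : Ed) :
    ZMod 2 := if em c i j e ∈ D then 1 else 0

lemma cnt_dC (c : Fin d → ℤ) {i j : Fin d} (hij : i ≠ j) (S : Set (Fin d → ℤ)) (q : ℤ × ℤ) :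
    cnt (fi c i j (dC S)) q = 0 := by
  classical
  obtain ⟨a, b⟩ := q
  have h := clo_dC S (pl c i j (a, b)) i j hij
  unfold cnt fi em
  simp only [Bool.false_eq_true, if_false, if_true, pl_u, pl_v]
  by_cases h1 : (pl c i j (a, b), i) ∈ dC S <;>
    by_cases h2 : (pl c i j (a, b), j) ∈ dC S <;>
    by_cases h3 : (pl c i j (a, b) + u j, i) ∈ dC S <;>
    by_cases h4 : (pl c i j (a, b) + u i, j) ∈ dC S <;>
    simp only [h1, h2, h3, h4, if_true, if_false] at h ⊢ <;>
    first | decide | (exfalso; revert h; decide)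

lemma cnt_Kh (c : Fin d → ℤ) {i j : Fin d} (hij : i ≠ j) (q : ℤ × ℤ) :
    cnt (fi c i j (Kh c i j)) q = if q = (0, 0) then 1 else 0 := by
  classical
  obtain ⟨a, b⟩ := q
  have h1 : ∀ a b : ℤ, ((pl c i j (a, b), i) : (Fin d → ℤ) × Fin d) ∈ Kh c i j ↔
      (a = 0 ∧ b ≤ 0) := by
    intro a b
    simp only [Kh, Set.mem_ofPred_eq, pl_i c hij, pl_j c hij, true_and]
    omega
  have h2 : ∀ a b : ℤ, ((pl c i j (a, b), j) : (Fin d → ℤ) × Fin d) ∉ Kh c i j := by
    intro a b h
    exact hij.symm h.1.1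
  unfold cnt fi em
  simp only [Bool.false_eq_true, if_false, if_true, h1, h2, add_zero]
  by_cases k1 : a = 0 <;> by_cases k2 : b ≤ -1
  · have e1 : b ≤ 0 := by omega
    have e2 : b + 1 ≤ 0 := by omega
    have e3 : b ≠ 0 := by omega
    simp only [k1, e1, e2, e3, and_self, if_true, Prod.mk.injEq, and_false, if_false]
    decide
  · have e2 : ¬ b + 1 ≤ 0 := by omega
    by_cases k3 : b = 0
    · simp [k1, k3]
    · have e1 : ¬ b ≤ 0 := by omega
      simp [k1, e1, e2, k3]
  · simp [k1]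
  · simp [k1]

/-- from every plaquette starts an infinite path of influenced bonds -/
theorem path (hd : 2 ≤ d) {J : (Fin d → ℤ) × Fin d → ℝ} (hJ : Gn J) (c : Fin d → ℤ)
    {i j : Fin d} (hij : i ≠ j) :
    ∃ (p : ℕ → ℤ × ℤ) (e : ℕ → Ed), p 0 = (0, 0) ∧ Function.Injective p ∧
      Function.Injective e ∧ ∀ k, Sd (p k) (e k) ∧ Sd (p (k + 1)) (e k) ∧
        ∀ r : ℕ, r + 2 ≤ nrm ((em c i j (e k)).1 - c) →
          IE J (em c i j (e k)).1 r (em c i j (e k)) := by
  classical
  suffices hmain : ∃ (p : ℕ → ℤ × ℤ) (e : ℕ → Ed), p 0 = (0, 0) ∧ Function.Injective e ∧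
      ∀ k, Sd (p k) (e k) ∧ Sd (p (k + 1)) (e k) ∧ p (k + 1) ≠ p k ∧
        ∀ r : ℕ, r + 2 ≤ nrm ((em c i j (e k)).1 - c) →
          IE J (em c i j (e k)).1 r (em c i j (e k)) by
    obtain ⟨p, e, hp, he, h⟩ := hmain
    have hfin : ∀ x : ℤ × ℤ, {f | Sd x f}.Finite := by
      intro x
      refine (({(false, x.1, x.2), (true, x.1, x.2), (false, x.1, x.2 + 1),
        (true, x.1 + 1, x.2)} : Finset Ed)).finite_toSet.subset ?_
      intro f hf
      rw [Finset.mem_coe]
      simp only [Finset.mem_insert, Finset.mem_singleton]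
      exact hf
    obtain ⟨m, l, h1, h2, h3, h4, h5⟩ := erase p e he Sd hfin (fun k => (h k).1)
    refine ⟨fun n => p (m n), fun n => e (l n), ?_, h4, h5, fun k => ⟨?_, ?_, (h (l k)).2.2.2⟩⟩
    · simp only [h1, hp]
    · simp only [h3]
      exact (h (l k)).1
    · simp only [h2]
      exact (h (l k)).2.1
  obtain ⟨σ, hσ⟩ := exists_GA hd hJ
  obtain ⟨τ, hτ⟩ := exists_GA hd (hJ.flS (Kh c i j))
  set S : Set (Fin d → ℤ) := {x | σ x ≠ τ x} with hS
  obtain ⟨p, e, hp, he, h⟩ := trail (fi c i j (dC S) + fi c i j (Kh c i j)) (fun x => by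
    rw [cnt_add, cnt_dC c hij, cnt_Kh c hij, zero_add])
  refine ⟨p, e, hp, he, fun k => ?_⟩
  obtain ⟨h1, h2, h3, h4⟩ := h k
  refine ⟨h2, h3, h4, fun r hr => ?_⟩
  by_contra hno
  set f := em c i j (e k) with hf
  have hft : f ∈ tb f.1 r := by
    rw [mem_tb, mem_bx, sub_self, nrm_zero]
    exact Or.inl (Nat.zero_le r)
  have hwi : f.1 i = c i + (e k).2.1 := pl_i c hij _
  have hwj : f.1 j = c j + (e k).2.2 := pl_j c hij _
  have hcase : ((e k).2.2 ≤ -(r : ℤ)) ∨ ((r : ℤ) + 1 ≤ (e k).2.2) ∨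
      ((e k).2.1 ≤ -(r : ℤ) - 1) ∨ ((r : ℤ) + 2 ≤ (e k).2.1) := by
    by_contra hc
    push Not at hc
    obtain ⟨c1, c2, c3, c4⟩ := hc
    have : nrm (f.1 - c) ≤ r + 1 := by
      rw [nrm_le]
      intro a
      push_cast
      by_cases hai : a = i
      · rw [hai, Pi.sub_apply, hwi, abs_le]
        constructor <;> linarith
      · by_cases haj : a = j
        · rw [haj, Pi.sub_apply, hwj, abs_le]
          constructor <;> linarith
        · have : f.1 a = c a := pl_k c hai haj _
          rw [Pi.sub_apply, this, sub_self, abs_zero]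
          positivity
    omega
  have hK : ∃ H : Set (Fin d → ℤ), ∀ g ∈ tb f.1 r, g ∈ Kh c i j ↔ g ∈ dC H := by
    have hempty : (∀ g ∈ tb f.1 r, g ∉ Kh c i j) →
        ∃ H : Set (Fin d → ℤ), ∀ g ∈ tb f.1 r, g ∈ Kh c i j ↔ g ∈ dC H := by
      intro h
      refine ⟨∅, fun g hg => ?_⟩
      rw [dC_empty]
      simp [h g hg]
    rcases hcase with hc | hc | hc | hc
    · refine ⟨{v | v i ≤ c i}, fun g hg => ?_⟩
      have e1 : g ∈ Kh c i j ↔ (g.2 = i ∧ g.1 i = c i) := by
        refine ⟨fun h => h.1, fun h => ⟨h, ?_⟩⟩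
        have h1 := (tb_coord hij hg h.1).1
        have h2 := (abs_le.1 h1).2
        linarith
      rw [e1]
      unfold dC nx
      simp only [Set.mem_ofPred_eq, Pi.add_apply]
      by_cases hgi : g.2 = i
      · rw [hgi, u_same]
        simp only [true_and]
        omega
      · rw [u_ne (fun h => hgi h.symm)]
        simp [hgi]
    · refine hempty fun g hg h => ?_
      have h1 := (tb_coord hij hg h.1.1).1
      have h2 := (abs_le.1 h1).1
      linarith [h.2]
    · refine hempty fun g hg h => ?_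
      have h1 := (tb_coord hij hg h.1.1).2.2
      linarith [h.1.2]
    · refine hempty fun g hg h => ?_
      have h1 := (tb_coord hij hg h.1.1).2.1
      linarith [h.1.2]
  have key := agree_ie (hσ.at f.1 r) (hτ.at f.1 r) hK hft hno
  have h5 : fi c i j (dC S) (e k) + fi c i j (Kh c i j) (e k) = 1 := h1
  unfold fi at h5
  rw [← hf] at h5
  by_cases k1 : f ∈ Kh c i j
  · rw [if_pos k1, if_pos (key.2 k1)] at h5
    exact absurd h5 (by decide)
  · rw [if_neg k1, if_neg (fun h => k1 (key.1 h))] at h5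
    exact absurd h5 (by decide)

/-! ### Counting influenced bonds -/

lemma sd_sq (c : Fin d → ℤ) (i j : Fin d) {q : ℤ × ℤ} {e : Ed} (h : Sd q e) :
    em c i j e ∈ sq (pl c i j q) i j := by
  obtain ⟨a, b⟩ := q
  rcases h with h | h | h | h
  · left
    rw [h]; rfl
  · right; right; left
    rw [h]; rfl
  · right; right; right
    rw [h]
    simp only [em, pl_v, Bool.false_eq_true, if_false]
  · right; left
    rw [h]
    simp only [em, pl_u, if_true]

lemma ie_anti {J : (Fin d → ℤ) × Fin d → ℝ} {w : Fin d → ℤ} {r s : ℕ} (h : r ≤ s)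
    {e : (Fin d → ℤ) × Fin d} (hJ : IE J w s e) : IE J w r e := by
  obtain ⟨σ, τ, h1, h2, h3⟩ := hJ
  have hs : bx w r ⊆ bx w s := bx_sub (by rw [sub_self, nrm_zero]; omega)
  exact ⟨σ, τ, h1.mono hs, h2.mono hs, h3⟩

/-- on every level there is an influenced bond in the plane -/
lemma levels (hd : 2 ≤ d) {J : (Fin d → ℤ) × Fin d → ℝ} (hJ : Gn J) (c : Fin d → ℤ)
    {i j : Fin d} (hij : i ≠ j) {l : ℕ} (hl : 1 ≤ l) :
    ∃ (q : ℤ × ℤ) (k : Fin d), nrm (pl c i j q - c) = l ∧
      ∀ r : ℕ, r + 2 ≤ l → IE J (pl c i j q) r (pl c i j q, k) := by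
  obtain ⟨p, e, hp, -, he, h⟩ := path hd hJ c hij
  set g : ℕ → ℕ := fun k => nrm ((em c i j (e k)).1 - c) with hg
  have hpl : ∀ q : ℤ × ℤ, nrm (pl c i j q - c) = max q.1.natAbs q.2.natAbs := by
    intro q
    apply le_antisymm
    · rw [nrm_le]
      intro a
      push_cast
      by_cases hai : a = i
      · rw [hai, Pi.sub_apply, pl_i c hij, add_sub_cancel_left]
        exact le_max_left _ _
      · by_cases haj : a = j
        · rw [haj, Pi.sub_apply, pl_j c hij, add_sub_cancel_left]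
          exact le_max_right _ _
        · rw [Pi.sub_apply, pl_k c hai haj, sub_self, abs_zero]
          positivity
    · have h1 := (nrm_le (x := pl c i j q - c)).1 le_rfl i
      have h2 := (nrm_le (x := pl c i j q - c)).1 le_rfl j
      rw [Pi.sub_apply, pl_i c hij, add_sub_cancel_left, Int.abs_eq_natAbs] at h1
      rw [Pi.sub_apply, pl_j c hij, add_sub_cancel_left, Int.abs_eq_natAbs] at h2
      exact max_le (by exact_mod_cast h1) (by exact_mod_cast h2)
  have hstep : ∀ k, g (k + 1) ≤ g k + 1 := by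
    intro k
    have h1 : adj (em c i j (e k)) (em c i j (e (k + 1))) :=
      ⟨_, i, j, hij, sd_sq c i j (h k).2.1, sd_sq c i j (h (k + 1)).1⟩
    have h2 := h1.step
    have h3 := nrm_tri (em c i j (e (k + 1))).1 (em c i j (e k)).1 c
    simp only [hg]
    omega
  have h0 : g 0 ≤ 1 := by
    have h1 := sd_sq c i j (h 0).1
    rw [hp] at h1
    simp only [hg]
    rw [nrm_le]
    intro a
    have h2 := sq_coord h1 a
    have h3 : pl c i j (0, 0) a = c a := by simp [pl]
    rw [h3] at h2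
    rw [Pi.sub_apply, abs_le]
    push_cast
    constructor <;> linarith [h2.1, h2.2]
  have hunb : ∃ k, l ≤ g k := by
    by_contra hc
    push Not at hc
    have hfin : (Set.range e).Finite := by
      refine Set.Finite.subset ((Finset.univ : Finset Bool) ×ˢ
        ((Finset.Icc (-(l : ℤ)) l) ×ˢ (Finset.Icc (-(l : ℤ)) l))).finite_toSet ?_
      rintro x ⟨k, rfl⟩
      have h1 := hc k
      simp only [hg] at h1
      have h2 := hpl (e k).2
      have h3 : (em c i j (e k)).1 = pl c i j (e k).2 := rfl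
      rw [h3, h2] at h1
      have h4 := lt_of_le_of_lt (le_max_left _ _) h1
      have h5 := lt_of_le_of_lt (le_max_right _ _) h1
      simp only [Finset.coe_product, Finset.coe_univ, Finset.coe_Icc, Set.mem_prod, Set.mem_univ,
        Set.mem_Icc, true_and]
      omega
    exact Set.infinite_range_of_injective he hfin
  obtain ⟨k, hk, hmin⟩ : ∃ k, l ≤ g k ∧ ∀ k' < k, ¬ l ≤ g k' := by
    classical
    exact ⟨Nat.find hunb, Nat.find_spec hunb, fun k' hk' => Nat.find_min hunb hk'⟩
  have hgk : g k = l := by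
    rcases Nat.eq_zero_or_pos k with h1 | h1
    · subst h1; omega
    · obtain ⟨k', rfl⟩ : ∃ k', k = k' + 1 := ⟨k - 1, by omega⟩
      have h2 := hmin k' (by omega)
      have h3 := hstep k'
      omega
  refine ⟨(e k).2, if (e k).1 then j else i, hgk, fun r hr => ?_⟩
  exact (h k).2.2 r (by
    have : nrm ((em c i j (e k)).1 - c) = l := hgk
    omega)

/-- many influenced bonds -/
theorem many (hd : 2 ≤ d) {J : (Fin d → ℤ) × Fin d → ℝ} (hJ : Gn J) (c : Fin d → ℤ) (r : ℕ) :
    ∃ T : Finset ((Fin d → ℤ) × Fin d), T.card = r * (2 * r + 1) ^ (d - 2) ∧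
      ∀ e ∈ T, nrm (e.1 - c) ≤ 2 * r + 1 ∧ IE J e.1 r e := by
  classical
  set i : Fin d := ⟨0, by omega⟩ with hi
  set j : Fin d := ⟨1, by omega⟩ with hj
  have hij : i ≠ j := by
    intro h
    have := congrArg Fin.val h
    simp [hi, hj] at this
  set Z : Finset (Fin d → ℤ) := Fintype.piFinset fun k =>
    if k = i ∨ k = j then {c k} else Finset.Icc (c k - r) (c k + r) with hZ
  have hZc : Z.card = (2 * r + 1) ^ (d - 2) := by
    rw [hZ, Fintype.card_piFinset]
    have h1 : ∀ k : Fin d, (if k = i ∨ k = j then ({c k} : Finset ℤ)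
        else Finset.Icc (c k - r) (c k + r)).card = if k = i ∨ k = j then 1 else 2 * r + 1 := by
      intro k
      split_ifs
      · simp
      · rw [Int.card_Icc]; omega
    simp only [h1]
    rw [Finset.prod_ite, Finset.prod_const_one, one_mul, Finset.prod_const]
    congr 1
    have h2 : (Finset.univ.filter fun k : Fin d => ¬ (k = i ∨ k = j)) = Finset.univ \ {i, j} := by
      ext k
      simp
    rw [h2, Finset.card_sdiff_of_subset (Finset.subset_univ _), Finset.card_univ, Fintype.card_fin,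
      Finset.card_pair hij]
  have hlev : ∀ (c' : Fin d → ℤ) (l : ℕ), ∃ (q : ℤ × ℤ) (k : Fin d), 1 ≤ l →
      nrm (pl c' i j q - c') = l ∧ ∀ s : ℕ, s + 2 ≤ l → IE J (pl c' i j q) s (pl c' i j q, k) := by
    intro c' l
    by_cases hl : 1 ≤ l
    · obtain ⟨q, k, h1, h2⟩ := levels hd hJ c' hij hl
      exact ⟨q, k, fun _ => ⟨h1, h2⟩⟩
    · exact ⟨(0, 0), i, fun h => absurd h hl⟩
  choose Q N hQ using hlev
  set φ : (Fin d → ℤ) × ℕ → (Fin d → ℤ) × Fin d := fun x => (pl x.1 i j (Q x.1 x.2), N x.1 x.2)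
    with hφ
  have hinj : Set.InjOn φ (Z ×ˢ Finset.Ico (r + 2) (2 * r + 2) : Finset ((Fin d → ℤ) × ℕ)) := by
    rintro ⟨c1, l1⟩ h1 ⟨c2, l2⟩ h2 heq
    rw [Finset.mem_coe, Finset.mem_product, Finset.mem_Ico] at h1 h2
    simp only at h1 h2
    have heq' : pl c1 i j (Q c1 l1) = pl c2 i j (Q c2 l2) := congrArg Prod.fst heq
    have hc : c1 = c2 := by
      funext k
      have k1 := (Fintype.mem_piFinset.1 h1.1) k
      have k2 := (Fintype.mem_piFinset.1 h2.1) k
      by_cases hk : k = i ∨ k = j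
      · rw [if_pos hk, Finset.mem_singleton] at k1 k2
        rw [k1, k2]
      · have hki : k ≠ i := fun h => hk (Or.inl h)
        have hkj : k ≠ j := fun h => hk (Or.inr h)
        have := congrFun heq' k
        rw [pl_k c1 hki hkj, pl_k c2 hki hkj] at this
        exact this
    subst hc
    have e1 := (hQ c1 l1 (by omega)).1
    have e2 := (hQ c1 l2 (by omega)).1
    rw [heq', e2] at e1
    rw [e1]
  refine ⟨(Z ×ˢ Finset.Ico (r + 2) (2 * r + 2)).image φ, ?_, ?_⟩
  · rw [Finset.card_image_of_injOn hinj, Finset.card_product, hZc, Nat.card_Ico, mul_comm]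
    congr 1
    omega
  · intro e he
    rw [Finset.mem_image] at he
    obtain ⟨⟨c', l⟩, hx, rfl⟩ := he
    rw [Finset.mem_product, Finset.mem_Ico] at hx
    simp only at hx
    obtain ⟨hc', hl1, hl2⟩ := hx
    obtain ⟨h1, h2⟩ := hQ c' l (by omega)
    refine ⟨?_, h2 r (by omega)⟩
    simp only [hφ]
    rw [nrm_le]
    intro k
    have k1 := (Fintype.mem_piFinset.1 hc') k
    have k2 := (nrm_le (x := pl c' i j (Q c' l) - c')).1 h1.le k
    rw [Pi.sub_apply] at k2 ⊢
    by_cases hk : k = i ∨ k = j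
    · rw [if_pos hk, Finset.mem_singleton] at k1
      rw [← k1]
      refine k2.trans ?_
      push_cast
      omega
    · rw [if_neg hk, Finset.mem_Icc] at k1
      rw [pl_k c' (fun h => hk (Or.inl h)) (fun h => hk (Or.inr h)), abs_le]
      push_cast
      constructor <;> linarith [k1.1, k1.2, (Nat.cast_nonneg r : (0 : ℤ) ≤ r)]

end Pool.Agent.R239.EA
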