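import Pool.Agent.R239.EA.P
import Pool.Agent.Y560.BE.Erg

/-!
# Influence on a positive fraction of the scales
-/

set_option autoImplicit false

open Finset MeasureTheory ProbabilityTheory Filter Topology

namespace Pool.Agent.R239.EA

variable {d : ℕ}

/-! ### Translation and monotonicity -/

lemma GI_shift' {a w : Fin d → ℤ} {n : ℕ} {J : (Fin d → ℤ) × Fin d → ℝ}
    {σ : (Fin d → ℤ) → ℝ} (h : GI (bx (a + w) n) J σ) :
    GI (bx a n) (shw w J) (fun x => σ (x + w)) := by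
  classical
  refine ⟨fun x => h.1 _, fun A hA hAB => ?_⟩
  have hAB' : A.image (fun x => x + w) ⊆ bx (a + w) n := by
    intro x hx
    rw [Finset.mem_image] at hx
    obtain ⟨y, hy, rfl⟩ := hx
    have := mem_bx.1 (hAB hy)
    rw [mem_bx, add_sub_add_right_eq_sub]
    exact this
  have h1 := h.2 (A.image fun x => x + w) (hA.image _) hAB'
  have hmem : ∀ x, x + w ∈ A.image (fun x => x + w) ↔ x ∈ A := by
    intro x
    rw [Finset.mem_image]
    constructor
    · rintro ⟨y, hy, hyx⟩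
      rw [add_left_inj] at hyx
      rw [← hyx]; exact hy
    · intro hx; exact ⟨x, hx, rfl⟩
  have h2 : ∑ᶠ e ∈ dC (A : Set (Fin d → ℤ)), shw w J e * (σ (e.1 + w) * σ (nx e + w)) =
      ∑ᶠ e ∈ dC ((A.image fun x => x + w : Finset (Fin d → ℤ)) : Set (Fin d → ℤ)),
        J e * (σ e.1 * σ (nx e)) := by
    refine finsum_mem_eq_of_bijOn (fun e => (e.1 + w, e.2)) ⟨?_, ?_, ?_⟩ ?_
    · intro e he
      unfold dC at he ⊢
      simp only [Set.mem_ofPred_eq, Finset.mem_coe] at he ⊢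
      rw [hmem, nx_shift, hmem]
      exact he
    · intro e _ f _ hef
      simp only [Prod.mk.injEq, add_left_inj] at hef
      exact Prod.ext hef.1 hef.2
    · intro e he
      refine ⟨(e.1 - w, e.2), ?_, by simp⟩
      unfold dC at he ⊢
      simp only [Set.mem_ofPred_eq, Finset.mem_coe] at he ⊢
      have h3 : nx e = nx ((e.1 - w, e.2) : (Fin d → ℤ) × Fin d) + w := by
        rw [← nx_shift]; simp
      rw [h3, hmem] at he
      have h4 : e.1 ∈ A.image (fun x => x + w) ↔ e.1 - w ∈ A := by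
        rw [← hmem (e.1 - w), sub_add_cancel]
      rw [h4] at he
      exact he
    · intro e _
      unfold shw
      simp only
      rw [nx_shift]
  simp only at h2 ⊢
  rw [h2]
  exact h1

lemma shw_shw (x y : Fin d → ℤ) (J : (Fin d → ℤ) × Fin d → ℝ) :
    shw x (shw y J) = shw (x + y) J := by
  funext e
  unfold shw
  simp only [add_assoc]

lemma shw_zero (J : (Fin d → ℤ) × Fin d → ℝ) : shw 0 J = J := by
  funext e
  unfold shw
  simp only [add_zero]

lemma ib_back {w : Fin d → ℤ} {n r : ℕ} {J : (Fin d → ℤ) × Fin d → ℝ}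
    (h : IB (shw w J) 0 n r) : IB J w n r := by
  obtain ⟨e, he, σ, τ, hσ, hτ, hi⟩ := h
  have e0 : (0 : Fin d → ℤ) = w + (-w) := by rw [add_neg_cancel]
  rw [e0] at hσ hτ
  have h1 := GI_shift' hσ
  have h2 := GI_shift' hτ
  rw [shw_shw, neg_add_cancel, shw_zero] at h1 h2
  refine ⟨(e.1 + w, e.2), ?_, _, _, h1, h2, ?_⟩
  · rw [sub_zero] at he
    simpa using he
  · unfold dC nx at hi ⊢
    simp only [Set.mem_ofPred_eq, add_neg_cancel_right] at hi ⊢
    rw [show e.1 + w + u e.2 + -w = e.1 + u e.2 by rw [add_right_comm, add_neg_cancel_right]]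
    exact hi

lemma ib_mono {x c : Fin d → ℤ} {n r n' r' : ℕ} {J : (Fin d → ℤ) × Fin d → ℝ}
    (h : IB J x n r) (hn : n + nrm (x - c) ≤ n') (hr : r' + nrm (x - c) ≤ r) : IB J c n' r' := by
  obtain ⟨e, he, σ, τ, hσ, hτ, hi⟩ := h
  have hs : bx c r' ⊆ bx x r := bx_sub (by rw [nrm_sub_comm]; omega)
  refine ⟨e, ?_, σ, τ, hσ.mono hs, hτ.mono hs, hi⟩
  have := nrm_tri e.1 x c
  omega

/-! ### The number of influenced scales -/

open Classical in
/-- the number of `k < N` such that the box of radius `a k` is influenced from distance `b k` -/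
noncomputable def nsc (a b : ℕ → ℕ) (w : Fin d → ℤ) (J : (Fin d → ℤ) × Fin d → ℝ) (N : ℕ) : ℕ :=
  ((Finset.range N).filter fun k => IB J w (a k) (b k)).card

lemma nsc_le (a b : ℕ → ℕ) (w : Fin d → ℤ) (J : (Fin d → ℤ) × Fin d → ℝ) (N : ℕ) :
    nsc a b w J N ≤ N := by
  classical
  unfold nsc
  exact (Finset.card_filter_le _ _).trans (by rw [Finset.card_range])

lemma nsc_eq (a b : ℕ → ℕ) (w : Fin d → ℤ) (J : (Fin d → ℤ) × Fin d → ℝ) (N : ℕ) :
    (nsc a b w J N : ℝ) = ∑ k ∈ Finset.range N,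
      {J | IB J w (a k) (b k)}.indicator (fun _ => (1 : ℝ)) J := by
  classical
  unfold nsc
  rw [Finset.card_filter]
  push_cast
  refine Finset.sum_congr rfl fun k _ => ?_
  rw [Set.indicator_apply]
  rfl

section

variable {a b : ℕ → ℕ} (hab : ∀ k, a k ≤ b k)

include hab

lemma sc_meas (w : Fin d → ℤ) (k : ℕ) :
    MeasurableSet {J : (Fin d → ℤ) × Fin d → ℝ | IB J w (a k) (b k)} :=
  ib_meas w (hab k)

lemma nsc_meas (w : Fin d → ℤ) (N : ℕ) :
    Measurable fun J : (Fin d → ℤ) × Fin d → ℝ => (nsc a b w J N : ℝ) := by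
  simp only [nsc_eq]
  exact Finset.measurable_sum _ fun k _ => measurable_const.indicator (sc_meas hab w k)

variable (μ : Measure ℝ) [IsProbabilityMeasure μ]

lemma mean_nsc (hd : 2 ≤ d) (hat : ∀ x, μ {x} = 0) {m : ℕ} (hm0 : 1 ≤ m)
    (hm : ∀ k, 2 * b k + 3 ≤ m * (2 * a k + 1)) (N : ℕ) :
    N * (1 / (4 * (m : ℝ))) ≤ ∫ J, (nsc a b 0 J N : ℝ) ∂(Lw μ d) := by
  have h1 : ∫ J, (nsc a b 0 J N : ℝ) ∂(Lw μ d) =
      ∑ k ∈ Finset.range N, (Lw μ d).real {J | IB J 0 (a k) (b k)} := by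
    simp only [nsc_eq]
    rw [integral_finsetSum]
    · refine Finset.sum_congr rfl fun k _ => ?_
      rw [integral_indicator_const (1 : ℝ) (sc_meas hab 0 k), smul_eq_mul, mul_one]
    · intro k _
      exact (integrable_const (1 : ℝ)).indicator (sc_meas hab 0 k)
  rw [h1, ← nsmul_eq_mul]
  have h2 : N • (1 / (4 * (m : ℝ))) = ∑ k ∈ Finset.range N, (1 / (4 * (m : ℝ))) := by simp
  rw [h2]
  refine Finset.sum_le_sum fun k _ => ?_
  have h3 := lower3 (d := d) μ hd hat (hab k) (hm k)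
  have h4 : (0 : ℝ) < m := by exact_mod_cast hm0
  rw [div_le_iff₀ (by positivity), mul_comm]
  exact h3

end

/-- the event that a fraction `δ` of the scales is influenced, for arbitrarily large `N` -/
def Fq (a b : ℕ → ℕ) (δ : ℝ) (w : Fin d → ℤ) : Set ((Fin d → ℤ) × Fin d → ℝ) :=
  {J | ∃ᶠ N : ℕ in atTop, δ * N ≤ nsc a b w J N}

section

variable {a b : ℕ → ℕ} (hab : ∀ k, a k ≤ b k)

include hab

lemma fq_meas (δ : ℝ) (w : Fin d → ℤ) : MeasurableSet (Fq a b δ w) := by
  have h1 : Fq a b δ w = ⋂ M : ℕ, ⋃ N : ℕ, {J | M ≤ N ∧ δ * N ≤ nsc a b w J N} := by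
    ext J
    simp only [Fq, Set.mem_ofPred_eq, Set.mem_iInter, Set.mem_iUnion, frequently_atTop]
  rw [h1]
  refine MeasurableSet.iInter fun M => MeasurableSet.iUnion fun N => ?_
  refine (MeasurableSet.const (M ≤ N)).inter ?_
  exact measurableSet_le measurable_const (nsc_meas hab w N)

variable (μ : Measure ℝ) [IsProbabilityMeasure μ]

lemma fq_pos (hd : 2 ≤ d) (hat : ∀ x, μ {x} = 0) {m : ℕ} (hm0 : 1 ≤ m)
    (hm : ∀ k, 2 * b k + 3 ≤ m * (2 * a k + 1)) {δ : ℝ} (hδ0 : 0 ≤ δ)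
    (hδ : δ < 1 / (4 * (m : ℝ))) : Lw μ d (Fq a b δ 0) ≠ 0 := by
  set η : ℝ := 1 / (4 * (m : ℝ)) - δ with hη
  have hη0 : 0 < η := by rw [hη]; linarith
  set B : ℕ → Set ((Fin d → ℤ) × Fin d → ℝ) := fun N => {J | δ * N ≤ nsc a b 0 J N} with hB
  have hBm : ∀ N, MeasurableSet (B N) := fun N =>
    measurableSet_le measurable_const (nsc_meas hab 0 N)
  -- every single event has probability at least `η`
  have h1 : ∀ N : ℕ, 1 ≤ N → ENNReal.ofReal η ≤ Lw μ d (B N) := by
    intro N hN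
    have hN0 : (0 : ℝ) < N := by exact_mod_cast hN
    have h2 := mean_nsc (d := d) hab μ hd hat hm0 hm N
    have h3 : ∫ J, (nsc a b 0 J N : ℝ) ∂(Lw μ d) ≤
        ∫ J, (δ * N + (B N).indicator (fun _ => (1 : ℝ)) J * (N - δ * N)) ∂(Lw μ d) := by
      refine integral_mono ?_ ?_ ?_
      · simp only [nsc_eq]
        exact integrable_finsetSum _ fun k _ =>
          (integrable_const (1 : ℝ)).indicator (sc_meas hab 0 k)
      · exact (integrable_const _).add
          (((integrable_const (1 : ℝ)).indicator (hBm N)).mul_const _)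
      · intro J
        simp only
        by_cases hJ : J ∈ B N
        · rw [Set.indicator_of_mem hJ, one_mul, add_sub_cancel]
          exact_mod_cast nsc_le a b 0 J N
        · rw [Set.indicator_of_notMem hJ, zero_mul, add_zero]
          exact (not_le.1 hJ).le
    have e1 : ∫ _ : (Fin d → ℤ) × Fin d → ℝ, δ * (N : ℝ) ∂(Lw μ d) = δ * N := by simp
    have e2 : ∫ J, (B N).indicator (fun _ => (1 : ℝ)) J * (N - δ * N) ∂(Lw μ d) =
        (Lw μ d).real (B N) * (N - δ * N) := by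
      rw [integral_mul_const, integral_indicator_const (1 : ℝ) (hBm N), smul_eq_mul, mul_one]
    rw [integral_add (integrable_const _)
      (((integrable_const (1 : ℝ)).indicator (hBm N)).mul_const _), e1, e2] at h3
    have h5 : η * N ≤ (Lw μ d).real (B N) * (N - δ * N) := by
      have : η * N = N * (1 / (4 * (m : ℝ))) - δ * N := by rw [hη]; ring
      linarith
    have h6 : η ≤ (Lw μ d).real (B N) * (1 - δ) := by
      have : (Lw μ d).real (B N) * (N - δ * N) = ((Lw μ d).real (B N) * (1 - δ)) * N := by ring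
      rw [this] at h5
      exact le_of_mul_le_mul_right h5 hN0
    have h7 : η ≤ (Lw μ d).real (B N) := by
      have h8 : (0 : ℝ) ≤ (Lw μ d).real (B N) := measureReal_nonneg
      nlinarith
    rw [ENNReal.ofReal_le_iff_le_toReal (measure_ne_top _ _)]
    exact h7
  set C : ℕ → Set ((Fin d → ℤ) × Fin d → ℝ) := fun M => ⋃ N : ℕ, {J | M ≤ N ∧ J ∈ B N} with hC
  have hCm : ∀ M, MeasurableSet (C M) := fun M =>
    MeasurableSet.iUnion fun N => (MeasurableSet.const (M ≤ N)).inter (hBm N)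
  have hCa : Antitone C := by
    intro M M' hM J hJ
    simp only [hC, Set.mem_iUnion, Set.mem_ofPred_eq] at hJ ⊢
    obtain ⟨N, h2, h3⟩ := hJ
    exact ⟨N, hM.trans h2, h3⟩
  have h2 : Fq a b δ 0 = ⋂ M, C M := by
    ext J
    simp only [Fq, hC, hB, Set.mem_ofPred_eq, Set.mem_iInter, Set.mem_iUnion, frequently_atTop]
  have h3 : ∀ M, ENNReal.ofReal η ≤ Lw μ d (C M) := by
    intro M
    refine (h1 (M + 1) (by omega)).trans (measure_mono fun J hJ => ?_)
    simp only [hC, Set.mem_iUnion, Set.mem_ofPred_eq]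
    exact ⟨M + 1, by omega, hJ⟩
  have h4 := tendsto_measure_iInter_atTop (μ := Lw μ d)
    (fun M => (hCm M).nullMeasurableSet) hCa ⟨0, measure_ne_top _ _⟩
  have h5 : ENNReal.ofReal η ≤ Lw μ d (⋂ M, C M) :=
    ge_of_tendsto' h4 h3
  rw [h2]
  intro h6
  rw [h6, nonpos_iff_eq_zero, ENNReal.ofReal_eq_zero] at h5
  linarith

end

/-! ### Ergodicity -/

variable (μ : Measure ℝ) [IsProbabilityMeasure μ]

/-- the translation of the bonds -/
def tr (w : Fin d → ℤ) : ((Fin d → ℤ) × Fin d) ≃ ((Fin d → ℤ) × Fin d) where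
  toFun e := (e.1 + w, e.2)
  invFun e := (e.1 - w, e.2)
  left_inv e := by simp
  right_inv e := by simp

lemma erg (i : Fin d) : Ergodic (shw (u i)) (Lw μ d) := by
  have hit : ∀ (n : ℕ) (e : (Fin d → ℤ) × Fin d),
      (tr (u i))^[n] e = (e.1 + (n : ℤ) • u i, e.2) := by
    intro n
    induction n with
    | zero => intro e; simp
    | succ n ih =>
      intro e
      rw [Function.iterate_succ_apply', ih]
      unfold tr
      simp only [Equiv.coe_fn_mk, Prod.mk.injEq, and_true]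
      push_cast
      rw [add_smul, one_smul, add_assoc]
  exact Pool.Agent.Y560.BE.erg_cm μ (tr (u i)) (Pool.Agent.Y560.BE.move_off (tr (u i))
    (fun e n h => by
      rw [hit] at h
      have h1 := congrFun (congrArg Prod.fst h) i
      simp only [Pi.add_apply, Pi.smul_apply, u_same, smul_eq_mul, mul_one] at h1
      push_cast at h1
      omega))

theorem fq_ae (hd : 2 ≤ d) (hat : ∀ x, μ {x} = 0) {a b : ℕ → ℕ} (hab : ∀ k, a k ≤ b k) {m : ℕ}
    (hm0 : 1 ≤ m) (hm : ∀ k, 2 * b k + 3 ≤ m * (2 * a k + 1)) {δ : ℝ} (hδ0 : 0 ≤ δ)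
    (hδ : δ < 1 / (4 * (m : ℝ))) : ∀ᵐ J ∂(Lw μ d), ∃ x, J ∈ Fq a b δ x := by
  set i : Fin d := ⟨0, by omega⟩ with hi
  set V : Set ((Fin d → ℤ) × Fin d → ℝ) := ⋃ x : Fin d → ℤ, shw x ⁻¹' Fq a b δ 0 with hV
  have hVm : MeasurableSet V := MeasurableSet.iUnion fun x =>
    (shw_law μ x).measurable (fq_meas hab δ 0)
  have hinv : shw (u i) ⁻¹' V = V := by
    ext J
    simp only [hV, Set.preimage_iUnion, Set.mem_iUnion, Set.mem_preimage, shw_shw]
    constructor
    · rintro ⟨x, hx⟩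
      exact ⟨_, hx⟩
    · rintro ⟨x, hx⟩
      exact ⟨x - u i, by rwa [sub_add_cancel]⟩
  have h01 := (erg μ i).toPreErgodic.prob_eq_zero_or_one hVm hinv
  have hpos : Lw μ d V ≠ 0 := by
    intro h
    refine fq_pos hab μ hd hat hm0 hm hδ0 hδ (measure_mono_null (fun J hJ => ?_) h)
    simp only [hV, Set.mem_iUnion, Set.mem_preimage]
    exact ⟨0, by rwa [shw_zero]⟩
  have h1 : Lw μ d V = 1 := h01.resolve_left hpos
  have h2 : ∀ᵐ J ∂(Lw μ d), J ∈ V := by
    rw [← prob_compl_eq_zero_iff hVm] at h1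
    exact h1
  filter_upwards [h2] with J hJ
  simp only [hV, Set.mem_iUnion, Set.mem_preimage] at hJ
  obtain ⟨x, hx⟩ := hJ
  refine ⟨x, Filter.Frequently.mono hx fun N hN => hN.trans ?_⟩
  classical
  have : nsc a b 0 (shw x J) N ≤ nsc a b x J N := by
    unfold nsc
    exact Finset.card_le_card fun k hk => by
      rw [Finset.mem_filter] at hk ⊢
      exact ⟨hk.1, ib_back hk.2⟩
  exact_mod_cast this

/-- from one site to all sites -/
lemma fq_all {a b a' b' : ℕ → ℕ} {δ δ' : ℝ} (hδ : δ < δ') {J : (Fin d → ℤ) × Fin d → ℝ}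
    {x : Fin d → ℤ} (h : J ∈ Fq a b δ' x) (c : Fin d → ℤ)
    (hk : ∀ s : ℕ, ∀ᶠ k in atTop, a k + s ≤ a' k ∧ b' k + s ≤ b k) : J ∈ Fq a' b' δ c := by
  classical
  obtain ⟨k0, hk0⟩ := eventually_atTop.1 (hk (nrm (x - c)))
  have h1 : ∀ N, nsc a b x J N ≤ nsc a' b' c J N + k0 := by
    intro N
    unfold nsc
    have h2 : ((Finset.range N).filter fun k => IB J x (a k) (b k)) ⊆
        (Finset.range k0) ∪ ((Finset.range N).filter fun k => IB J c (a' k) (b' k)) := by
      intro k hk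
      rw [Finset.mem_filter, Finset.mem_range] at hk
      rw [Finset.mem_union, Finset.mem_range, Finset.mem_filter, Finset.mem_range]
      by_cases hk1 : k < k0
      · exact Or.inl hk1
      have h3 := hk0 k (by omega)
      exact Or.inr ⟨hk.1, ib_mono hk.2 h3.1 h3.2⟩
    refine (Finset.card_le_card h2).trans ((Finset.card_union_le _ _).trans ?_)
    rw [Finset.card_range, add_comm]
  have h2 : ∀ᶠ N : ℕ in atTop, δ * N + k0 ≤ δ' * N := by
    have h3 : Tendsto (fun N : ℕ => (δ' - δ) * (N : ℝ)) atTop atTop :=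
      tendsto_natCast_atTop_atTop.const_mul_atTop (by linarith)
    filter_upwards [h3.eventually_ge_atTop (k0 : ℝ)] with N hN
    linarith
  have h3 : ∃ᶠ N : ℕ in atTop, δ' * N ≤ nsc a b x J N := h
  refine (h3.and_eventually h2).mono fun N hN => ?_
  have h4 : (nsc a b x J N : ℝ) ≤ nsc a' b' c J N + k0 := by exact_mod_cast h1 N
  linarith [hN.1, hN.2]

/-- On a positive fraction of the scales there is influence from `L` times the distance. -/
theorem scales (hd : 2 ≤ d) (hat : ∀ x, μ {x} = 0) {n : ℕ → ℕ} (hn : Tendsto n atTop atTop)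
    {L : ℕ} (hL : 1 ≤ L) :
    ∀ᵐ J ∂(Lw μ d), ∀ (c : Fin d → ℤ) (δ : ℝ), δ < 1 / (8 * (L : ℝ) + 4) →
      J ∈ Fq n (fun k => L * n k) δ c := by
  set a : ℕ → ℕ := fun k => n k - n k / 2 with ha
  set b : ℕ → ℕ := fun k => L * n k + n k / 2 with hb
  have hLn : ∀ k, n k ≤ L * n k := fun k => Nat.le_mul_of_pos_left _ hL
  have hab : ∀ k, a k ≤ b k := by
    intro k
    have := hLn k
    simp only [ha, hb]
    omega
  have hm : ∀ k, 2 * b k + 3 ≤ (2 * L + 1) * (2 * a k + 1) := by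
    intro k
    simp only [ha, hb]
    obtain ⟨p, q, hp, hq⟩ : ∃ p q, n k = 2 * p + q ∧ q < 2 := ⟨n k / 2, n k % 2, by omega, by omega⟩
    have h1 : n k / 2 = p := by omega
    have h2 : n k - n k / 2 = p + q := by omega
    rw [h2, h1, hp]
    nlinarith
  have h1 : ∀ᵐ J ∂(Lw μ d), ∀ j : ℕ, ∃ x,
      J ∈ Fq a b (1 / (8 * (L : ℝ) + 4) * (1 - 1 / ((j : ℝ) + 1))) x := by
    rw [ae_all_iff]
    intro j
    have h2 : (0 : ℝ) < 1 / (8 * (L : ℝ) + 4) := by positivity
    have h3 : (0 : ℝ) < 1 / ((j : ℝ) + 1) := by positivity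
    have h4 : 1 / ((j : ℝ) + 1) ≤ 1 := by
      rw [div_le_one (by positivity)]
      linarith [(Nat.cast_nonneg j : (0 : ℝ) ≤ j)]
    refine fq_ae μ hd hat hab (by omega) hm (mul_nonneg h2.le (by linarith)) ?_
    have h5 : 1 / (4 * ((2 * L + 1 : ℕ) : ℝ)) = 1 / (8 * (L : ℝ) + 4) := by
      congr 1
      push_cast
      ring
    rw [h5]
    nlinarith
  filter_upwards [h1] with J hJ
  intro c δ hδ
  obtain ⟨j, hj⟩ : ∃ j : ℕ, δ < 1 / (8 * (L : ℝ) + 4) * (1 - 1 / ((j : ℝ) + 1)) := by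
    have h2 : Tendsto (fun m : ℕ => 1 / (8 * (L : ℝ) + 4) * (1 - 1 / ((m : ℝ) + 1))) atTop
        (𝓝 (1 / (8 * (L : ℝ) + 4) * (1 - 0))) :=
      (tendsto_const_nhds.sub tendsto_one_div_add_atTop_nhds_zero_nat).const_mul _
    rw [sub_zero, mul_one] at h2
    exact (h2.eventually (lt_mem_nhds hδ)).exists
  obtain ⟨x, hx⟩ := hJ j
  refine fq_all hj hx c fun s => ?_
  filter_upwards [hn.eventually_ge_atTop (2 * s)] with k hk
  simp only [ha, hb]
  omega

end Pool.Agent.R239.EA
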