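import Pool.Agent.R239.EA.Q

/-!
# Influence given the couplings in a smaller box
-/

set_option autoImplicit false

open Finset MeasureTheory ProbabilityTheory Filter Topology

namespace Pool.Agent.R239.EA

/-! ### Tiles -/

/-- rounding -/
def rd (n : ℕ) (a : ℤ) : ℤ := (a + n) / (2 * n + 1)

lemma rd_near (n : ℕ) (a : ℤ) : |a - (2 * n + 1) * rd n a| ≤ n := by
  unfold rd
  have h1 := Int.emod_add_mul_ediv (a + n) (2 * (n : ℤ) + 1)
  have h2 := Int.emod_nonneg (a + n) (show 2 * (n : ℤ) + 1 ≠ 0 by omega)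
  have h3 := Int.emod_lt_of_pos (a + n) (show 0 < 2 * (n : ℤ) + 1 by omega)
  rw [abs_le]
  constructor <;> linarith

lemma rd_unique {n : ℕ} {a t : ℤ} (h : |a - (2 * n + 1) * t| ≤ n) : rd n a = t := by
  have h1 := rd_near n a
  rw [abs_le] at h h1
  have hn : (0 : ℤ) ≤ n := Nat.cast_nonneg n
  rcases lt_trichotomy (rd n a) t with h2 | h2 | h2
  · have h3 : rd n a + 1 ≤ t := h2
    nlinarith [h.1, h.2, h1.1, h1.2]
  · exact h2
  · have h3 : t + 1 ≤ rd n a := h2
    nlinarith [h.1, h.2, h1.1, h1.2]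

lemma rd_natAbs (n : ℕ) (a : ℤ) : (rd n a).natAbs = (a.natAbs + n) / (2 * n + 1) := by
  set t : ℕ := (a.natAbs + n) / (2 * n + 1) with ht
  have h1 := Nat.div_add_mod (a.natAbs + n) (2 * n + 1)
  have h2 := Nat.mod_lt (a.natAbs + n) (show 0 < 2 * n + 1 by omega)
  have h3 : |((a.natAbs : ℕ) : ℤ) - (2 * n + 1) * (t : ℤ)| ≤ n := by
    have h4 : ((a.natAbs : ℕ) : ℤ) + n = (2 * n + 1) * (t : ℤ) +
        ((a.natAbs + n) % (2 * n + 1) : ℕ) := by
      rw [ht]; exact_mod_cast h1.symm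
    have h5 : (((a.natAbs + n) % (2 * n + 1) : ℕ) : ℤ) < 2 * n + 1 := by exact_mod_cast h2
    have h6 : (0 : ℤ) ≤ (((a.natAbs + n) % (2 * n + 1) : ℕ) : ℤ) := Nat.cast_nonneg _
    rw [abs_le]
    constructor <;> linarith
  rcases Int.natAbs_eq a with h | h
  · rw [← h] at h3
    rw [rd_unique h3, Int.natAbs_natCast]
  · have h4 : |a - (2 * n + 1) * (-(t : ℤ))| ≤ n := by
      rw [h, show -((a.natAbs : ℕ) : ℤ) - (2 * n + 1) * (-(t : ℤ)) =
        -(((a.natAbs : ℕ) : ℤ) - (2 * n + 1) * (t : ℤ)) by ring, abs_neg]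
      exact h3
    rw [rd_unique h4, Int.natAbs_neg, Int.natAbs_natCast]

lemma rd_max {n l : ℕ} {q : ℤ × ℤ} (h : max q.1.natAbs q.2.natAbs = l) :
    max (rd n q.1).natAbs (rd n q.2).natAbs = (l + n) / (2 * n + 1) := by
  rw [rd_natAbs, rd_natAbs, ← h]
  rcases le_total q.1.natAbs q.2.natAbs with h1 | h1
  · rw [max_eq_right h1, max_eq_right]
    exact Nat.div_le_div_right (by omega)
  · rw [max_eq_left h1, max_eq_left]
    exact Nat.div_le_div_right (by omega)

/-- the ring of tiles -/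
noncomputable def Rg (s : ℕ) : Finset (ℤ × ℤ) :=
  ((Finset.Icc (-(s : ℤ)) s) ×ˢ (Finset.Icc (-(s : ℤ)) s)).filter
    fun z => max z.1.natAbs z.2.natAbs = s

lemma mem_Rg {s : ℕ} {z : ℤ × ℤ} : z ∈ Rg s ↔ max z.1.natAbs z.2.natAbs = s := by
  unfold Rg
  rw [Finset.mem_filter, Finset.mem_product, Finset.mem_Icc, Finset.mem_Icc]
  constructor
  · exact fun h => h.2
  · intro h
    have h1 : z.1.natAbs ≤ s := h ▸ le_max_left _ _
    have h2 : z.2.natAbs ≤ s := h ▸ le_max_right _ _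
    exact ⟨⟨⟨by omega, by omega⟩, ⟨by omega, by omega⟩⟩, h⟩

lemma card_Rg {s : ℕ} (hs : 1 ≤ s) : (Rg s).card ≤ 8 * s := by
  set Sm : Finset (ℤ × ℤ) :=
    (Finset.Icc (-((s : ℤ) - 1)) (s - 1)) ×ˢ (Finset.Icc (-((s : ℤ) - 1)) (s - 1)) with hSm
  set Bg : Finset (ℤ × ℤ) := (Finset.Icc (-(s : ℤ)) s) ×ˢ (Finset.Icc (-(s : ℤ)) s) with hBg
  have h1 : Rg s ⊆ Bg \ Sm := by
    intro z hz
    have h2 := mem_Rg.1 hz
    have h3 : z ∈ Bg := Finset.filter_subset _ _ hz
    rw [Finset.mem_sdiff]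
    refine ⟨h3, fun h4 => ?_⟩
    rw [hSm, Finset.mem_product, Finset.mem_Icc, Finset.mem_Icc] at h4
    rcases max_choice z.1.natAbs z.2.natAbs with h5 | h5 <;> rw [h5] at h2 <;> omega
  have h2 : Sm ⊆ Bg := by
    intro z hz
    rw [hSm, Finset.mem_product, Finset.mem_Icc, Finset.mem_Icc] at hz
    rw [hBg, Finset.mem_product, Finset.mem_Icc, Finset.mem_Icc]
    omega
  refine (Finset.card_le_card h1).trans ?_
  rw [Finset.card_sdiff_of_subset h2, hSm, hBg, Finset.card_product, Finset.card_product,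
    Int.card_Icc, Int.card_Icc]
  obtain ⟨t, rfl⟩ : ∃ t, s = t + 1 := ⟨s - 1, by omega⟩
  have e1 : (((t + 1 : ℕ) : ℤ) + 1 - -((t + 1 : ℕ) : ℤ)).toNat = 2 * t + 3 := by omega
  have e2 : (((t + 1 : ℕ) : ℤ) - 1 + 1 - -(((t + 1 : ℕ) : ℤ) - 1)).toNat = 2 * t + 1 := by omega
  rw [e1, e2]
  have : (2 * t + 3) * (2 * t + 3) = (2 * t + 1) * (2 * t + 1) + 8 * (t + 1) := by ring
  omega

variable {d : ℕ}

/-- the centres of the tiles -/
def tl (i j : Fin d) (n : ℕ) (z : ℤ × ℤ) : Fin d → ℤ :=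
  pl 0 i j ((2 * n + 1) * z.1, (2 * n + 1) * z.2)

lemma tl_sep {i j : Fin d} (hij : i ≠ j) (n : ℕ) {z z' : ℤ × ℤ} (h : z ≠ z') :
    2 * n + 1 ≤ nrm (tl i j n z' - tl i j n z) := by
  by_contra hc
  have h1 : nrm (tl i j n z' - tl i j n z) ≤ 2 * n := by omega
  rw [nrm_le] at h1
  have hi := h1 i
  have hj := h1 j
  unfold tl at hi hj
  rw [Pi.sub_apply, pl_i _ hij, pl_i _ hij] at hi
  rw [Pi.sub_apply, pl_j _ hij, pl_j _ hij] at hj
  simp only [Pi.zero_apply, zero_add] at hi hj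
  push_cast at hi hj
  have key : ∀ a b : ℤ, |(2 * (n : ℤ) + 1) * a - (2 * n + 1) * b| ≤ 2 * n → a = b := by
    intro a b hab
    rw [abs_le] at hab
    have hn : (0 : ℤ) ≤ n := Nat.cast_nonneg n
    rcases lt_trichotomy a b with h2 | h2 | h2
    · have h3 : a + 1 ≤ b := h2
      nlinarith [hab.1, hab.2]
    · exact h2
    · have h3 : b + 1 ≤ a := h2
      nlinarith [hab.1, hab.2]
  exact h (Prod.ext (key _ _ hi).symm (key _ _ hj).symm)

lemma ie_mono {J : (Fin d → ℤ) × Fin d → ℝ} {w w' : Fin d → ℤ} {r r' : ℕ}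
    (h : nrm (w' - w) + r' ≤ r) {e : (Fin d → ℤ) × Fin d} (hJ : IE J w r e) : IE J w' r' e := by
  obtain ⟨σ, τ, h1, h2, h3⟩ := hJ
  exact ⟨σ, τ, h1.mono (bx_sub h), h2.mono (bx_sub h), h3⟩

/-- one of the tiles on the ring is influenced -/
theorem ring (hd : 2 ≤ d) {J : (Fin d → ℤ) × Fin d → ℝ} (hJ : Gn J) {i j : Fin d} (hij : i ≠ j)
    (n r : ℕ) : ∃ z ∈ Rg ((r + 2 * n + 2) / (2 * n + 1)), IB J (tl i j n z) n r := by
  obtain ⟨q, k, hq, h⟩ := levels hd hJ 0 hij (l := r + n + 2) (by omega)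
  have hpl : max q.1.natAbs q.2.natAbs = r + n + 2 := by
    rw [← hq]
    apply le_antisymm
    · have h1 := (nrm_le (x := pl 0 i j q - 0)).1 le_rfl i
      have h2 := (nrm_le (x := pl 0 i j q - 0)).1 le_rfl j
      rw [Pi.sub_apply, pl_i _ hij, add_sub_cancel_left, Int.abs_eq_natAbs] at h1
      rw [Pi.sub_apply, pl_j _ hij, add_sub_cancel_left, Int.abs_eq_natAbs] at h2
      exact max_le (by exact_mod_cast h1) (by exact_mod_cast h2)
    · rw [nrm_le]
      intro a
      push_cast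
      by_cases hai : a = i
      · rw [hai, Pi.sub_apply, pl_i _ hij, add_sub_cancel_left]
        exact le_max_left _ _
      · by_cases haj : a = j
        · rw [haj, Pi.sub_apply, pl_j _ hij, add_sub_cancel_left]
          exact le_max_right _ _
        · rw [Pi.sub_apply, pl_k _ hai haj, sub_self, abs_zero]
          positivity
  refine ⟨(rd n q.1, rd n q.2), ?_, ?_⟩
  · rw [mem_Rg, rd_max hpl]
    congr 1
    ring
  · have hnear : nrm (pl 0 i j q - tl i j n (rd n q.1, rd n q.2)) ≤ n := by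
      rw [nrm_le]
      intro a
      unfold tl
      by_cases hai : a = i
      · rw [hai, Pi.sub_apply, pl_i _ hij, pl_i _ hij]
        have := rd_near n q.1
        simpa using this
      · by_cases haj : a = j
        · rw [haj, Pi.sub_apply, pl_j _ hij, pl_j _ hij]
          have := rd_near n q.2
          simpa using this
        · rw [Pi.sub_apply, pl_k _ hai haj, pl_k _ hai haj, sub_self, abs_zero]
          positivity
    refine ⟨(pl 0 i j q, k), hnear, ie_mono ?_ (h (r + n) (by omega))⟩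
    rw [nrm_sub_comm] at hnear
    omega

/-! ### Independent events on the tiles -/

variable (μ : Measure ℝ) [IsProbabilityMeasure μ]

lemma dep_shw {F : Set ((Fin d → ℤ) × Fin d → ℝ)} {n : ℕ} (hF : Dep F (tb 0 n))
    (w : Fin d → ℤ) : Dep (shw w ⁻¹' F) (tb w n) := by
  intro J J' hJ h
  refine hF _ _ (fun e he => ?_) h
  unfold shw
  refine hJ _ ?_
  rw [mem_tb, mem_bx, mem_bx] at he ⊢
  rw [nx_shift, add_sub_cancel_right, add_sub_cancel_right]
  simpa using he

lemma prod_events {ι : Type*} (W : Finset ι) (w : ι → (Fin d → ℤ)) {n : ℕ}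
    (hsep : ∀ x ∈ W, ∀ y ∈ W, x ≠ y → 2 * n + 2 ≤ nrm (w y - w x))
    {F : Set ((Fin d → ℤ) × Fin d → ℝ)} (hF : MeasurableSet F) (hdep : Dep F (tb 0 n)) :
    Lw μ d (⋂ x ∈ W, shw (w x) ⁻¹' F) = (Lw μ d F) ^ W.card := by
  classical
  induction W using Finset.induction_on with
  | empty => simp
  | insert a W ha ih =>
    have h1 : (⋂ x ∈ insert a W, shw (w x) ⁻¹' F) =
        shw (w a) ⁻¹' F ∩ ⋂ x ∈ W, shw (w x) ⁻¹' F := by
      ext J; simp
    rw [h1, indep_events μ (S := tb (w a) n) (T := W.biUnion fun x => tb (w x) n) ?_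
      ((shw_law μ (w a)).measurable hF)
      (Finset.measurableSet_biInter _ fun x _ => (shw_law μ (w x)).measurable hF)
      (dep_shw hdep (w a)) ?_, ih ?_, Finset.card_insert_of_notMem ha, pow_succ, mul_comm,
      (shw_law μ (w a)).measure_preimage hF.nullMeasurableSet]
    · intro x hx y hy
      exact hsep x (Finset.mem_insert_of_mem hx) y (Finset.mem_insert_of_mem hy)
    · rw [Finset.disjoint_biUnion_right]
      intro x hx
      refine tb_disj (hsep a (Finset.mem_insert_self _ _) x (Finset.mem_insert_of_mem hx) ?_)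
      rintro rfl
      exact ha hx
    · intro J J' hJ h
      rw [Set.mem_iInter₂] at h ⊢
      intro x hx
      exact dep_shw hdep (w x) J J'
        (fun e he => hJ e (Finset.mem_biUnion.2 ⟨x, hx, he⟩)) (h x hx)

/-- influence given an event in the smaller box -/
theorem cond_lower (hd : 2 ≤ d) (hat : ∀ x, μ {x} = 0) {n r : ℕ} (hn : 1 ≤ n) (hnr : n ≤ r)
    {F : Set ((Fin d → ℤ) × Fin d → ℝ)} (hF : MeasurableSet F) (hdep : Dep F (tb 0 (n - 1)))
    {S : ℕ} (hS : (r + 2 * n + 2) / (2 * n + 1) ≤ S) :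
    (Lw μ d).real F ^ (8 * S) ≤ (8 * S : ℝ) * (Lw μ d).real ({J | IB J 0 n r} ∩ F) := by
  classical
  set i : Fin d := ⟨0, by omega⟩ with hi
  set j : Fin d := ⟨1, by omega⟩ with hj
  have hij : i ≠ j := by
    intro h
    have := congrArg Fin.val h
    simp [hi, hj] at this
  set s : ℕ := (r + 2 * n + 2) / (2 * n + 1) with hs
  have hs1 : 1 ≤ s := (Nat.le_div_iff_mul_le (by omega)).2 (by omega)
  have hsep : ∀ x ∈ Rg s, ∀ y ∈ Rg s, x ≠ y →
      2 * (n - 1) + 2 ≤ nrm (tl i j n y - tl i j n x) := by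
    intro x _ y _ hxy
    have := tl_sep hij n hxy
    omega
  have h1 := prod_events μ (Rg s) (tl i j n) hsep hF hdep
  have h2 : Lw μ d (⋂ z ∈ Rg s, shw (tl i j n z) ⁻¹' F) ≤
      ((Rg s).card : ENNReal) * Lw μ d ({J | IB J 0 n r} ∩ F) := by
    calc Lw μ d (⋂ z ∈ Rg s, shw (tl i j n z) ⁻¹' F)
        ≤ Lw μ d (⋃ z ∈ Rg s, shw (tl i j n z) ⁻¹' ({J | IB J 0 n r} ∩ F)) := by
          refine measure_mono_ae ?_
          filter_upwards [gn_ae (d := d) μ hat] with J hJ h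
          obtain ⟨z, hz, hI⟩ := ring hd hJ hij n r
          have h' : ∀ z ∈ Rg s, J ∈ shw (tl i j n z) ⁻¹' F := by
            have h'' : J ∈ ⋂ z ∈ Rg s, shw (tl i j n z) ⁻¹' F := h
            rwa [Set.mem_iInter₂] at h''
          show J ∈ ⋃ z ∈ Rg s, shw (tl i j n z) ⁻¹' ({J | IB J 0 n r} ∩ F)
          rw [Set.mem_iUnion₂]
          exact ⟨z, hz, ib_shift hI, h' z hz⟩
      _ ≤ ∑ z ∈ Rg s, Lw μ d (shw (tl i j n z) ⁻¹' ({J | IB J 0 n r} ∩ F)) :=
          measure_biUnion_finset_le _ _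
      _ = ∑ _z ∈ Rg s, Lw μ d ({J | IB J 0 n r} ∩ F) := by
          refine Finset.sum_congr rfl fun z _ => ?_
          exact (shw_law μ _).measure_preimage ((ib_meas 0 hnr).inter hF).nullMeasurableSet
      _ = _ := by rw [Finset.sum_const, nsmul_eq_mul]
  rw [h1] at h2
  have h3 := ENNReal.toReal_mono
    (ENNReal.mul_ne_top (ENNReal.natCast_ne_top _) (measure_ne_top _ _)) h2
  rw [ENNReal.toReal_pow, ENNReal.toReal_mul, ENNReal.toReal_natCast] at h3
  have h4 : (Lw μ d).real F ^ (Rg s).card ≤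
      ((Rg s).card : ℝ) * (Lw μ d).real ({J | IB J 0 n r} ∩ F) := h3
  have hc : (Rg s).card ≤ 8 * S := (card_Rg hs1).trans (by omega)
  have h5 : (Lw μ d).real F ^ (8 * S) ≤ (Lw μ d).real F ^ (Rg s).card :=
    pow_le_pow_of_le_one measureReal_nonneg measureReal_le_one hc
  refine h5.trans (h4.trans ?_)
  refine mul_le_mul_of_nonneg_right ?_ measureReal_nonneg
  exact_mod_cast hc

/-! ### Separated scales -/

section

variable {a b : ℕ → ℕ} (hab : ∀ k, a k ≤ b k) (hba : ∀ k, b k < a (k + 1))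

include hab hba

lemma sc_lt {j k : ℕ} (h : j < k) : b j < a k := by
  have hmono : Monotone a := monotone_nat_of_le_succ fun k => by
    have := hab k; have := hba k; omega
  have h1 := hmono (show j + 1 ≤ k from h)
  have h2 := hba j
  omega

lemma sc_agree {k : ℕ} {J J' : (Fin d → ℤ) × Fin d → ℝ} (hJ : ∀ e ∈ tb 0 (a k - 1), J e = J' e)
    {j : ℕ} (h : j < k) : IB J 0 (a j) (b j) ↔ IB J' 0 (a j) (b j) := by
  have h1 := sc_lt hab hba h
  have h2 : ∀ e : (Fin d → ℤ) × Fin d, e ∈ tb 0 (b j) → e ∈ tb 0 (a k - 1) := by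
    intro e he
    rw [mem_tb, mem_bx, mem_bx] at he ⊢
    omega
  exact ⟨ib_congr fun e he => hJ e (h2 e he), ib_congr fun e he => (hJ e (h2 e he)).symm⟩

end

/-- no influence at the scales from `k0` to `k` -/
def No (a b : ℕ → ℕ) (k0 k : ℕ) : Set ((Fin d → ℤ) × Fin d → ℝ) :=
  {J | ∀ j, k0 ≤ j → j < k → ¬ IB J 0 (a j) (b j)}

lemma no_meas {a b : ℕ → ℕ} (hab : ∀ k, a k ≤ b k) (k0 k : ℕ) :
    MeasurableSet (No (d := d) a b k0 k) := by
  have h1 : No (d := d) a b k0 k = ⋂ (j : ℕ) (_ : k0 ≤ j) (_ : j < k),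
      {J : (Fin d → ℤ) × Fin d → ℝ | IB J 0 (a j) (b j)}ᶜ := by
    ext J
    simp only [No, Set.mem_ofPred_eq, Set.mem_iInter, Set.mem_compl_iff]
  rw [h1]
  exact MeasurableSet.iInter fun j => MeasurableSet.iInter fun _ => MeasurableSet.iInter fun _ =>
    (sc_meas hab 0 j).compl

theorem inf_often (hd : 2 ≤ d) (hat : ∀ x, μ {x} = 0) {a b : ℕ → ℕ} (hab : ∀ k, a k ≤ b k)
    (hba : ∀ k, b k < a (k + 1)) (ha1 : ∀ k, 1 ≤ a k) {S : ℕ → ℕ}
    (hS : ∀ k, (b k + 2 * a k + 2) / (2 * a k + 1) ≤ S k)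
    (hdiv : ∀ x : ℝ, 0 < x → x ≤ 1 → ¬ Summable fun k => x ^ (8 * S k) / (8 * S k : ℝ)) :
    ∀ᵐ J ∂(Lw μ d), ∃ᶠ k in atTop, IB J 0 (a k) (b k) := by
  have hS1 : ∀ k, 1 ≤ S k := fun k =>
    ((Nat.le_div_iff_mul_le (by omega)).2 (by omega)).trans (hS k)
  have main : ∀ k0 : ℕ, Lw μ d {J | ∀ j, k0 ≤ j → ¬ IB J 0 (a j) (b j)} = 0 := by
    intro k0
    set N0 : Set ((Fin d → ℤ) × Fin d → ℝ) := {J | ∀ j, k0 ≤ j → ¬ IB J 0 (a j) (b j)} with hN0
    set f : ℝ := (Lw μ d).real N0 with hf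
    by_contra hne
    have hf0 : 0 < f := by
      rw [hf, measureReal_def]
      exact ENNReal.toReal_pos hne (measure_ne_top _ _)
    have hf1 : f ≤ 1 := measureReal_le_one
    set g : ℕ → ℝ := fun k => (Lw μ d).real (No a b k0 k) with hg
    have hfg : ∀ k, f ≤ g k := fun k => measureReal_mono fun J hJ j hj _ => hJ j hj
    set t : ℕ → ℝ := fun k => f ^ (8 * S k) / (8 * S k : ℝ) with ht
    have hSpos : ∀ k, (0 : ℝ) < 8 * S k := fun k => by
      have : (1 : ℝ) ≤ S k := by exact_mod_cast hS1 k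
      linarith
    have ht0 : ∀ k, 0 ≤ t k := fun k => div_nonneg (pow_nonneg hf0.le _) (hSpos k).le
    have ht1 : ∀ k, t k ≤ 1 := by
      intro k
      rw [ht, div_le_one (hSpos k)]
      have h1 : f ^ (8 * S k) ≤ 1 := pow_le_one₀ hf0.le hf1
      have h2 : (1 : ℝ) ≤ S k := by exact_mod_cast hS1 k
      linarith
    have hstep : ∀ k, k0 ≤ k → t k + g (k + 1) ≤ g k := by
      intro k hk
      have hdep : Dep (No (d := d) a b k0 k) (tb 0 (a k - 1)) := by
        intro J J' hJ h j hj hjk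
        rw [← sc_agree hab hba hJ hjk]
        exact h j hj hjk
      have h1 := cond_lower μ hd hat (ha1 k) (hab k) (no_meas hab k0 k) hdep (hS k)
      have h2 := measureReal_inter_add_sdiff (μ := Lw μ d) (s := No (d := d) a b k0 k)
        (sc_meas hab 0 k)
      have h3 : No (d := d) a b k0 (k + 1) =
          No a b k0 k \ {J | IB J 0 (a k) (b k)} := by
        ext J
        simp only [No, Set.mem_ofPred_eq, Set.mem_sdiff]
        constructor
        · intro h
          exact ⟨fun j hj hjk => h j hj (by omega), h k hk (by omega)⟩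
        · rintro ⟨h, h'⟩ j hj hjk
          rcases Nat.lt_succ_iff_lt_or_eq.1 hjk with h4 | h4
          · exact h j hj h4
          · rw [h4]; exact h'
      have h4 : t k ≤ (Lw μ d).real ({J | IB J 0 (a k) (b k)} ∩ No a b k0 k) := by
        rw [ht, div_le_iff₀ (hSpos k)]
        exact ((pow_le_pow_left₀ hf0.le (hfg k) _).trans h1).trans_eq (mul_comm _ _)
      rw [Set.inter_comm, ← h3] at h2
      simp only [hg]
      linarith
    have hsum : ∀ K, ∑ k ∈ Finset.range K, t k ≤ k0 + 1 := by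
      intro K
      rcases le_total K k0 with hK | hK
      · have h1 : ∑ k ∈ Finset.range K, t k ≤ ∑ _k ∈ Finset.range K, (1 : ℝ) :=
          Finset.sum_le_sum fun k _ => ht1 k
        rw [Finset.sum_const, Finset.card_range, nsmul_eq_mul, mul_one] at h1
        have h2 : (K : ℝ) ≤ k0 := by exact_mod_cast hK
        linarith
      · have h1 : ∀ K, k0 ≤ K → ∑ k ∈ Finset.range K, t k + g K ≤ k0 + 1 := by
          intro K hK
          induction K, hK using Nat.le_induction with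
          | base =>
            have h1 : ∑ k ∈ Finset.range k0, t k ≤ ∑ _k ∈ Finset.range k0, (1 : ℝ) :=
              Finset.sum_le_sum fun k _ => ht1 k
            rw [Finset.sum_const, Finset.card_range, nsmul_eq_mul, mul_one] at h1
            have h2 : g k0 ≤ 1 := measureReal_le_one
            linarith
          | succ K hK ih =>
            rw [Finset.sum_range_succ]
            have := hstep K hK
            linarith
        have h2 : 0 ≤ g K := measureReal_nonneg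
        linarith [h1 K hK]
    exact hdiv f hf0 hf1 (summable_of_sum_range_le ht0 hsum)
  have h1 : ∀ᵐ J ∂(Lw μ d), ∀ k0 : ℕ, ¬ ∀ j, k0 ≤ j → ¬ IB J 0 (a j) (b j) := by
    rw [ae_all_iff]
    intro k0
    rw [ae_iff]
    simp only [not_not]
    exact main k0
  filter_upwards [h1] with J hJ
  rw [frequently_atTop]
  intro k0
  have := hJ k0
  push Not at this
  obtain ⟨j, hj, h⟩ := this
  exact ⟨j, hj, h⟩

lemma div_log {L : ℕ → ℕ} (hL1 : ∀ k, 1 ≤ L k)
    (hL : Tendsto (fun k => (L k : ℝ) / Real.log k) atTop (𝓝 0)) {x : ℝ} (hx0 : 0 < x)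
    (_hx1 : x ≤ 1) : ¬ Summable fun k => x ^ (8 * L k) / (8 * L k : ℝ) := by
  intro hsum
  set A : ℝ := |Real.log x| with hA
  have hA0 : 0 ≤ A := abs_nonneg _
  set ε : ℝ := 1 / (16 * (A + 1)) with hε
  have hε0 : 0 < ε := by positivity
  have h1 : ∀ᶠ k : ℕ in atTop, (L k : ℝ) / Real.log k < ε := hL.eventually (gt_mem_nhds hε0)
  have h2 : ∀ᶠ k : ℕ in atTop, ‖(1 : ℝ) / k‖ ≤ x ^ (8 * L k) / (8 * L k : ℝ) := by
    filter_upwards [h1, eventually_ge_atTop 3] with k hk hk3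
    have hk0 : (0 : ℝ) < k := by
      have : 0 < k := by omega
      exact_mod_cast this
    have hk1 : (1 : ℝ) < k := by
      have : 1 < k := by omega
      exact_mod_cast this
    have hlog : 0 < Real.log k := Real.log_pos hk1
    have hLk : (L k : ℝ) < ε * Real.log k := (div_lt_iff₀ hlog).1 hk
    have hL0 : (1 : ℝ) ≤ L k := by exact_mod_cast hL1 k
    have e1 : 8 * ε * A ≤ 1 / 2 := by
      rw [hε]
      rw [show 8 * (1 / (16 * (A + 1))) * A = (1 / 2) * (A / (A + 1)) by field_simp; ring]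
      have : A / (A + 1) ≤ 1 := (div_le_one (by linarith)).2 (by linarith)
      linarith
    have e2 : 8 * ε ≤ 1 / 2 := by
      rw [hε, show 8 * (1 / (16 * (A + 1))) = (1 / 2) * (1 / (A + 1)) by field_simp; ring]
      have : 1 / (A + 1) ≤ 1 := (div_le_one (by linarith)).2 (by linarith)
      linarith
    have k1 : (k : ℝ) ^ (-(1 / 2) : ℝ) ≤ x ^ (8 * L k) := by
      rw [← Real.rpow_natCast x, Real.rpow_def_of_pos hk0, Real.rpow_def_of_pos hx0,
        Real.exp_le_exp]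
      push_cast
      have h3 : -A ≤ Real.log x := neg_abs_le _
      have h4 : Real.log x * (8 * (L k : ℝ)) ≥ -A * (8 * L k) :=
        mul_le_mul_of_nonneg_right h3 (by linarith)
      have h5 : A * (8 * (L k : ℝ)) ≤ A * (8 * (ε * Real.log k)) :=
        mul_le_mul_of_nonneg_left (by linarith) hA0
      have h6 : A * (8 * (ε * Real.log k)) = (8 * ε * A) * Real.log k := by ring
      have h7 : (8 * ε * A) * Real.log k ≤ 1 / 2 * Real.log k :=
        mul_le_mul_of_nonneg_right e1 hlog.le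
      linarith
    have k2 : 8 * (L k : ℝ) ≤ (k : ℝ) ^ (1 / 2 : ℝ) := by
      have h3 := Real.log_le_rpow_div hk0.le (show (0 : ℝ) < 1 / 2 by norm_num)
      have h4 : 8 * (L k : ℝ) ≤ (8 * ε) * Real.log k := by linarith
      have h5 : (8 * ε) * Real.log k ≤ 1 / 2 * Real.log k :=
        mul_le_mul_of_nonneg_right e2 hlog.le
      have h6 : (k : ℝ) ^ (1 / 2 : ℝ) / (1 / 2) = 2 * (k : ℝ) ^ (1 / 2 : ℝ) := by ring
      rw [h6] at h3
      linarith
    have k3 : (k : ℝ) ^ (-(1 / 2) : ℝ) = 1 / (k : ℝ) ^ (1 / 2 : ℝ) := by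
      rw [Real.rpow_neg hk0.le, one_div ((k : ℝ) ^ (1 / 2 : ℝ))]
    have k4 : (k : ℝ) ^ (1 / 2 : ℝ) * (k : ℝ) ^ (1 / 2 : ℝ) = k := by
      rw [← Real.rpow_add hk0]
      norm_num
    have k5 : (0 : ℝ) < (k : ℝ) ^ (1 / 2 : ℝ) := Real.rpow_pos_of_pos hk0 _
    rw [Real.norm_of_nonneg (by positivity), div_le_div_iff₀ hk0 (by linarith), one_mul]
    rw [k3] at k1
    calc 8 * (L k : ℝ) ≤ (k : ℝ) ^ (1 / 2 : ℝ) := k2
      _ = 1 / (k : ℝ) ^ (1 / 2 : ℝ) * k := by
          rw [div_mul_eq_mul_div, one_mul, eq_div_iff k5.ne', k4]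
      _ ≤ x ^ (8 * L k) * k := mul_le_mul_of_nonneg_right k1 hk0.le
  exact Real.not_summable_one_div_natCast (Summable.of_norm_bounded_eventually_nat hsum h2)

lemma div_le {n L : ℕ} (hn : 1 ≤ n) (hL : 1 ≤ L) : (L * n + 2 * n + 2) / (2 * n + 1) ≤ L := by
  rw [← Nat.lt_succ_iff, Nat.div_lt_iff_lt_mul (by omega)]
  nlinarith [Nat.mul_le_mul hL hn]

/-- influence from a distance `L k` times larger, infinitely often -/
theorem growth (hd : 2 ≤ d) (hat : ∀ x, μ {x} = 0) {n L : ℕ → ℕ} (hn : ∀ k, 1 ≤ n k)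
    (hL1 : ∀ k, 1 ≤ L k) (hL : Tendsto (fun k => (L k : ℝ) / Real.log k) atTop (𝓝 0))
    (hsep : ∀ k, L k * n k < n (k + 1)) :
    ∀ᵐ J ∂(Lw μ d), ∀ c : Fin d → ℤ, ∃ᶠ k in atTop, IB J c (n k) (L k * n k) := by
  have h1 := inf_often (d := d) μ hd hat (a := n) (b := fun k => L k * n k)
    (fun k => Nat.le_mul_of_pos_left _ (hL1 k)) hsep hn (S := L)
    (fun k => div_le (hn k) (hL1 k)) (fun x hx0 hx1 => div_log hL1 hL hx0 hx1)
  rw [ae_all_iff]
  intro c
  have h2 := (shw_law (d := d) μ c).quasiMeasurePreserving.ae h1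
  filter_upwards [h2] with J hJ
  exact hJ.mono fun k hk => ib_back hk

/-- the number of influenced scales is large with large probability -/
theorem count (hd : 2 ≤ d) (hat : ∀ x, μ {x} = 0) {a b : ℕ → ℕ} (hab : ∀ k, a k ≤ b k)
    (hba : ∀ k, b k < a (k + 1)) (ha1 : ∀ k, 1 ≤ a k) {S : ℕ}
    (hS : ∀ k, (b k + 2 * a k + 2) / (2 * a k + 1) ≤ S) (N : ℕ) {T : ℝ} (hT : 0 ≤ T) :
    N * (Lw μ d).real {J | (nsc a b 0 J N : ℝ) < T} ^ (8 * S) ≤ 8 * S * (T + 1) := by
  classical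
  have hS1 : 1 ≤ S := ((Nat.le_div_iff_mul_le (by omega)).2 (by omega)).trans (hS 0)
  have hSpos : (0 : ℝ) < 8 * S := by
    have : (1 : ℝ) ≤ S := by exact_mod_cast hS1
    linarith
  set F : ℕ → Set ((Fin d → ℤ) × Fin d → ℝ) := fun k => {J | (nsc a b 0 J k : ℝ) < T} with hF
  set A : ℕ → Set ((Fin d → ℤ) × Fin d → ℝ) := fun k => {J | IB J 0 (a k) (b k)} with hA
  have hFm : ∀ k, MeasurableSet (F k) := fun k =>
    measurableSet_lt (nsc_meas hab 0 k) measurable_const
  have hsucc : ∀ (J : (Fin d → ℤ) × Fin d → ℝ) k, nsc a b 0 J (k + 1) =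
      nsc a b 0 J k + if J ∈ A k then 1 else 0 := by
    intro J k
    unfold nsc
    rw [Finset.range_add_one, Finset.filter_insert]
    by_cases h : IB J 0 (a k) (b k)
    · rw [if_pos h, if_pos (show J ∈ A k from h), Finset.card_insert_of_notMem (by simp)]
    · rw [if_neg h, if_neg (show J ∉ A k from h), add_zero]
  have hFa : ∀ k, k ≤ N → F N ⊆ F k := by
    intro k hk J hJ
    have h1 : nsc a b 0 J k ≤ nsc a b 0 J N := by
      unfold nsc
      exact Finset.card_le_card (Finset.filter_subset_filter _ (Finset.range_mono hk))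
    have h2 : (nsc a b 0 J k : ℝ) ≤ nsc a b 0 J N := by exact_mod_cast h1
    exact lt_of_le_of_lt h2 hJ
  have hdep : ∀ k, Dep (F k) (tb 0 (a k - 1)) := by
    intro k J J' hJ h
    have h1 : nsc a b 0 J' k = nsc a b 0 J k := by
      unfold nsc
      congr 1
      refine Finset.filter_congr fun j hj => ?_
      exact (sc_agree hab hba hJ (Finset.mem_range.1 hj)).symm
    show (nsc a b 0 J' k : ℝ) < T
    rw [h1]
    exact h
  set p : ℝ := (Lw μ d).real (F N) with hp
  have hp0 : 0 ≤ p := measureReal_nonneg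
  have h1 : ∀ k, k < N → p ^ (8 * S) ≤ 8 * S * (Lw μ d).real (A k ∩ F k) := by
    intro k hk
    refine (pow_le_pow_left₀ hp0 (measureReal_mono (hFa k hk.le)) _).trans ?_
    exact cond_lower μ hd hat (ha1 k) (hab k) (hFm k) (hdep k) (hS k)
  have h2 : ∀ (J : (Fin d → ℤ) × Fin d → ℝ) (K : ℕ),
      ∑ k ∈ Finset.range K, (A k ∩ F k).indicator (fun _ => (1 : ℝ)) J ≤ nsc a b 0 J K ∧
      ∑ k ∈ Finset.range K, (A k ∩ F k).indicator (fun _ => (1 : ℝ)) J ≤ T + 1 := by
    intro J K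
    induction K with
    | zero =>
      simp only [Finset.range_zero, Finset.sum_empty]
      exact ⟨Nat.cast_nonneg _, by linarith⟩
    | succ K ih =>
      rw [Finset.sum_range_succ, hsucc J K]
      by_cases hJ : J ∈ A K ∩ F K
      · rw [Set.indicator_of_mem hJ, if_pos hJ.1]
        have h3 : (nsc a b 0 J K : ℝ) < T := hJ.2
        push_cast
        constructor <;> linarith [ih.1]
      · rw [Set.indicator_of_notMem hJ, add_zero]
        refine ⟨ih.1.trans ?_, ih.2⟩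
        push_cast
        have : (0 : ℝ) ≤ if J ∈ A K then 1 else 0 := by split_ifs <;> norm_num
        linarith
  have h3 : ∑ k ∈ Finset.range N, (Lw μ d).real (A k ∩ F k) ≤ T + 1 := by
    have h4 : ∫ J, ∑ k ∈ Finset.range N, (A k ∩ F k).indicator (fun _ => (1 : ℝ)) J ∂(Lw μ d) =
        ∑ k ∈ Finset.range N, (Lw μ d).real (A k ∩ F k) := by
      rw [integral_finsetSum]
      · refine Finset.sum_congr rfl fun k _ => ?_
        rw [integral_indicator_const (1 : ℝ) ((sc_meas hab 0 k).inter (hFm k)), smul_eq_mul,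
          mul_one]
      · intro k _
        exact (integrable_const (1 : ℝ)).indicator ((sc_meas hab 0 k).inter (hFm k))
    rw [← h4]
    have h5 : ∫ _ : (Fin d → ℤ) × Fin d → ℝ, (T + 1) ∂(Lw μ d) = T + 1 := by simp
    rw [← h5]
    refine integral_mono ?_ (integrable_const _) (fun J => (h2 J N).2)
    exact integrable_finsetSum _ fun k _ =>
      (integrable_const (1 : ℝ)).indicator ((sc_meas hab 0 k).inter (hFm k))
  calc N * p ^ (8 * S) = ∑ _k ∈ Finset.range N, p ^ (8 * S) := by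
        rw [Finset.sum_const, Finset.card_range, nsmul_eq_mul]
    _ ≤ ∑ k ∈ Finset.range N, 8 * S * (Lw μ d).real (A k ∩ F k) :=
        Finset.sum_le_sum fun k hk => h1 k (Finset.mem_range.1 hk)
    _ = 8 * S * ∑ k ∈ Finset.range N, (Lw μ d).real (A k ∩ F k) := by rw [Finset.mul_sum]
    _ ≤ 8 * S * (T + 1) := mul_le_mul_of_nonneg_left h3 hSpos.le

end Pool.Agent.R239.EA
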