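import Pool.Agent.R239.EA.I

/-!
# Average failure probability of local rules
-/

set_option autoImplicit false

open Finset MeasureTheory ProbabilityTheory Filter Topology

namespace Pool.Agent.R239.EA

variable {d : ℕ}

/-- the four boxes with number `l` on the square around `c` -/
def fo (c : Fin d → ℤ) (i j : Fin d) (n r l : ℕ) : Fin 4 → (Fin d → ℤ) :=
  ![ce n (pa c i j r) i l, ce n (pa c i j r) j l, ce n (pd c i j r) i l, ce n (pb c i j r) j l]

lemma fo_add (c : Fin d → ℤ) (i j : Fin d) (n r l : ℕ) (k : Fin 4) :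
    fo c i j n r l k = c + fo 0 i j n r l k := by
  fin_cases k <;> simp only [fo, ce, pa, pb, pd] <;> simp <;> abel

lemma fo_near {i j : Fin d} (hij : i ≠ j) {n r m l : ℕ}
    (hm : 2 * r + 3 ≤ m * (2 * n + 1)) (hl : l < m) (k : Fin 4) :
    nrm (fo (0 : Fin d → ℤ) i j n r l k) ≤ m * (2 * n + 1) := by
  rw [nrm_le]
  intro a
  have hl' : (l : ℤ) * (2 * n + 1) + (2 * n + 1) ≤ m * (2 * n + 1) := by
    have : (l + 1) * (2 * n + 1) ≤ m * (2 * n + 1) := Nat.mul_le_mul_right _ hl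
    have h2 : l * (2 * n + 1) + (2 * n + 1) ≤ m * (2 * n + 1) := by
      rw [add_mul, one_mul] at this; exact this
    exact_mod_cast h2
  have hl0 : (0 : ℤ) ≤ (l : ℤ) * (2 * n + 1) := by positivity
  have hm' : 2 * (r : ℤ) + 3 ≤ m * (2 * n + 1) := by exact_mod_cast hm
  have hn0 : (0 : ℤ) ≤ n := Nat.cast_nonneg n
  have hr0 : (0 : ℤ) ≤ r := Nat.cast_nonneg r
  push_cast
  have hui : u i a = 0 ∧ u j a = 0 ∨ u i a = 1 ∧ u j a = 0 ∨ u i a = 0 ∧ u j a = 1 := by
    by_cases h1 : a = i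
    · right; left
      rw [h1]
      exact ⟨u_same i, u_ne hij⟩
    · by_cases h2 : a = j
      · right; right
        rw [h2]
        exact ⟨u_ne hij.symm, u_same j⟩
      · left
        exact ⟨u_ne h1, u_ne h2⟩
  fin_cases k
  · have e1 : fo (0 : Fin d → ℤ) i j n r l 0 a =
        -((r : ℤ) + 1) * u i a - r * u j a + (l * (2 * n + 1) + n) * u i a := by
      simp only [fo, ce, pa, Matrix.cons_val_zero, Pi.add_apply, Pi.sub_apply, Pi.smul_apply,
        smul_eq_mul, Pi.zero_apply]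
      ring
    show |fo (0 : Fin d → ℤ) i j n r l 0 a| ≤ _
    rw [e1, abs_le]
    rcases hui with ⟨h1, h2⟩ | ⟨h1, h2⟩ | ⟨h1, h2⟩ <;> rw [h1, h2] <;> constructor <;> linarith
  · have e1 : fo (0 : Fin d → ℤ) i j n r l 1 a =
        -((r : ℤ) + 1) * u i a - r * u j a + (l * (2 * n + 1) + n) * u j a := by
      simp only [fo, ce, pa, Matrix.cons_val_one, Matrix.cons_val_zero, Pi.add_apply, Pi.sub_apply,
        Pi.smul_apply, smul_eq_mul, Pi.zero_apply]
      ring
    show |fo (0 : Fin d → ℤ) i j n r l 1 a| ≤ _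
    rw [e1, abs_le]
    rcases hui with ⟨h1, h2⟩ | ⟨h1, h2⟩ | ⟨h1, h2⟩ <;> rw [h1, h2] <;> constructor <;> linarith
  · have e1 : fo (0 : Fin d → ℤ) i j n r l 2 a =
        -((r : ℤ) + 1) * u i a + (r + 1) * u j a + (l * (2 * n + 1) + n) * u i a := by
      simp [fo, ce, pd]
      ring
    show |fo (0 : Fin d → ℤ) i j n r l 2 a| ≤ _
    rw [e1, abs_le]
    rcases hui with ⟨h1, h2⟩ | ⟨h1, h2⟩ | ⟨h1, h2⟩ <;> rw [h1, h2] <;> constructor <;> linarith
  · have e1 : fo (0 : Fin d → ℤ) i j n r l 3 a =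
        ((r : ℤ) + 2) * u i a - r * u j a + (l * (2 * n + 1) + n) * u j a := by
      simp [fo, ce, pb]
    show |fo (0 : Fin d → ℤ) i j n r l 3 a| ≤ _
    rw [e1, abs_le]
    rcases hui with ⟨h1, h2⟩ | ⟨h1, h2⟩ | ⟨h1, h2⟩ <;> rw [h1, h2] <;> constructor <;> linarith

variable (μ : Measure ℝ) [IsProbabilityMeasure μ]

theorem local_sum (hd : 2 ≤ d) (hat : ∀ x, μ {x} = 0) (hsym : μ.map (fun x => -x) = μ)
    {η : (Fin d → ℤ) → ℝ} (hη : ∀ x, η x = 1 ∨ η x = -1) {M : ℕ} {c : Fin d → ℤ} {i j : Fin d}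
    (hij : i ≠ j) {n r m : ℕ} (hnr : n ≤ r) (hm : 2 * r + 3 ≤ m * (2 * n + 1))
    (hM : nrm c + m * (2 * n + 1) + r + 1 ≤ M)
    {F : (Fin d → ℤ) → ((Fin d → ℤ) × Fin d → ℝ) → (Fin d → ℤ) × Fin d → ℝ} (hF : Loc F r) :
    1 ≤ ∑ l ∈ Finset.range m, ∑ k : Fin 4,
      2 * Lw μ d {J | Er M η F n (fo c i j n r l k) J} := by
  classical
  set E : (Fin d → ℤ) → Set ((Fin d → ℤ) × Fin d → ℝ) := fun w => {J | Er M η F n w J} with hE
  set K := Kh c i j with hK
  set H := dC {v : Fin d → ℤ | v i ≤ c i ∧ v ∈ bx (0 : Fin d → ℤ) M} with hH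
  set A : ℕ → Set ((Fin d → ℤ) × Fin d → ℝ) := fun l =>
    (flS K ⁻¹' E (ce n (pa c i j r) i l) ∪ flS H ⁻¹' E (ce n (pa c i j r) i l)) ∪
    ((E (ce n (pa c i j r) j l) ∪ flS K ⁻¹' E (ce n (pa c i j r) j l)) ∪
    ((E (ce n (pd c i j r) i l) ∪ flS K ⁻¹' E (ce n (pd c i j r) i l)) ∪
    (E (ce n (pb c i j r) j l) ∪ flS K ⁻¹' E (ce n (pb c i j r) j l)))) with hA
  have hae : ∀ᵐ J ∂(Lw μ d), J ∈ ⋃ l ∈ Finset.range m, A l := by
    filter_upwards [gn_ae (d := d) μ hat] with J hJ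
    obtain ⟨l, hl, h⟩ := fails hd hJ hη hij hnr hm hM hF
    simp only [Set.mem_iUnion, Finset.mem_range, exists_prop]
    exact ⟨l, hl, h⟩
  have hAl : ∀ l, Lw μ d (A l) ≤ ∑ k : Fin 4, 2 * Lw μ d (E (fo c i j n r l k)) := by
    intro l
    have k1 := flS_le μ hsym K (E (ce n (pa c i j r) i l))
    have k1' := flS_le μ hsym H (E (ce n (pa c i j r) i l))
    have k2 := flS_le μ hsym K (E (ce n (pa c i j r) j l))
    have k3 := flS_le μ hsym K (E (ce n (pd c i j r) i l))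
    have k4 := flS_le μ hsym K (E (ce n (pb c i j r) j l))
    have e1 : fo c i j n r l 0 = ce n (pa c i j r) i l := rfl
    have e2 : fo c i j n r l 1 = ce n (pa c i j r) j l := rfl
    have e3 : fo c i j n r l 2 = ce n (pd c i j r) i l := rfl
    have e4 : fo c i j n r l 3 = ce n (pb c i j r) j l := rfl
    rw [Fin.sum_univ_four, e1, e2, e3, e4, add_assoc, add_assoc]
    refine (measure_union_le _ _).trans (add_le_add ?_ ?_)
    · rw [two_mul]
      exact (measure_union_le _ _).trans (add_le_add k1 k1')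
    · refine (measure_union_le _ _).trans (add_le_add ?_ ?_)
      · rw [two_mul]
        exact (measure_union_le _ _).trans (add_le_add le_rfl k2)
      · refine (measure_union_le _ _).trans (add_le_add ?_ ?_)
        · rw [two_mul]
          exact (measure_union_le _ _).trans (add_le_add le_rfl k3)
        · rw [two_mul]
          exact (measure_union_le _ _).trans (add_le_add le_rfl k4)
  calc (1 : ENNReal) = Lw μ d Set.univ := measure_univ.symm
    _ ≤ Lw μ d (⋃ l ∈ Finset.range m, A l) := by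
        refine measure_mono_ae ?_
        filter_upwards [hae] with J hJ _
        exact hJ
    _ ≤ ∑ l ∈ Finset.range m, Lw μ d (A l) := measure_biUnion_finset_le _ _
    _ ≤ _ := Finset.sum_le_sum fun l _ => hAl l

theorem local_avg (hd : 2 ≤ d) (hat : ∀ x, μ {x} = 0) (hsym : μ.map (fun x => -x) = μ)
    {η : (Fin d → ℤ) → ℝ} (hη : ∀ x, η x = 1 ∨ η x = -1) {M : ℕ} {c : Fin d → ℤ} {i j : Fin d}
    (hij : i ≠ j) {n r m R : ℕ} (hnr : n ≤ r) (hm : 2 * r + 3 ≤ m * (2 * n + 1))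
    (hM : nrm c + R + m * (2 * n + 1) + r + 1 ≤ M)
    {F : (Fin d → ℤ) → ((Fin d → ℤ) × Fin d → ℝ) → (Fin d → ℤ) × Fin d → ℝ} (hF : Loc F r) :
    (((2 * R + 1) ^ d : ℕ) : ENNReal) ≤ ((8 * m : ℕ) : ENNReal) *
      ∑ w ∈ bx c (R + m * (2 * n + 1)), Lw μ d {J | Er M η F n w J} := by
  classical
  set T : ENNReal := ∑ w ∈ bx c (R + m * (2 * n + 1)), Lw μ d {J | Er M η F n w J} with hT
  have h1 : ∀ c' ∈ bx c R, (1 : ENNReal) ≤ ∑ l ∈ Finset.range m, ∑ k : Fin 4,
      2 * Lw μ d {J | Er M η F n (fo c' i j n r l k) J} := by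
    intro c' hc'
    refine local_sum μ hd hat hsym hη hij hnr hm ?_ hF
    rw [mem_bx] at hc'
    have := nrm_add (c' - c) c
    rw [sub_add_cancel] at this
    omega
  have h2 : ∀ l ∈ Finset.range m, ∀ k : Fin 4,
      ∑ c' ∈ bx c R, Lw μ d {J | Er M η F n (fo c' i j n r l k) J} ≤ T := by
    intro l hl k
    have hinj : Set.InjOn (fun c' : Fin d → ℤ => fo c' i j n r l k) (bx c R : Finset _) := by
      intro x _ y _ hxy
      simp only at hxy
      rw [fo_add x, fo_add y] at hxy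
      exact add_right_cancel hxy
    rw [← Finset.sum_image (f := fun w => Lw μ d {J | Er M η F n w J}) hinj]
    refine Finset.sum_le_sum_of_subset ?_
    intro w hw
    obtain ⟨x, hx, rfl⟩ := Finset.mem_image.1 hw
    rw [mem_bx] at hx ⊢
    rw [fo_add x]
    have h3 := fo_near (d := d) hij hm (Finset.mem_range.1 hl) k
    have h4 := nrm_add (x - c) (fo 0 i j n r l k)
    rw [show x + fo 0 i j n r l k - c = x - c + fo 0 i j n r l k by abel]
    omega
  calc (((2 * R + 1) ^ d : ℕ) : ENNReal) = ∑ _c' ∈ bx c R, (1 : ENNReal) := by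
        rw [Finset.sum_const, card_bx, nsmul_eq_mul, mul_one]
    _ ≤ ∑ c' ∈ bx c R, ∑ l ∈ Finset.range m, ∑ k : Fin 4,
          2 * Lw μ d {J | Er M η F n (fo c' i j n r l k) J} := Finset.sum_le_sum h1
    _ = ∑ l ∈ Finset.range m, ∑ k : Fin 4, 2 * ∑ c' ∈ bx c R,
          Lw μ d {J | Er M η F n (fo c' i j n r l k) J} := by
        rw [Finset.sum_comm]
        refine Finset.sum_congr rfl fun l _ => ?_
        rw [Finset.sum_comm]
        refine Finset.sum_congr rfl fun k _ => ?_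
        rw [Finset.mul_sum]
    _ ≤ ∑ l ∈ Finset.range m, ∑ k : Fin 4, 2 * T :=
        Finset.sum_le_sum fun l hl => Finset.sum_le_sum fun k _ =>
          mul_le_mul_right (h2 l hl k) _
    _ = ((8 * m : ℕ) : ENNReal) * T := by
        simp only [Finset.sum_const, Finset.card_univ, Fintype.card_fin, Finset.card_range,
          nsmul_eq_mul]
        push_cast
        ring

end Pool.Agent.R239.EA
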