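import Pool.Agent.R239.EA.T

/-!
# Influence given an event of probability close to one in a smaller box
-/

set_option autoImplicit false

open Finset MeasureTheory ProbabilityTheory Filter Topology

namespace Pool.Agent.R239.EA

/-- the norm of a tile -/
noncomputable def nz (z : ℤ × ℤ) : ℕ := max z.1.natAbs z.2.natAbs

lemma rd_step {n : ℕ} {a b : ℤ} (h : |a - b| ≤ 1) : |rd n a - rd n b| ≤ 1 := by
  have h1 := rd_near n a
  have h2 := rd_near n b
  have hn : (0 : ℤ) ≤ n := Nat.cast_nonneg n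
  rw [abs_le] at h h1 h2 ⊢
  constructor
  · by_contra hc
    have h3 : rd n a - rd n b ≤ -2 := by omega
    nlinarith [h.1, h.2, h1.1, h1.2, h2.1, h2.2]
  · by_contra hc
    have h3 : 2 ≤ rd n a - rd n b := by omega
    nlinarith [h.1, h.2, h1.1, h1.2, h2.1, h2.2]

lemma nz_step {x y : ℤ × ℤ} (h1 : |y.1 - x.1| ≤ 1) (h2 : |y.2 - x.2| ≤ 1) : nz y ≤ nz x + 1 := by
  unfold nz
  rw [abs_le] at h1 h2
  have k1 : y.1.natAbs ≤ x.1.natAbs + 1 := by omega
  have k2 : y.2.natAbs ≤ x.2.natAbs + 1 := by omega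
  exact max_le (k1.trans (by have := le_max_left x.1.natAbs x.2.natAbs; omega))
    (k2.trans (by have := le_max_right x.1.natAbs x.2.natAbs; omega))

lemma nz_fin (s : ℕ) : {z : ℤ × ℤ | nz z < s}.Finite := by
  refine ((Finset.Icc (-(s : ℤ)) s) ×ˢ (Finset.Icc (-(s : ℤ)) s)).finite_toSet.subset ?_
  intro z hz
  have h : nz z < s := hz
  unfold nz at h
  have h1 := lt_of_le_of_lt (le_max_left _ _) h
  have h2 := lt_of_le_of_lt (le_max_right _ _) h
  rw [Finset.mem_coe, Finset.mem_product, Finset.mem_Icc, Finset.mem_Icc]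
  omega

variable {d : ℕ}

/-- an infinite self-avoiding path of influenced tiles -/
theorem tiles (hd : 2 ≤ d) {J : (Fin d → ℤ) × Fin d → ℝ} (hJ : Gn J) {i j : Fin d} (hij : i ≠ j)
    {n r s : ℕ} (hn : 1 ≤ n) (hs : r + 2 * n + 2 ≤ (2 * n + 1) * s) :
    ∃ t : ℕ → ℤ × ℤ, Function.Injective t ∧ nz (t 0) = s ∧
      (∀ k, |(t (k + 1)).1 - (t k).1| ≤ 1 ∧ |(t (k + 1)).2 - (t k).2| ≤ 1) ∧
      ∀ k, IB J (tl i j n (t k)) n r := by
  classical
  obtain ⟨p, e, hp, -, he, h⟩ := path hd hJ 0 hij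
  set τ : ℕ → ℤ × ℤ := fun k => (rd n (e k).2.1, rd n (e k).2.2) with hτ
  have hfin : ∀ x : ℤ × ℤ, {f : Ed | (rd n f.2.1, rd n f.2.2) = x}.Finite := by
    intro x
    refine ((Finset.univ : Finset Bool) ×ˢ
      ((Finset.Icc ((2 * n + 1) * x.1 - n) ((2 * n + 1) * x.1 + n)) ×ˢ
        (Finset.Icc ((2 * n + 1) * x.2 - n) ((2 * n + 1) * x.2 + n)))).finite_toSet.subset ?_
    intro f hf
    have h1 : rd n f.2.1 = x.1 := congrArg Prod.fst hf
    have h2 : rd n f.2.2 = x.2 := congrArg Prod.snd hf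
    have h3 := rd_near n f.2.1
    have h4 := rd_near n f.2.2
    rw [h1, abs_le] at h3
    rw [h2, abs_le] at h4
    rw [Finset.mem_coe, Finset.mem_product, Finset.mem_product, Finset.mem_Icc, Finset.mem_Icc]
    refine ⟨Finset.mem_univ _, ⟨?_, ?_⟩, ⟨?_, ?_⟩⟩ <;> linarith [h3.1, h3.2, h4.1, h4.2]
  obtain ⟨m, l, h1, h2, h3, h4, -⟩ := erase τ e he
    (fun x f => (rd n f.2.1, rd n f.2.2) = x) hfin (fun k => rfl)
  set t' : ℕ → ℤ × ℤ := fun k => τ (m k) with ht'
  -- steps
  have hcoord : ∀ k, |(e (k + 1)).2.1 - (e k).2.1| ≤ 1 ∧ |(e (k + 1)).2.2 - (e k).2.2| ≤ 1 := by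
    intro k
    have k1 : adj (em 0 i j (e k)) (em 0 i j (e (k + 1))) :=
      ⟨_, i, j, hij, sd_sq 0 i j (h k).2.1, sd_sq 0 i j (h (k + 1)).1⟩
    have k2 := k1.step
    rw [nrm_le] at k2
    have k3 := k2 i
    have k4 := k2 j
    simp only [em] at k3 k4
    rw [Pi.sub_apply, pl_i _ hij, pl_i _ hij, add_sub_add_left_eq_sub] at k3
    rw [Pi.sub_apply, pl_j _ hij, pl_j _ hij, add_sub_add_left_eq_sub] at k4
    exact ⟨by exact_mod_cast k3, by exact_mod_cast k4⟩
  have hstep : ∀ k, |(t' (k + 1)).1 - (t' k).1| ≤ 1 ∧ |(t' (k + 1)).2 - (t' k).2| ≤ 1 := by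
    intro k
    have k1 : t' k = τ (l k) := h3 k
    have k2 : t' (k + 1) = τ (l k + 1) := by simp only [ht', h2]
    rw [k1, k2]
    exact ⟨rd_step (hcoord _).1, rd_step (hcoord _).2⟩
  -- influence of the tiles far away
  have hinf : ∀ k, s ≤ nz (τ k) → IB J (tl i j n (τ k)) n r := by
    intro k hk
    set f := em 0 i j (e k) with hf
    have n1 := rd_near n (e k).2.1
    have n2 := rd_near n (e k).2.2
    have hnear : nrm (f.1 - tl i j n (τ k)) ≤ n := by
      rw [nrm_le]
      intro a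
      simp only [hf, hτ, tl, em]
      by_cases hai : a = i
      · rw [hai, Pi.sub_apply, pl_i _ hij, pl_i _ hij]
        simpa using n1
      · by_cases haj : a = j
        · rw [haj, Pi.sub_apply, pl_j _ hij, pl_j _ hij]
          simpa using n2
        · rw [Pi.sub_apply, pl_k _ hai haj, pl_k _ hai haj, sub_self, abs_zero]
          positivity
    have hfar : r + n + 2 ≤ nrm (f.1 - 0) := by
      by_contra hc
      have hc' : nrm (f.1 - 0) ≤ r + n + 1 := by omega
      rw [nrm_le] at hc'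
      have c1 := hc' i
      have c2 := hc' j
      simp only [hf, em] at c1 c2
      rw [Pi.sub_apply, pl_i _ hij, add_sub_cancel_left] at c1
      rw [Pi.sub_apply, pl_j _ hij, add_sub_cancel_left] at c2
      push_cast at c1 c2
      rw [abs_le] at c1 c2 n1 n2
      have hs' : (r : ℤ) + 2 * n + 2 ≤ (2 * n + 1) * s := by exact_mod_cast hs
      have hn' : (0 : ℤ) ≤ n := Nat.cast_nonneg n
      unfold nz at hk
      simp only [hτ] at hk
      rcases le_max_iff.1 hk with hk | hk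
      · have k1 : (s : ℤ) ≤ rd n (e k).2.1 ∨ rd n (e k).2.1 ≤ -(s : ℤ) := by omega
        rcases k1 with k1 | k1
        · have := mul_le_mul_of_nonneg_left k1 (show (0 : ℤ) ≤ 2 * n + 1 by linarith)
          linarith [c1.2, n1.1]
        · have := mul_le_mul_of_nonneg_left k1 (show (0 : ℤ) ≤ 2 * n + 1 by linarith)
          linarith [c1.1, n1.2]
      · have k1 : (s : ℤ) ≤ rd n (e k).2.2 ∨ rd n (e k).2.2 ≤ -(s : ℤ) := by omega
        rcases k1 with k1 | k1
        · have := mul_le_mul_of_nonneg_left k1 (show (0 : ℤ) ≤ 2 * n + 1 by linarith)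
          linarith [c2.2, n2.1]
        · have := mul_le_mul_of_nonneg_left k1 (show (0 : ℤ) ≤ 2 * n + 1 by linarith)
          linarith [c2.1, n2.2]
    refine ⟨f, hnear, ie_mono ?_ ((h k).2.2 (r + n) hfar)⟩
    show nrm (tl i j n (τ k) - f.1) + r ≤ r + n
    rw [nrm_sub_comm] at hnear
    omega
  -- the last visit to the small tiles
  have hs0 : 1 ≤ s := by
    rcases Nat.eq_zero_or_pos s with h0 | h0
    · subst h0; omega
    · exact h0
  have h0 : nz (t' 0) < s := by
    have k1 := sd_sq 0 i j (h 0).1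
    rw [hp] at k1
    have k2 := sq_coord k1 i
    have k3 := sq_coord k1 j
    have k4 : pl (0 : Fin d → ℤ) i j (0, 0) = 0 := by simp [pl]
    rw [k4] at k2 k3
    unfold em at k2 k3
    simp only [pl_i _ hij, pl_j _ hij, Pi.zero_apply, zero_add] at k2 k3
    have k5 : rd n (e 0).2.1 = 0 := rd_unique (by
      rw [mul_zero, sub_zero, abs_le]
      constructor <;> omega)
    have k6 : rd n (e 0).2.2 = 0 := rd_unique (by
      rw [mul_zero, sub_zero, abs_le]
      constructor <;> omega)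
    simp only [ht', hτ, h1, nz, k5, k6]
    simpa using (Nat.lt_of_lt_of_le Nat.zero_lt_one hs0)
  have hfs : {k | nz (t' k) < s}.Finite :=
    Set.Finite.of_finite_image ((nz_fin s).subset (by
      rintro _ ⟨k, hk, rfl⟩
      exact hk)) h4.injOn
  obtain ⟨k0, hk0, hmax⟩ := Set.exists_max_image {k | nz (t' k) < s} id hfs ⟨0, h0⟩
  have hge : ∀ k, s ≤ nz (t' (k0 + 1 + k)) := by
    intro k
    by_contra hc
    have := hmax (k0 + 1 + k) (by
      show nz (t' (k0 + 1 + k)) < s
      omega)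
    simp only [id] at this
    omega
  refine ⟨fun k => t' (k0 + 1 + k), ?_, ?_, fun k => ?_, fun k => ?_⟩
  · intro a b hab
    have := h4 hab
    omega
  · have k1 := hge 0
    have k2 := nz_step (hstep k0).1 (hstep k0).2
    have k3 : nz (t' k0) < s := hk0
    rw [add_zero] at k1
    simp only [add_zero]
    omega
  · exact hstep (k0 + 1 + k)
  · exact hinf _ (hge k)

/-! ### Walks -/

/-- the steps -/
noncomputable def Qs : Finset (ℤ × ℤ) := (Finset.Icc (-1) 1) ×ˢ (Finset.Icc (-1) 1)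

lemma card_Qs : Qs.card = 9 := by decide

/-- the walk -/
noncomputable def wpos (s : ℕ) (z : ℤ × ℤ) (v : Fin s → ℤ × ℤ) (k : ℕ) : ℤ × ℤ :=
  z + ∑ a : Fin s, if a.val < k then v a else 0

lemma wpos_of (s : ℕ) (t : ℕ → ℤ × ℤ) {k : ℕ} (hk : k ≤ s) :
    wpos s (t 0) (fun a => t (a.val + 1) - t a.val) k = t k := by
  unfold wpos
  rw [Fin.sum_univ_eq_sum_range (fun a => if a < k then t (a + 1) - t a else 0) s,
    ← Finset.sum_filter]
  have h1 : (Finset.range s).filter (fun a => a < k) = Finset.range k := by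
    ext a
    simp only [Finset.mem_filter, Finset.mem_range]
    omega
  rw [h1, Finset.sum_range_sub, add_sub_cancel]

lemma nz_walk {t : ℕ → ℤ × ℤ}
    (ht : ∀ k, |(t (k + 1)).1 - (t k).1| ≤ 1 ∧ |(t (k + 1)).2 - (t k).2| ≤ 1) (k : ℕ) :
    nz (t k) ≤ nz (t 0) + k := by
  induction k with
  | zero => simp
  | succ k ih =>
    have := nz_step (ht k).1 (ht k).2
    omega

lemma dep_compl {F : Set ((Fin d → ℤ) × Fin d → ℝ)} {S : Finset ((Fin d → ℤ) × Fin d)}
    (h : Dep F S) : Dep Fᶜ S := by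
  intro J J' hJ h1 h2
  exact h1 (h J' J (fun e he => (hJ e he).symm) h2)

lemma pow_ineq {s : ℕ} (hs : 1 ≤ s) : 16 * s ≤ 16 ^ s := by
  induction s, hs using Nat.le_induction with
  | base => norm_num
  | succ s hs ih =>
    rw [pow_succ]
    omega

variable (μ : Measure ℝ) [IsProbabilityMeasure μ]

/-- influence given an event of probability close to one in the smaller box -/
theorem cond_lower2 (hd : 2 ≤ d) (hat : ∀ x, μ {x} = 0) {n r s : ℕ} (hn : 1 ≤ n) (hnr : n ≤ r)
    (hs : r + 2 * n + 2 ≤ (2 * n + 1) * s) {F : Set ((Fin d → ℤ) × Fin d → ℝ)}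
    (hF : MeasurableSet F) (hdep : Dep F (tb 0 (n - 1)))
    (hδ : (Lw μ d).real Fᶜ ≤ 1 / 100000) :
    1 / (100 * (s : ℝ)) ≤ (Lw μ d).real ({J | IB J 0 n r} ∩ F) := by
  classical
  set i : Fin d := ⟨0, by omega⟩ with hi
  set j : Fin d := ⟨1, by omega⟩ with hj
  have hij : i ≠ j := by
    intro h
    have := congrArg Fin.val h
    simp [hi, hj] at this
  have hs0 : 1 ≤ s := by
    rcases Nat.eq_zero_or_pos s with h0 | h0
    · subst h0; omega
    · exact h0
  set h : ℕ := (s + 1) / 2 with hh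
  set G : Set ((Fin d → ℤ) × Fin d → ℝ) := {J | IB J 0 n r} ∩ F with hG
  have hGm : MeasurableSet G := (ib_meas 0 hnr).inter hF
  set w : ℤ × ℤ → (Fin d → ℤ) := tl i j n with hw
  set W : Finset ((ℤ × ℤ) × (Fin s → ℤ × ℤ) × Finset ℕ) :=
    Rg s ×ˢ (Fintype.piFinset (fun _ : Fin s => Qs) ×ˢ (Finset.range s).powersetCard h) with hW
  set E : (ℤ × ℤ) × (Fin s → ℤ × ℤ) × Finset ℕ → Set ((Fin d → ℤ) × Fin d → ℝ) := fun x =>
    if Set.InjOn (wpos s x.1 x.2.1) (Finset.range s : Set ℕ) then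
      ⋂ k ∈ x.2.2, shw (w (wpos s x.1 x.2.1 k)) ⁻¹' Fᶜ else ∅ with hE
  have hEm : ∀ x, MeasurableSet (E x) := by
    intro x
    simp only [hE]
    split_ifs
    · exact Finset.measurableSet_biInter _ fun k _ => (shw_law μ _).measurable hF.compl
    · exact MeasurableSet.empty
  set q : ℝ := (Lw μ d).real Fᶜ with hq
  have hq0 : 0 ≤ q := measureReal_nonneg
  have hEp : ∀ x ∈ W, (Lw μ d).real (E x) ≤ q ^ h := by
    intro x hx
    rw [hW, Finset.mem_product, Finset.mem_product, Finset.mem_powersetCard] at hx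
    by_cases hinj : Set.InjOn (wpos s x.1 x.2.1) (Finset.range s : Set ℕ)
    · have h1 : E x = ⋂ k ∈ x.2.2, shw (w (wpos s x.1 x.2.1 k)) ⁻¹' Fᶜ := if_pos hinj
      have h2 := prod_events μ x.2.2 (fun k => w (wpos s x.1 x.2.1 k)) (n := n - 1) (F := Fᶜ)
        (fun k hk l hl hkl => by
          have h3 : wpos s x.1 x.2.1 k ≠ wpos s x.1 x.2.1 l := fun h4 =>
            hkl (hinj (Finset.mem_coe.2 (hx.2.2.1 hk)) (Finset.mem_coe.2 (hx.2.2.1 hl)) h4)
          have := tl_sep hij n h3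
          simp only [hw]
          omega) hF.compl (dep_compl hdep)
      rw [h1, measureReal_def, h2, ENNReal.toReal_pow, hx.2.2.2]
      rfl
    · have h1 : E x = ∅ := if_neg hinj
      rw [h1, measureReal_empty]
      positivity
  have hWc : (W.card : ℝ) ≤ 8 * s * 18 ^ s := by
    have h1 : W.card ≤ 8 * s * (9 ^ s * 2 ^ s) := by
      rw [hW, Finset.card_product, Finset.card_product, Fintype.card_piFinset]
      simp only [card_Qs, Finset.prod_const, Finset.card_univ, Fintype.card_fin,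
        Finset.card_powersetCard, Finset.card_range]
      exact Nat.mul_le_mul (card_Rg hs0) (Nat.mul_le_mul_left _ (Nat.choose_le_two_pow _ _))
    have h2 : (9 : ℕ) ^ s * 2 ^ s = 18 ^ s := by rw [← Nat.mul_pow]
    rw [h2] at h1
    exact_mod_cast h1
  have hsum : ∑ x ∈ W, (Lw μ d).real (E x) ≤ 1 / 2 := by
    have h1 : ∑ x ∈ W, (Lw μ d).real (E x) ≤ W.card * q ^ h := by
      calc ∑ x ∈ W, (Lw μ d).real (E x) ≤ ∑ _x ∈ W, q ^ h := Finset.sum_le_sum hEp
        _ = _ := by rw [Finset.sum_const, nsmul_eq_mul]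
    have h2 : q ^ h ≤ (1 / 288 : ℝ) ^ s := by
      have e1 : q ≤ (1 / 288 : ℝ) ^ 2 := hδ.trans (by norm_num)
      calc q ^ h ≤ ((1 / 288 : ℝ) ^ 2) ^ h := pow_le_pow_left₀ hq0 e1 _
        _ = (1 / 288 : ℝ) ^ (2 * h) := by rw [← pow_mul]
        _ ≤ (1 / 288 : ℝ) ^ s := pow_le_pow_of_le_one (by norm_num) (by norm_num) (by omega)
    have h3 : (16 : ℝ) * s ≤ 16 ^ s := by exact_mod_cast pow_ineq hs0
    have h4 : (18 : ℝ) ^ s * (1 / 288 : ℝ) ^ s = (1 / 16 : ℝ) ^ s := by
      rw [← mul_pow]; norm_num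
    calc ∑ x ∈ W, (Lw μ d).real (E x) ≤ W.card * q ^ h := h1
      _ ≤ (8 * s * 18 ^ s) * (1 / 288 : ℝ) ^ s :=
          mul_le_mul hWc h2 (pow_nonneg hq0 _) (by positivity)
      _ = 8 * s * (1 / 16 : ℝ) ^ s := by rw [mul_assoc, h4]
      _ ≤ 1 / 2 := by
          rw [one_div (16 : ℝ), inv_pow, ← div_eq_mul_inv, div_le_iff₀ (by positivity)]
          linarith
  set Z : Finset (ℤ × ℤ) :=
    (Finset.Icc (-(2 * s : ℤ)) (2 * s)) ×ˢ (Finset.Icc (-(2 * s : ℤ)) (2 * s)) with hZ
  have hZc : (Z.card : ℝ) ≤ 25 * (s : ℝ) ^ 2 := by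
    have h1 : Z.card = (4 * s + 1) * (4 * s + 1) := by
      rw [hZ, Finset.card_product, Int.card_Icc]
      have : ((2 * s : ℤ) + 1 - -(2 * s : ℤ)).toNat = 4 * s + 1 := by omega
      rw [this]
    rw [h1]
    push_cast
    have : (1 : ℝ) ≤ s := by exact_mod_cast hs0
    nlinarith
  have key : ∀ᵐ J ∂(Lw μ d), (s : ℝ) / 2 ≤
      ∑ z ∈ Z, (shw (w z) ⁻¹' G).indicator (fun _ => (1 : ℝ)) J +
        (s : ℝ) / 2 * ∑ x ∈ W, (E x).indicator (fun _ => (1 : ℝ)) J := by
    filter_upwards [gn_ae (d := d) μ hat] with J hJ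
    obtain ⟨t, ht1, ht2, ht3, ht4⟩ := tiles hd hJ hij hn hs
    have hn1 : 0 ≤ ∑ z ∈ Z, (shw (w z) ⁻¹' G).indicator (fun _ => (1 : ℝ)) J :=
      Finset.sum_nonneg fun z _ => Set.indicator_nonneg (fun _ _ => zero_le_one) _
    have hn2 : 0 ≤ ∑ x ∈ W, (E x).indicator (fun _ => (1 : ℝ)) J :=
      Finset.sum_nonneg fun z _ => Set.indicator_nonneg (fun _ _ => zero_le_one) _
    have hsr : (0 : ℝ) ≤ s := Nat.cast_nonneg s
    set Bd : Finset ℕ := (Finset.range s).filter fun k => J ∉ shw (w (t k)) ⁻¹' F with hBd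
    by_cases hB : h ≤ Bd.card
    · obtain ⟨B, hB1, hB2⟩ := Finset.exists_subset_card_eq hB
      set v : Fin s → ℤ × ℤ := fun a => t (a.val + 1) - t a.val with hv
      have hpos : ∀ k ∈ Finset.range s, wpos s (t 0) v k = t k := fun k hk =>
        wpos_of s t (Finset.mem_range.1 hk).le
      have hBs : B ⊆ Finset.range s := hB1.trans (Finset.filter_subset _ _)
      have hx : ((t 0, v, B) : (ℤ × ℤ) × (Fin s → ℤ × ℤ) × Finset ℕ) ∈ W := by
        rw [hW, Finset.mem_product, Finset.mem_product, Finset.mem_powersetCard]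
        refine ⟨mem_Rg.2 ht2, Fintype.mem_piFinset.2 fun a => ?_, hBs, hB2⟩
        have h1 := ht3 a.val
        rw [abs_le, abs_le] at h1
        simp only [hv, Qs, Finset.mem_product, Finset.mem_Icc, Prod.fst_sub, Prod.snd_sub]
        exact ⟨⟨by linarith [h1.1.1], h1.1.2⟩, ⟨by linarith [h1.2.1], h1.2.2⟩⟩
      have hJx : J ∈ E (t 0, v, B) := by
        have hinj : Set.InjOn (wpos s (t 0) v) (Finset.range s : Set ℕ) := by
          intro a ha b hb hab
          rw [hpos a (Finset.mem_coe.1 ha), hpos b (Finset.mem_coe.1 hb)] at hab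
          exact ht1 hab
        simp only [hE]
        rw [if_pos hinj, Set.mem_iInter₂]
        intro k hk
        rw [hpos k (hBs hk)]
        exact (Finset.mem_filter.1 (hB1 hk)).2
      have h1 : (1 : ℝ) ≤ ∑ x ∈ W, (E x).indicator (fun _ => (1 : ℝ)) J := by
        calc (1 : ℝ) = (E (t 0, v, B)).indicator (fun _ => (1 : ℝ)) J := by
              rw [Set.indicator_of_mem hJx]
          _ ≤ _ := Finset.single_le_sum (f := fun x => (E x).indicator (fun _ => (1 : ℝ)) J)
              (fun x _ => Set.indicator_nonneg (fun _ _ => zero_le_one) _) hx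
      have h2 : (s : ℝ) / 2 * 1 ≤ (s : ℝ) / 2 * ∑ x ∈ W, (E x).indicator (fun _ => (1 : ℝ)) J :=
        mul_le_mul_of_nonneg_left h1 (by linarith)
      linarith
    · set Gd : Finset ℕ := (Finset.range s).filter fun k => ¬ J ∉ shw (w (t k)) ⁻¹' F with hGd
      have hcard : Bd.card + Gd.card = s := by
        have := Finset.card_filter_add_card_filter_not (s := Finset.range s)
          (fun k => J ∉ shw (w (t k)) ⁻¹' F)
        rw [Finset.card_range] at this
        exact this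
      have h1 : (s : ℝ) / 2 ≤ Gd.card := by
        have : s ≤ 2 * Gd.card := by omega
        have h2 : (s : ℝ) ≤ 2 * Gd.card := by exact_mod_cast this
        linarith
      have h2 : Gd.image t ⊆ Z := by
        intro z hz
        obtain ⟨k, hk, rfl⟩ := Finset.mem_image.1 hz
        have h3 := Finset.mem_range.1 (Finset.mem_filter.1 hk).1
        have h4 := nz_walk ht3 k
        rw [ht2] at h4
        unfold nz at h4
        have h5 := (le_max_left _ _).trans h4
        have h6 := (le_max_right _ _).trans h4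
        rw [hZ, Finset.mem_product, Finset.mem_Icc, Finset.mem_Icc]
        omega
      have h3 : (Gd.card : ℝ) ≤ ∑ z ∈ Z, (shw (w z) ⁻¹' G).indicator (fun _ => (1 : ℝ)) J := by
        calc (Gd.card : ℝ) = ∑ z ∈ Gd.image t, (1 : ℝ) := by
              rw [Finset.sum_const, nsmul_eq_mul, mul_one, Finset.card_image_of_injective _ ht1]
          _ = ∑ z ∈ Gd.image t, (shw (w z) ⁻¹' G).indicator (fun _ => (1 : ℝ)) J := by
              refine Finset.sum_congr rfl fun z hz => ?_
              obtain ⟨k, hk, rfl⟩ := Finset.mem_image.1 hz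
              have h4 : J ∈ shw (w (t k)) ⁻¹' G :=
                ⟨ib_shift (ht4 k), not_not.1 (Finset.mem_filter.1 hk).2⟩
              rw [Set.indicator_of_mem h4]
          _ ≤ _ := Finset.sum_le_sum_of_subset_of_nonneg h2 fun z _ _ =>
              Set.indicator_nonneg (fun _ _ => zero_le_one) _
      have h4 : 0 ≤ (s : ℝ) / 2 * ∑ x ∈ W, (E x).indicator (fun _ => (1 : ℝ)) J :=
        mul_nonneg (by linarith) hn2
      linarith
  have hZi : ∀ z, Integrable ((shw (w z) ⁻¹' G).indicator (fun _ => (1 : ℝ))) (Lw μ d) := fun z =>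
    (integrable_const (1 : ℝ)).indicator ((shw_law μ _).measurable hGm)
  have hEi : ∀ x, Integrable ((E x).indicator (fun _ => (1 : ℝ))) (Lw μ d) := fun x =>
    (integrable_const (1 : ℝ)).indicator (hEm x)
  have hint : (s : ℝ) / 2 ≤ ∑ z ∈ Z, (Lw μ d).real (shw (w z) ⁻¹' G) +
      (s : ℝ) / 2 * ∑ x ∈ W, (Lw μ d).real (E x) := by
    have h1 := integral_mono_ae (μ := Lw μ d) (integrable_const ((s : ℝ) / 2))
      ((integrable_finsetSum Z fun z _ => hZi z).add
        ((integrable_finsetSum W fun x _ => hEi x).const_mul ((s : ℝ) / 2))) key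
    simp only [Pi.add_apply] at h1
    rw [integral_add (integrable_finsetSum Z fun z _ => hZi z)
      ((integrable_finsetSum W fun x _ => hEi x).const_mul _), integral_const_mul,
      integral_finsetSum _ (fun z _ => hZi z), integral_finsetSum _ (fun x _ => hEi x)] at h1
    have e1 : ∫ _ : (Fin d → ℤ) × Fin d → ℝ, (s : ℝ) / 2 ∂(Lw μ d) = (s : ℝ) / 2 := by simp
    rw [e1] at h1
    refine h1.trans (le_of_eq ?_)
    congr 1
    · refine Finset.sum_congr rfl fun z _ => ?_
      rw [integral_indicator_const (1 : ℝ) ((shw_law μ _).measurable hGm), smul_eq_mul, mul_one]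
    · congr 1
      refine Finset.sum_congr rfl fun x _ => ?_
      rw [integral_indicator_const (1 : ℝ) (hEm x), smul_eq_mul, mul_one]
  have hZs : ∑ z ∈ Z, (Lw μ d).real (shw (w z) ⁻¹' G) = Z.card * (Lw μ d).real G := by
    have h1 : ∀ z ∈ Z, (Lw μ d).real (shw (w z) ⁻¹' G) = (Lw μ d).real G := by
      intro z _
      rw [measureReal_def, (shw_law μ _).measure_preimage hGm.nullMeasurableSet]
      rfl
    rw [Finset.sum_congr rfl h1, Finset.sum_const, nsmul_eq_mul]
  rw [hZs] at hint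
  have hs1 : (1 : ℝ) ≤ s := by exact_mod_cast hs0
  have hg0 : 0 ≤ (Lw μ d).real G := measureReal_nonneg
  have h5 : (s : ℝ) / 2 * ∑ x ∈ W, (Lw μ d).real (E x) ≤ (s : ℝ) / 2 * (1 / 2) :=
    mul_le_mul_of_nonneg_left hsum (by linarith)
  have h6 : (Z.card : ℝ) * (Lw μ d).real G ≤ 25 * (s : ℝ) ^ 2 * (Lw μ d).real G :=
    mul_le_mul_of_nonneg_right hZc hg0
  rw [div_le_iff₀ (by positivity)]
  have h7 : (s : ℝ) / 4 ≤ 25 * (s : ℝ) ^ 2 * (Lw μ d).real G := by linarith
  have h8 : (s : ℝ) * (1 / 4) ≤ (s : ℝ) * (25 * s * (Lw μ d).real G) := by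
    calc (s : ℝ) * (1 / 4) = (s : ℝ) / 4 := by ring
      _ ≤ _ := h7
      _ = _ := by ring
  have h9 := le_of_mul_le_mul_left h8 (by linarith)
  linarith

/-! ### Infinitely often -/

lemma erg_ae (hd : 2 ≤ d) {U : Set ((Fin d → ℤ) × Fin d → ℝ)} (hU : MeasurableSet U)
    (h0 : Lw μ d U ≠ 0) : ∀ᵐ J ∂(Lw μ d), ∃ x, shw x J ∈ U := by
  set i : Fin d := ⟨0, by omega⟩ with hi
  set V : Set ((Fin d → ℤ) × Fin d → ℝ) := ⋃ x : Fin d → ℤ, shw x ⁻¹' U with hV
  have hVm : MeasurableSet V := MeasurableSet.iUnion fun x => (shw_law μ x).measurable hU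
  have hinv : shw (u i) ⁻¹' V = V := by
    ext J
    simp only [hV, Set.preimage_iUnion, Set.mem_iUnion, Set.mem_preimage, shw_shw]
    constructor
    · rintro ⟨x, hx⟩
      exact ⟨_, hx⟩
    · rintro ⟨x, hx⟩
      exact ⟨x - u i, by rwa [sub_add_cancel]⟩
  have h01 := (erg μ i).toPreErgodic.prob_eq_zero_or_one hVm hinv
  have hpos : Lw μ d V ≠ 0 := by
    intro h
    refine h0 (measure_mono_null (fun J hJ => ?_) h)
    simp only [hV, Set.mem_iUnion, Set.mem_preimage]
    exact ⟨0, by rwa [shw_zero]⟩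
  have h1 : Lw μ d V = 1 := h01.resolve_left hpos
  have h2 : ∀ᵐ J ∂(Lw μ d), J ∈ V := by
    rw [← prob_compl_eq_zero_iff hVm] at h1
    exact h1
  filter_upwards [h2] with J hJ
  simp only [hV, Set.mem_iUnion, Set.mem_preimage] at hJ
  exact hJ

/-- infinitely many influenced scales -/
def Io (a b : ℕ → ℕ) : Set ((Fin d → ℤ) × Fin d → ℝ) := {J | ∃ᶠ k in atTop, IB J 0 (a k) (b k)}

lemma io_meas {a b : ℕ → ℕ} (hab : ∀ k, a k ≤ b k) : MeasurableSet (Io (d := d) a b) := by
  have h1 : Io (d := d) a b = ⋂ M : ℕ, ⋃ N : ℕ,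
      {J : (Fin d → ℤ) × Fin d → ℝ | M ≤ N ∧ IB J 0 (a N) (b N)} := by
    ext J
    simp only [Io, Set.mem_ofPred_eq, Set.mem_iInter, Set.mem_iUnion, frequently_atTop]
  rw [h1]
  exact MeasurableSet.iInter fun M => MeasurableSet.iUnion fun N =>
    (MeasurableSet.const (M ≤ N)).inter (sc_meas hab 0 N)

lemma io_pos (hd : 2 ≤ d) (hat : ∀ x, μ {x} = 0) {a b S : ℕ → ℕ} (hab : ∀ k, a k ≤ b k)
    (hba : ∀ k, b k < a (k + 1)) (ha1 : ∀ k, 1 ≤ a k)
    (hS : ∀ k, b k + 2 * a k + 2 ≤ (2 * a k + 1) * S k)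
    (hdiv : ¬ Summable fun k => 1 / (S k : ℝ)) : Lw μ d (Io a b) ≠ 0 := by
  set C : ℕ → Set ((Fin d → ℤ) × Fin d → ℝ) := fun M =>
    ⋃ N : ℕ, {J | M ≤ N ∧ IB J 0 (a N) (b N)} with hC
  have hCm : ∀ M, MeasurableSet (C M) := fun M =>
    MeasurableSet.iUnion fun N => (MeasurableSet.const (M ≤ N)).inter (sc_meas hab 0 N)
  have hCa : Antitone C := by
    intro M M' hM J hJ
    simp only [hC, Set.mem_iUnion, Set.mem_ofPred_eq] at hJ ⊢
    obtain ⟨N, h2, h3⟩ := hJ
    exact ⟨N, hM.trans h2, h3⟩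
  have h2 : Io (d := d) a b = ⋂ M, C M := by
    ext J
    simp only [Io, hC, Set.mem_ofPred_eq, Set.mem_iInter, Set.mem_iUnion, frequently_atTop]
  have main : ∀ k0, 1 / 100000 ≤ (Lw μ d).real (C k0) := by
    intro k0
    by_contra hc
    have hc' : (Lw μ d).real (C k0) ≤ 1 / 100000 := (not_le.1 hc).le
    set g : ℕ → ℝ := fun k => (Lw μ d).real (No a b k0 k) with hg
    have hstep : ∀ k, k0 ≤ k → 1 / (100 * (S k : ℝ)) + g (k + 1) ≤ g k := by
      intro k hk
      have hdep : Dep (No (d := d) a b k0 k) (tb 0 (a k - 1)) := by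
        intro J J' hJ h j hj hjk
        rw [← sc_agree hab hba hJ hjk]
        exact h j hj hjk
      have hsm : (Lw μ d).real (No (d := d) a b k0 k)ᶜ ≤ 1 / 100000 := by
        refine (measureReal_mono fun J hJ => ?_).trans hc'
        rw [Set.mem_compl_iff] at hJ
        unfold No at hJ
        simp only [Set.mem_ofPred_eq, not_forall, not_not] at hJ
        obtain ⟨j, hj, -, h⟩ := hJ
        simp only [hC, Set.mem_iUnion, Set.mem_ofPred_eq]
        exact ⟨j, hj, h⟩
      have h1 := cond_lower2 μ hd hat (ha1 k) (hab k) (hS k) (no_meas hab k0 k) hdep hsm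
      have h2 := measureReal_inter_add_sdiff (μ := Lw μ d) (s := No (d := d) a b k0 k)
        (sc_meas hab 0 k)
      have h3 : No (d := d) a b k0 (k + 1) =
          No a b k0 k \ {J | IB J 0 (a k) (b k)} := by
        ext J
        simp only [No, Set.mem_ofPred_eq, Set.mem_sdiff]
        constructor
        · intro h
          exact ⟨fun j hj hjk => h j hj (by omega), h k hk (by omega)⟩
        · rintro ⟨h, h'⟩ j hj hjk
          rcases Nat.lt_succ_iff_lt_or_eq.1 hjk with h4 | h4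
          · exact h j hj h4
          · rw [h4]; exact h'
      rw [Set.inter_comm, ← h3] at h2
      simp only [hg]
      linarith
    have hsum : ∀ K, ∑ k ∈ Finset.range K, 1 / (100 * (S (k + k0) : ℝ)) ≤ 1 := by
      intro K
      have h1 : ∀ K, ∑ k ∈ Finset.range K, 1 / (100 * (S (k + k0) : ℝ)) + g (K + k0) ≤ 1 := by
        intro K
        induction K with
        | zero =>
          rw [Finset.range_zero, Finset.sum_empty, zero_add]
          exact measureReal_le_one
        | succ K ih =>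
          rw [Finset.sum_range_succ]
          have h3 := hstep (K + k0) (by omega)
          rw [show K + 1 + k0 = K + k0 + 1 by ring]
          linarith
      have h3 : 0 ≤ g (K + k0) := measureReal_nonneg
      linarith [h1 K]
    have h4 : Summable fun k => 1 / (100 * (S (k + k0) : ℝ)) :=
      summable_of_sum_range_le (fun k => by positivity) hsum
    have h5 : Summable fun k => 1 / (S (k + k0) : ℝ) := by
      have h6 := h4.mul_left 100
      refine h6.congr fun k => ?_
      rw [one_div, mul_inv, ← mul_assoc, one_div]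
      norm_num
    exact hdiv ((summable_nat_add_iff (f := fun k => 1 / (S k : ℝ)) k0).1 h5)
  have h3 : ∀ M, ENNReal.ofReal (1 / 100000) ≤ Lw μ d (C M) := by
    intro M
    rw [ENNReal.ofReal_le_iff_le_toReal (measure_ne_top _ _)]
    exact main M
  have h4 := tendsto_measure_iInter_atTop (μ := Lw μ d)
    (fun M => (hCm M).nullMeasurableSet) hCa ⟨0, measure_ne_top _ _⟩
  have h5 : ENNReal.ofReal (1 / 100000) ≤ Lw μ d (⋂ M, C M) := ge_of_tendsto' h4 h3
  rw [h2]
  intro h6
  rw [h6, nonpos_iff_eq_zero, ENNReal.ofReal_eq_zero] at h5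
  norm_num at h5

/-- influence from a distance `L k` times larger, infinitely often, if `∑ 1 / L k` diverges -/
theorem growth2 (hd : 2 ≤ d) (hat : ∀ x, μ {x} = 0) {n L : ℕ → ℕ} (hn : ∀ k, 1 ≤ n k)
    (hL1 : ∀ k, 1 ≤ L k) (hsep : ∀ k, 3 * (L k * n k) < n (k + 1))
    (hdiv : ¬ Summable fun k => 1 / (L k : ℝ)) :
    ∀ᵐ J ∂(Lw μ d), ∀ c : Fin d → ℤ, ∃ᶠ k in atTop, IB J c (n k) (L k * n k) := by
  set a : ℕ → ℕ := fun k => n k - n k / 2 with ha
  set b : ℕ → ℕ := fun k => L k * n k + n k / 2 with hb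
  have hLn : ∀ k, n k ≤ L k * n k := fun k => Nat.le_mul_of_pos_left _ (hL1 k)
  have hab : ∀ k, a k ≤ b k := by
    intro k
    have := hLn k
    simp only [ha, hb]
    omega
  have hba : ∀ k, b k < a (k + 1) := by
    intro k
    have h1 := hLn k
    have h2 := hsep k
    simp only [ha, hb]
    omega
  have ha1 : ∀ k, 1 ≤ a k := by
    intro k
    have := hn k
    simp only [ha]
    omega
  have hS : ∀ k, b k + 2 * a k + 2 ≤ (2 * a k + 1) * (L k + 3) := by
    intro k
    simp only [ha, hb]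
    obtain ⟨p, q, hp, hq⟩ : ∃ p q, n k = 2 * p + q ∧ q < 2 := ⟨n k / 2, n k % 2, by omega, by omega⟩
    have h1 : n k / 2 = p := by omega
    have h2 : n k - n k / 2 = p + q := by omega
    rw [h2, h1, hp]
    nlinarith
  have hdiv' : ¬ Summable fun k => 1 / ((L k + 3 : ℕ) : ℝ) := by
    intro h
    apply hdiv
    refine Summable.of_nonneg_of_le (fun k => by positivity) (fun k => ?_) (h.mul_left 4)
    have h1 : (1 : ℝ) ≤ L k := by exact_mod_cast hL1 k
    push_cast
    rw [mul_one_div, div_le_div_iff₀ (by linarith) (by linarith)]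
    linarith
  have hmono : StrictMono n := strictMono_nat_of_lt_succ fun k => by
    have h1 := hLn k
    have h2 := hsep k
    omega
  have h1 := erg_ae μ hd (io_meas hab) (io_pos μ hd hat hab hba ha1 hS hdiv')
  filter_upwards [h1] with J hJ
  intro c
  obtain ⟨x, hx⟩ := hJ
  have h2 : ∃ᶠ k in atTop, IB (shw x J) 0 (a k) (b k) := hx
  refine (h2.and_eventually (hmono.tendsto_atTop.eventually_ge_atTop (2 * nrm (x - c)))).mono
    fun k hk => ib_mono (ib_back hk.1) ?_ ?_
  · have := hk.2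
    simp only [ha]
    omega
  · have := hk.2
    simp only [hb]
    omega

end Pool.Agent.R239.EA
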